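import Pool.Agent.ROH8.ZInd

/-!
Project ROH8, final part 5: all three pairs; levels 8 and 12.
-/

set_option autoImplicit false

namespace Pool.Agent.ROH8

open Finset Pool.Agent.Helper99.Rohr Pool.Agent.GP.DedM Pool.Agent.ROH IntermediateField
open scoped NumberTheorySymbols

/-- swapping the two characters -/
theorem classFn_swap {χ χ' : ℕ → ℚ} {r : ℕ} {a : Fin r → ℚ} {D : ℕ} {A B : ℚ}
    (h : ClassFn χ χ' a D A B) : ClassFn χ' χ a D B A := by
  intro m hm
  rw [h m hm]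
  ring

/-- the conclusion for a pair of characters -/
def PairStmt (χ χ' : ℕ → ℚ) : Prop :=
    ∃ u v : ℚ, u ≠ 0 ∧ v ≠ 0 ∧ ∀ (r : ℕ) (a : Fin r → ℚ) (D : ℕ) (A B : ℚ),
      0 < D → (∀ i, ∃ z : ℤ, (D : ℚ) * a i = z) → (∀ (i : Fin r) (n : ℕ), a i ≠ -(n : ℚ)) →
      ClassFn χ χ' a D A B →
      ¬ (GammaMult a ↔ ∀ m : ℕ, 1 ≤ m → m ≤ D → Nat.Coprime m D →
        ∑ i, Int.fract ((m : ℚ) * a i) = (r : ℚ) / 2) →
      0 < intCount a ∧ A = u * intCount a ∧ B = v * intCount a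

theorem pairStmt_swap {χ χ' : ℕ → ℚ} (h : PairStmt χ χ') : PairStmt χ' χ := by
  obtain ⟨u, v, hu, hv, h⟩ := h
  refine ⟨v, u, hv, hu, fun r a D A B h1 h2 h3 h4 h5 => ?_⟩
  obtain ⟨h6, h7, h8⟩ := h r a D B A h1 h2 h3 (classFn_swap h4) h5
  exact ⟨h6, h8, h7⟩

theorem cop1 : Nat.Coprime 1 24 := by decide
theorem cop5 : Nat.Coprime 5 24 := by decide
theorem cop23 : Nat.Coprime 23 24 := by decide
theorem cop11 : Nat.Coprime 11 24 := by decide

theorem pair12 : PairStmt (fun m => (J(-1 | m) : ℤ)) (fun m => (J(-2 | m) : ℤ)) := by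
  have a1 : J(-1 | 1) = 1 := by norm_num
  have a5 : J(-1 | 5) = 1 := by norm_num
  have a23 : J(-1 | 23) = -1 := by norm_num
  have b1 : J(-2 | 1) = 1 := by norm_num
  have b5 : J(-2 | 5) = -1 := by norm_num
  have b23 : J(-2 | 23) = -1 := by norm_num
  refine pair_final gen1 gen2 ind12 (trans_div gamma4) gamma8 cop1 cop5 ?_ ⟨23, cop23, ?_, ?_⟩
  · simp only [a1, a5, b1, b5]; norm_num
  · simp only [a1, a23]; norm_num
  · simp only [b1, b23]; norm_num

theorem pair13 : PairStmt (fun m => (J(-1 | m) : ℤ)) (fun m => (J(-3 | m) : ℤ)) := by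
  have a1 : J(-1 | 1) = 1 := by norm_num
  have a5 : J(-1 | 5) = 1 := by norm_num
  have a23 : J(-1 | 23) = -1 := by norm_num
  have b1 : J(-3 | 1) = 1 := by norm_num
  have b5 : J(-3 | 5) = -1 := by norm_num
  have b23 : J(-3 | 23) = -1 := by norm_num
  refine pair_final gen1 gen3 ind13 (trans_div gamma4) (trans_div gamma3) cop1 cop5 ?_
    ⟨23, cop23, ?_, ?_⟩
  · simp only [a1, a5, b1, b5]; norm_num
  · simp only [a1, a23]; norm_num
  · simp only [b1, b23]; norm_num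

theorem pair32 : PairStmt (fun m => (J(-3 | m) : ℤ)) (fun m => (J(-2 | m) : ℤ)) := by
  have a1 : J(-3 | 1) = 1 := by norm_num
  have a11 : J(-3 | 11) = -1 := by norm_num
  have a23 : J(-3 | 23) = -1 := by norm_num
  have b1 : J(-2 | 1) = 1 := by norm_num
  have b11 : J(-2 | 11) = 1 := by norm_num
  have b23 : J(-2 | 23) = -1 := by norm_num
  refine pair_final gen3 gen2 ind32 (trans_div gamma3) gamma8 cop1 cop11 ?_ ⟨23, cop23, ?_, ?_⟩
  · simp only [a1, a11, b1, b11]; norm_num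
  · simp only [a1, a23]; norm_num
  · simp only [b1, b23]; norm_num

theorem pair_all {c d : ℤ} (hc : c = 1 ∨ c = 2 ∨ c = 3) (hd : d = 1 ∨ d = 2 ∨ d = 3) (hcd : c ≠ d) :
    PairStmt (fun m => (J(-c | m) : ℤ)) (fun m => (J(-d | m) : ℤ)) := by
  rcases hc with rfl | rfl | rfl <;> rcases hd with rfl | rfl | rfl
  · exact absurd rfl hcd
  · exact pair12
  · exact pair13
  · exact pairStmt_swap pair12
  · exact absurd rfl hcd
  · exact pairStmt_swap pair32
  · exact pairStmt_swap pair13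
  · exact pair32
  · exact absurd rfl hcd

theorem intCount_eq_zero {r : ℕ} {a : Fin r → ℚ} (hni : ∀ (i : Fin r) (z : ℤ), a i ≠ z) :
    intCount a = 0 := by
  unfold intCount
  rw [card_eq_zero, filter_eq_empty_iff]
  intro i _ h
  rw [Int.fract_eq_iff] at h
  obtain ⟨-, -, z, hz⟩ := h
  rw [sub_zero] at hz
  exact hni i z hz

/-- the sum of the sawtooth functions of the non-integral entries is odd -/
theorem saw_neg {r : ℕ} {a : Fin r → ℚ} {N : ℕ} (hN : 0 < N) (hNa : ∀ i, ∃ z : ℤ, (N : ℚ) * a i = z)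
    {m m' : ℕ} (hm : m.Coprime N) (h : N ∣ m + m') :
    ∑ i ∈ nonInt a, saw m' (Int.fract (a i)) = -∑ i ∈ nonInt a, saw m (Int.fract (a i)) := by
  rw [← sum_neg_distrib]
  refine sum_congr rfl fun i hi => ?_
  have hpt := isPt_fract (hNa i) (mem_filter.1 hi).2
  obtain ⟨-, -, z, hz⟩ := hpt
  obtain ⟨k, hk⟩ := h
  have h1 := not_int hm (isPt_fract (hNa i) (mem_filter.1 hi).2)
  set x := Int.fract (a i)
  have hkq : (m : ℚ) + m' = N * k := by exact_mod_cast hk
  have h2 : (m' : ℚ) * x = -((m : ℚ) * x) + ((k * z : ℤ) : ℚ) := by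
    push_cast
    rw [← hz]
    linear_combination x * hkq
  have h3 : Int.fract ((m : ℚ) * x) ≠ 0 := by
    intro h
    rw [Int.fract_eq_iff] at h
    obtain ⟨-, -, w, hw⟩ := h
    exact h1 w (by rw [← hw]; ring)
  unfold saw
  rw [h2, Int.fract_add_intCast, Int.fract_neg h3]
  ring

theorem saw_mod {r : ℕ} {a : Fin r → ℚ} {N : ℕ} (hNa : ∀ i, ∃ z : ℤ, (N : ℚ) * a i = z)
    {m m' : ℕ} (h : m ≡ m' [MOD N]) :
    ∑ i ∈ nonInt a, saw m (Int.fract (a i)) = ∑ i ∈ nonInt a, saw m' (Int.fract (a i)) := by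
  refine sum_congr rfl fun i hi => ?_
  unfold saw
  congr 1
  exact ROH.fract_congr h (isPt_fract (hNa i) (mem_filter.1 hi).2).2.2

/-- level 8 -/
theorem class8 {r : ℕ} (a : Fin r → ℚ) (h8 : ∀ i, ∃ z : ℤ, 8 * a i = z) (D : ℕ) : ∃ A B : ℚ,
    ClassFn (fun m => (J(-1 | m) : ℤ)) (fun m => (J(-2 | m) : ℤ)) a D A B := by
  have h8' : ∀ i, ∃ z : ℤ, ((8 : ℕ) : ℚ) * a i = z := by exact_mod_cast h8
  set S : ℕ → ℚ := fun m => ∑ i ∈ nonInt a, saw m (Int.fract (a i)) with hS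
  have h7 : S 7 = -S 1 := saw_neg (N := 8) (by norm_num) h8' (m := 1) (m' := 7) (by decide) (by decide)
  have h5 : S 5 = -S 3 := saw_neg (N := 8) (by norm_num) h8' (m := 3) (m' := 5) (by decide) (by decide)
  refine ⟨(S 1 - S 3) / 2, (S 1 + S 3) / 2, fun m hm => ?_⟩
  rw [sum_frac']
  change S m + _ = _
  have hm6 : m.Coprime 6 := hm.coprime_dvd_right (Dvd.intro _ rfl)
  have hm24 : m.Coprime 24 := by
    have h1 : m.Coprime 2 := hm6.coprime_dvd_right (by norm_num)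
    have h2 : m.Coprime 3 := hm6.coprime_dvd_right (by norm_num)
    have : (24 : ℕ) = 2 ^ 3 * 3 := by norm_num
    rw [this]
    exact (h1.pow_right 3).mul_right h2
  have hodd := Nat.odd_iff.1 (Nat.coprime_two_right.1 (hm24.coprime_dvd_right (by norm_num)))
  simp only
  rw [J1 hm24, J2 hm24]
  have hc : m % 8 = 1 ∨ m % 8 = 3 ∨ m % 8 = 5 ∨ m % 8 = 7 := by omega
  have hmod : ∀ j : ℕ, j < 8 → m % 8 = j → S m = S j := fun j hj h =>
    saw_mod h8' (show m % 8 = j % 8 by rw [h, Nat.mod_eq_of_lt hj])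
  rcases hc with h | h | h | h
  · rw [hmod 1 (by norm_num) h, if_pos (by omega), if_pos (by omega)]
    push_cast
    ring
  · rw [hmod 3 (by norm_num) h, if_neg (by omega), if_pos (by omega)]
    push_cast
    ring
  · rw [hmod 5 (by norm_num) h, h5, if_pos (by omega), if_neg (by omega)]
    push_cast
    ring
  · rw [hmod 7 (by norm_num) h, h7, if_neg (by omega), if_neg (by omega)]
    push_cast
    ring

/-- level 12 -/
theorem class12 {r : ℕ} (a : Fin r → ℚ) (h12 : ∀ i, ∃ z : ℤ, 12 * a i = z) (D : ℕ) : ∃ A B : ℚ,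
    ClassFn (fun m => (J(-1 | m) : ℤ)) (fun m => (J(-3 | m) : ℤ)) a D A B := by
  have h12' : ∀ i, ∃ z : ℤ, ((12 : ℕ) : ℚ) * a i = z := by exact_mod_cast h12
  set S : ℕ → ℚ := fun m => ∑ i ∈ nonInt a, saw m (Int.fract (a i)) with hS
  have h11 : S 11 = -S 1 :=
    saw_neg (N := 12) (by norm_num) h12' (m := 1) (m' := 11) (by decide) (by decide)
  have h7 : S 7 = -S 5 :=
    saw_neg (N := 12) (by norm_num) h12' (m := 5) (m' := 7) (by decide) (by decide)
  refine ⟨(S 1 + S 5) / 2, (S 1 - S 5) / 2, fun m hm => ?_⟩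
  rw [sum_frac']
  change S m + _ = _
  have hm6 : m.Coprime 6 := hm.coprime_dvd_right (Dvd.intro _ rfl)
  have h1 : m.Coprime 2 := hm6.coprime_dvd_right (by norm_num)
  have h2 : m.Coprime 3 := hm6.coprime_dvd_right (by norm_num)
  have hm24 : m.Coprime 24 := by
    have : (24 : ℕ) = 2 ^ 3 * 3 := by norm_num
    rw [this]
    exact (h1.pow_right 3).mul_right h2
  have hodd := Nat.odd_iff.1 (Nat.coprime_two_right.1 h1)
  have h3' : ¬ 3 ∣ m := (Nat.Prime.coprime_iff_not_dvd Nat.prime_three).1 h2.symm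
  simp only
  rw [J1 hm24, J3 hm24]
  have hc : m % 12 = 1 ∨ m % 12 = 5 ∨ m % 12 = 7 ∨ m % 12 = 11 := by omega
  have hmod : ∀ j : ℕ, j < 12 → m % 12 = j → S m = S j := fun j hj h =>
    saw_mod h12' (show m % 12 = j % 12 by rw [h, Nat.mod_eq_of_lt hj])
  rcases hc with h | h | h | h
  · rw [hmod 1 (by norm_num) h, if_pos (by omega), if_pos (by omega)]
    push_cast
    ring
  · rw [hmod 5 (by norm_num) h, if_pos (by omega), if_neg (by omega)]
    push_cast
    ring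
  · rw [hmod 7 (by norm_num) h, h7, if_neg (by omega), if_pos (by omega)]
    push_cast
    ring
  · rw [hmod 11 (by norm_num) h, h11, if_neg (by omega), if_neg (by omega)]
    push_cast
    ring

end Pool.Agent.ROH8
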