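import Pool.Agent.ROH8.Def
import Pool.Agent.ROH.SSig

/-!
ROH8-Hom: homogeneity. If `u` maps the lattice of `L` onto the lattice of `D` then all functions of `D` are obtained from those of `L`.

The sums (the product) over `D.lattice` are reindexed by the equivalence `L.lattice ≃ D.lattice`, `l ↦ u l`.
`mulr_dbl`: `√-2 (a ω₁ + b ω₂) = -b (2 ω₁) + a ω₂`.
-/

set_option autoImplicit false

namespace Pool.Agent.ROH8

open Complex ComplexConjugate Pool.Agent.ROH

/-- multiplication by `u` as an equivalence of the two lattices -/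
private noncomputable def Hom_e {L D : PeriodPair} {u : ℂ} (hu : u ≠ 0) (h : Mulr L D u) : L.lattice ≃ D.lattice where
  toFun := fun l => ⟨u * l.1, (h l.1).1 l.2⟩
  invFun := fun l => ⟨u⁻¹ * l.1, (h _).2 (by
    rw [mul_inv_cancel_left₀ hu]
    exact l.2)⟩
  left_inv := fun l => Subtype.ext (inv_mul_cancel_left₀ hu l.1)
  right_inv := fun l => Subtype.ext (mul_inv_cancel_left₀ hu l.1)

private theorem Hom_coe {L D : PeriodPair} {u : ℂ} (hu : u ≠ 0) (h : Mulr L D u) (l : L.lattice) :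
    ((Hom_e hu h l : D.lattice) : ℂ) = u * (l : ℂ) := rfl

theorem P_mulr {L D : PeriodPair} {u : ℂ} (hu : u ≠ 0) (h : Mulr L D u) (z : ℂ) :
    D.weierstrassP (u * z) = (u ^ 2)⁻¹ * L.weierstrassP z := by
  unfold PeriodPair.weierstrassP
  rw [← (Hom_e hu h).tsum_eq (fun l : D.lattice => (1 / (u * z - (l : ℂ)) ^ 2 - 1 / (l : ℂ) ^ 2)),
    ← tsum_mul_left]
  refine tsum_congr fun l => ?_
  simp only [Hom_coe]
  rw [← mul_sub, mul_pow, mul_pow, one_div, one_div, one_div, one_div, mul_inv, mul_inv, mul_sub]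

theorem G_mulr {L D : PeriodPair} {u : ℂ} (hu : u ≠ 0) (h : Mulr L D u) (n : ℕ) :
    D.G n = (u ^ n)⁻¹ * L.G n := by
  unfold PeriodPair.G
  rw [← (Hom_e hu h).tsum_eq (fun l : D.lattice => ((l : ℂ) ^ n)⁻¹), ← tsum_mul_left]
  refine tsum_congr fun l => ?_
  simp only [Hom_coe]
  rw [mul_pow, mul_inv]

theorem sg_mulr {L D : PeriodPair} {u : ℂ} (hu : u ≠ 0) (h : Mulr L D u) (z : ℂ) :
    sg D (u * z) = u * sg L z := by
  have h1 : sgP D (u * z) = sgP L z := by
    unfold sgP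
    rw [← Equiv.tprod_eq (Hom_e hu h)]
    refine tprod_congr fun l => ?_
    have h2 : u * z / ((Hom_e hu h l : D.lattice) : ℂ) = z / (l : ℂ) := by
      rw [Hom_coe]
      exact mul_div_mul_left z l.1 hu
    rw [h2]
  unfold sg
  rw [h1, mul_assoc]

theorem mulr_dbl (L : PeriodPair) (h : L.ω₂ = q2 * L.ω₁) : Mulr L (dbl L) q2 := by
  intro l
  have hq : q2 * q2 = -2 := by
    rw [← sq]
    exact q2_sq
  rw [PeriodPair.mem_lattice, PeriodPair.mem_lattice]
  constructor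
  · rintro ⟨m, k, rfl⟩
    refine ⟨-k, m, ?_⟩
    show ((-k : ℤ) : ℂ) * (2 * L.ω₁) + (m : ℂ) * L.ω₂ = q2 * ((m : ℂ) * L.ω₁ + (k : ℂ) * L.ω₂)
    rw [h]
    push_cast
    linear_combination (-(k : ℂ) * L.ω₁) * hq
  · rintro ⟨m, k, hl⟩
    replace hl : (m : ℂ) * (2 * L.ω₁) + (k : ℂ) * L.ω₂ = q2 * l := hl
    refine ⟨k, -m, ?_⟩
    apply mul_left_cancel₀ q2_ne
    rw [← hl, h]
    push_cast
    linear_combination (-(m : ℂ) * L.ω₁) * hq

end Pool.Agent.ROH8
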