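import Pool.Agent.ROH8.Spl
import Pool.Agent.ROH8.Hom
import Pool.Agent.ROH.SOdeP

/-!
ROH8-Inv: the invariants of a lattice with complex multiplication by `√-2`.

`D = dbl L`, `h = ℘_D(ω₁)`: `g₂(D) = g₂(L)/4`, `g₃(D) = -g₃(L)/8`; the second derivative of `℘_D` at `-ω₁` is
`6 sumInvPow (-ω₁) 4` and `6 h^2 - g₂(D)/2`, so `g₂(L) = 30 h^2` by `G4_split`; `℘'_D(ω₁) = 0` gives `g₃(L) = 28 h^3`.
-/

set_option autoImplicit false

namespace Pool.Agent.ROH8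

open Complex ComplexConjugate Pool.Agent.ROH

theorem inv8 (L : PeriodPair) (h : L.ω₂ = q2 * L.ω₁) :
    L.g₂ = 30 * (dbl L).weierstrassP L.ω₁ ^ 2 ∧ L.g₃ = 28 * (dbl L).weierstrassP L.ω₁ ^ 3 := by
  have hm := mulr_dbl L h
  have hG4 : (dbl L).G 4 = L.G 4 / 4 := by
    rw [G_mulr q2_ne hm 4]
    have h1 : q2 ^ 4 = 4 := by
      have h2 : q2 ^ 4 = (q2 ^ 2) ^ 2 := by ring
      rw [h2, q2_sq]
      norm_num
    rw [h1]
    ring
  have hG6 : (dbl L).G 6 = -(L.G 6 / 8) := by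
    rw [G_mulr q2_ne hm 6]
    have h1 : q2 ^ 6 = -8 := by
      have h2 : q2 ^ 6 = (q2 ^ 2) ^ 3 := by ring
      rw [h2, q2_sq]
      norm_num
    rw [h1]
    ring
  have hmem : L.ω₁ ∉ (dbl L).lattice := ω₁_notMem_dbl L
  have hmem' : -L.ω₁ ∉ (dbl L).lattice := fun h1 => hmem (by simpa using neg_mem h1)
  have hder : 6 * (dbl L).sumInvPow (-L.ω₁) 4 =
      6 * (dbl L).weierstrassP (-L.ω₁) ^ 2 - (dbl L).g₂ / 2 := by
    rw [← (hasDerivAt_wP' (dbl L) (-L.ω₁) hmem').deriv, ← (dbl L).deriv_derivWeierstrassPExcept_self,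
      (dbl L).derivWeierstrassPExcept_of_notMem _ hmem']
  rw [(dbl L).weierstrassP_neg, PeriodPair.g₂, hG4] at hder
  have hsplit := G4_split L
  rw [hG4] at hsplit
  have h2 : L.g₂ = 30 * (dbl L).weierstrassP L.ω₁ ^ 2 := by
    rw [PeriodPair.g₂]
    linear_combination 30 * hsplit + 5 * hder
  refine ⟨h2, ?_⟩
  have hP' : (dbl L).derivWeierstrassP L.ω₁ = 0 := by
    have h3 : (2 * L.ω₁ : ℂ) ∈ (dbl L).lattice := (dbl L).ω₁_mem_lattice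
    have h4 := (dbl L).derivWeierstrassP_sub_coe L.ω₁ ⟨2 * L.ω₁, h3⟩
    have h5 : L.ω₁ - ((⟨2 * L.ω₁, h3⟩ : (dbl L).lattice) : ℂ) = -L.ω₁ := by
      show L.ω₁ - 2 * L.ω₁ = -L.ω₁
      ring
    rw [h5, (dbl L).derivWeierstrassP_neg] at h4
    linear_combination -(1 / 2 : ℂ) * h4
  have hsq := (dbl L).derivWeierstrassP_sq L.ω₁ hmem
  rw [hP', PeriodPair.g₂, PeriodPair.g₃, hG4, hG6] at hsq
  rw [PeriodPair.g₂] at h2
  rw [PeriodPair.g₃]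
  linear_combination -8 * hsq + 2 * (dbl L).weierstrassP L.ω₁ * h2

end Pool.Agent.ROH8
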