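import Pool.Agent.ROH8.Def

/-!
ROH8-Spl: coset splitting of the sums over the lattice.

PLAN. The lattice of `L` is the disjoint union of the lattice `D` of `dbl L` (`2 a ω₁ + b ω₂`) and of its coset `ω₁ + D`
(`(2 a + 1) ω₁ + b ω₂`). Use an equivalence `(dbl L).lattice ⊕ (dbl L).lattice ≃ L.lattice`, `inl d ↦ d`,
`inr d ↦ d + ω₁` (injective: `ω₁ ∉ D` because of the independence: if `ω₁ = 2 a ω₁ + b ω₂` then `1 = 2 a`;
surjective: parity of the first coordinate) and `HasSum.sum` / `Summable.tsum_sum` on the sum type (or `tsum_add_tsum_compl`, or indexing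
by `ℤ × ℤ` with `latticeEquivProd`). `P_split`: the terms of the coset are
`1 / (z - (d + ω₁))^2 - 1 / (d + ω₁)^2 = (1 / ((z - ω₁) - d)^2 - 1 / d^2) - (1 / ((-ω₁) - d)^2 - 1 / d^2)`, so the sum over the coset
is `℘_D(z - ω₁) - ℘_D(-ω₁)` (`hasSum_weierstrassP` holds for every `z`; `weierstrassP_neg`). `G4_split`: `G` is the sum of `(l^4)⁻¹`
(`hasSum_sumInvPow` with `x = 0`, `sumInvPow_zero`), coset: `((d + ω₁)^4)⁻¹ = ((d - (-ω₁))^4)⁻¹`.
-/

set_option autoImplicit false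

namespace Pool.Agent.ROH8

open Complex ComplexConjugate Pool.Agent.ROH

private theorem spl_le (L : PeriodPair) {x : ℂ} (hx : x ∈ (dbl L).lattice) : x ∈ L.lattice := by
  obtain ⟨m, n, rfl⟩ := PeriodPair.mem_lattice.1 hx
  refine PeriodPair.mem_lattice.2 ⟨2 * m, n, ?_⟩
  show ((2 * m : ℤ) : ℂ) * L.ω₁ + n * L.ω₂ = m * (2 * L.ω₁) + n * L.ω₂
  push_cast
  ring

private theorem spl_add (L : PeriodPair) {x : ℂ} (hx : x ∈ (dbl L).lattice) : x + L.ω₁ ∈ L.lattice :=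
  L.lattice.add_mem (spl_le L hx) L.ω₁_mem_lattice

private theorem spl_cases (L : PeriodPair) {x : ℂ} (hx : x ∈ L.lattice) :
    x ∈ (dbl L).lattice ∨ x - L.ω₁ ∈ (dbl L).lattice := by
  obtain ⟨m, n, rfl⟩ := PeriodPair.mem_lattice.1 hx
  obtain ⟨k, hk | hk⟩ := Int.even_or_odd' m
  · left
    refine PeriodPair.mem_lattice.2 ⟨k, n, ?_⟩
    show (k : ℂ) * (2 * L.ω₁) + n * L.ω₂ = m * L.ω₁ + n * L.ω₂
    rw [hk]
    push_cast
    ring
  · right
    refine PeriodPair.mem_lattice.2 ⟨k, n, ?_⟩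
    show (k : ℂ) * (2 * L.ω₁) + n * L.ω₂ = m * L.ω₁ + n * L.ω₂ - L.ω₁
    rw [hk]
    push_cast
    ring

private theorem spl_not (L : PeriodPair) : L.ω₁ ∉ (dbl L).lattice := by
  intro h
  have h1 := (dbl L).ω₁_div_two_notMem_lattice
  apply h1
  have h2 : (dbl L).ω₁ / 2 = L.ω₁ := by
    show 2 * L.ω₁ / 2 = L.ω₁
    ring
  rw [h2]
  exact h

private theorem spl_sum (L : PeriodPair) (f : ℂ → ℂ) {a b : ℂ}
    (h1 : HasSum (fun d : (dbl L).lattice => f (d : ℂ)) a)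
    (h2 : HasSum (fun d : (dbl L).lattice => f ((d : ℂ) + L.ω₁)) b) :
    HasSum (fun l : L.lattice => f (l : ℂ)) (a + b) := by
  let φ : (dbl L).lattice ⊕ (dbl L).lattice → L.lattice :=
    Sum.elim (fun d => ⟨(d : ℂ), spl_le L d.2⟩) (fun d => ⟨(d : ℂ) + L.ω₁, spl_add L d.2⟩)
  have hb : Function.Bijective φ := by
    constructor
    · rintro (d | d) (d' | d') h
      · have h3 : ((φ (Sum.inl d) : L.lattice) : ℂ) = ((φ (Sum.inl d') : L.lattice) : ℂ) := by rw [h]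
        have h4 : (d : ℂ) = (d' : ℂ) := h3
        rw [Subtype.ext h4]
      · exfalso
        have h3 : (d : ℂ) = d' + L.ω₁ := congrArg Subtype.val h
        apply spl_not L
        have h4 : L.ω₁ = (d : ℂ) - d' := by rw [h3]; ring
        rw [h4]
        exact (dbl L).lattice.sub_mem d.2 d'.2
      · exfalso
        have h3 : (d : ℂ) + L.ω₁ = d' := congrArg Subtype.val h
        apply spl_not L
        have h4 : L.ω₁ = (d' : ℂ) - d := by rw [← h3]; ring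
        rw [h4]
        exact (dbl L).lattice.sub_mem d'.2 d.2
      · have h3 : (d : ℂ) + L.ω₁ = d' + L.ω₁ := congrArg Subtype.val h
        rw [Subtype.ext (add_right_cancel h3)]
    · rintro ⟨x, hx⟩
      rcases spl_cases L hx with h | h
      · exact ⟨Sum.inl ⟨x, h⟩, rfl⟩
      · exact ⟨Sum.inr ⟨x - L.ω₁, h⟩, Subtype.ext (by
          show x - L.ω₁ + L.ω₁ = x
          ring)⟩
  have h3 : HasSum ((fun l : L.lattice => f (l : ℂ)) ∘ (Equiv.ofBijective φ hb)) (a + b) :=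
    HasSum.sum h1 h2
  exact (Equiv.ofBijective φ hb).hasSum_iff.1 h3

theorem P_split (L : PeriodPair) (z : ℂ) : L.weierstrassP z =
    (dbl L).weierstrassP z + ((dbl L).weierstrassP (z - L.ω₁) - (dbl L).weierstrassP L.ω₁) := by
  refine (L.hasSum_weierstrassP z).unique ?_
  refine spl_sum L (fun l => 1 / (z - l) ^ 2 - 1 / l ^ 2) ((dbl L).hasSum_weierstrassP z) ?_
  rw [← (dbl L).weierstrassP_neg L.ω₁]
  have h1 := ((dbl L).hasSum_weierstrassP (z - L.ω₁)).sub ((dbl L).hasSum_weierstrassP (-L.ω₁))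
  have h2 : (fun d : (dbl L).lattice => (1 / (z - L.ω₁ - (d : ℂ)) ^ 2 - 1 / (d : ℂ) ^ 2) -
      (1 / (-L.ω₁ - (d : ℂ)) ^ 2 - 1 / (d : ℂ) ^ 2)) =
      fun d : (dbl L).lattice => 1 / (z - ((d : ℂ) + L.ω₁)) ^ 2 - 1 / ((d : ℂ) + L.ω₁) ^ 2 := by
    funext d
    have e1 : z - L.ω₁ - (d : ℂ) = z - ((d : ℂ) + L.ω₁) := by ring
    have e2 : (-L.ω₁ - (d : ℂ)) ^ 2 = ((d : ℂ) + L.ω₁) ^ 2 := by ring
    rw [e1, e2]
    ring
  rw [h2] at h1
  exact h1

theorem G4_split (L : PeriodPair) : L.G 4 = (dbl L).G 4 + (dbl L).sumInvPow (-L.ω₁) 4 := by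
  have h0 := L.hasSum_sumInvPow 0 (r := 4) (by norm_num)
  have h1 := (dbl L).hasSum_sumInvPow 0 (r := 4) (by norm_num)
  have h2 := (dbl L).hasSum_sumInvPow (-L.ω₁) (r := 4) (by norm_num)
  rw [PeriodPair.sumInvPow_zero] at h0 h1
  refine h0.unique ?_
  refine spl_sum L (fun l => ((l - 0) ^ 4)⁻¹) h1 ?_
  have h3 : (fun d : (dbl L).lattice => (((d : ℂ) - -L.ω₁) ^ 4)⁻¹) =
      fun d : (dbl L).lattice => (((d : ℂ) + L.ω₁ - 0) ^ 4)⁻¹ := by
    funext d
    rw [sub_neg_eq_add, sub_zero]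
  rw [h3] at h2
  exact h2

theorem ω₁_notMem_dbl (L : PeriodPair) : L.ω₁ ∉ (dbl L).lattice := spl_not L

end Pool.Agent.ROH8
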