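import Pool.Agent.ROH8.Defs
import Pool.Agent.ROH.SOdeP
import Pool.Agent.ROH8.Spl
import Pool.Agent.ROH8.Hom
import Pool.Agent.ROH8.Inv

/-!
ROH8-Cm. Complex multiplication by `√-2`.

`D = dbl L = w2 L`; `℘_L(z) = ℘_D(z) + ℘_D(z - ω₁) - ℘_D(ω₁)` (coset splitting) at `w2 z`, and `℘_D(w2 z) = -(1/2) ℘_L(z)`.
-/

set_option autoImplicit false

namespace Pool.Agent.ROH8

open Complex ComplexConjugate Finset

theorem dbl_wP (L : PeriodPair) (h2 : L.ω₂ = w2 * L.ω₁) (z : ℂ) :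
    (dbl L).weierstrassP (w2 * z) = -(1 / 2) * L.weierstrassP z := by
  have h := P_mulr q2_ne (mulr_dbl L h2) z
  rw [q2_sq] at h
  rw [← q2_eq, h]
  norm_num

theorem dbl_wP_one (L : PeriodPair) (h2 : L.ω₂ = w2 * L.ω₁) :
    (dbl L).weierstrassP L.ω₁ = -(1 / 2) * L.weierstrassP (L.ω₂ / 2) := by
  rw [← dbl_wP L h2, ← (dbl L).weierstrassP_neg L.ω₁]
  congr 1
  rw [h2]
  linear_combination (-(L.ω₁) / 2) * w2_sq

theorem cm_wP (L : PeriodPair) (h2 : L.ω₂ = w2 * L.ω₁) (z : ℂ) :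
    2 * L.weierstrassP (w2 * z) + L.weierstrassP z + L.weierstrassP (z + L.ω₂ / 2) =
      L.weierstrassP (L.ω₂ / 2) := by
  have h := P_split L (w2 * z)
  have h3 : w2 * z - L.ω₁ = w2 * (z + L.ω₂ / 2) := by
    rw [h2]
    linear_combination (-(L.ω₁) / 2) * w2_sq
  rw [h3, dbl_wP L h2, dbl_wP L h2, dbl_wP_one L h2] at h
  rw [h]
  ring

theorem cm_inv (L : PeriodPair) (h2 : L.ω₂ = w2 * L.ω₁) :
    L.g₂ = 15 / 2 * L.weierstrassP (L.ω₂ / 2) ^ 2 ∧ L.g₃ = -(7 / 2) * L.weierstrassP (L.ω₂ / 2) ^ 3 := by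
  obtain ⟨h3, h4⟩ := inv8 L h2
  rw [dbl_wP_one L h2] at h3 h4
  refine ⟨?_, ?_⟩
  · rw [h3]
    ring
  · rw [h4]
    ring

end Pool.Agent.ROH8
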