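import Pool.Agent.ROH8.Defs
import Pool.Agent.ROH.LDef
import Pool.Agent.ROH.SDef

/-!
Project ROH8 (MP_c2409d_nt, level 8): the lattice with complex multiplication by `√-2`.

`L = ⟨ω₁, ω₂⟩` with `ω₂ = √-2 ω₁`; `dbl L = ⟨2 ω₁, ω₂⟩ = √-2 L` has index two. The number
`h = ℘_{dbl L}(ω₁)` satisfies `g₂(L) = 30 h^2`, `g₃(L) = 28 h^3`; the function `exp (-h z^2/4) σ(z)` has the quasi-periods
`κ conj l`. If `h = -2/3` (curve `y^2 = x^3 + 4 x^2 + 2 x`) the real period is `Γ(1/8) Γ(3/8) / (4 √π)`.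
-/

set_option autoImplicit false

namespace Pool.Agent.ROH8

open Complex ComplexConjugate Pool.Agent.ROH

noncomputable section

/-- `√-2` -/
def q2 : ℂ := r2 * I

theorem q2_eq : q2 = w2 := rfl

theorem q2_sq : q2 ^ 2 = -2 := by
  rw [q2, mul_pow, r2_sq, I_sq]
  norm_num

theorem q2_ne : q2 ≠ 0 := by
  intro h
  have := q2_sq
  rw [h] at this
  norm_num at this

theorem conj_q2 : conj q2 = -q2 := by
  rw [q2, map_mul, conj_r2, conj_I, mul_neg]

theorem q2_im : q2.im = Real.sqrt 2 := by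
  simp [q2, r2]

theorem q2_re : q2.re = 0 := by
  simp [q2, r2]

/-- the sublattice of index two generated by `2 ω₁` and `ω₂` -/
def dbl (L : PeriodPair) : PeriodPair where
  ω₁ := 2 * L.ω₁
  ω₂ := L.ω₂
  indep := by
    rw [LinearIndependent.pair_iff]
    intro s t h
    have h1 := LinearIndependent.pair_iff.mp L.indep (2 * s) t (by
      rw [Complex.real_smul, Complex.real_smul] at h ⊢
      rw [← h]
      push_cast
      ring)
    exact ⟨by linarith [h1.1], h1.2⟩

/-- the lattice `ℤ + ℤ √-2` -/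
def bas : PeriodPair where
  ω₁ := 1
  ω₂ := q2
  indep := by
    rw [LinearIndependent.pair_iff]
    intro s t h
    have h2 := congrArg Complex.im h
    rw [Complex.real_smul, Complex.real_smul, Complex.add_im, Complex.im_ofReal_mul, Complex.im_ofReal_mul,
      q2_im, Complex.one_im, mul_zero, zero_add, Complex.zero_im] at h2
    have ht : t = 0 := by
      rcases mul_eq_zero.1 h2 with h3 | h3
      · exact h3
      · exact absurd h3 (Real.sqrt_pos.2 (by norm_num)).ne'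
    subst ht
    simpa using h

/-- multiplication with `u` maps the lattice of `L` onto the lattice of `D` -/
def Mulr (L D : PeriodPair) (u : ℂ) : Prop := ∀ l : ℂ, l ∈ L.lattice ↔ u * l ∈ D.lattice

/-- block S, level 8 -/
def Sigma8 : Prop := ∀ (v : ℝ) (L : PeriodPair) (h : ℚ), 0 < v → L.ω₁ = v → L.ω₂ = v * q2 →
  (dbl L).weierstrassP L.ω₁ = h →
    ∃ (s : ℂ → ℂ) (n : ℕ), 0 < n ∧ Differentiable ℂ s ∧ RatTay s ∧
      QP (fun z => s (v * z)) (n * (Real.pi / Real.sqrt 2)) q2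

/-- block L, level 8 -/
def Lattice8 : Prop := ∃ (v : ℝ) (L : PeriodPair) (h : ℚ) (a : ℝ), 0 < v ∧ L.ω₁ = v ∧
  L.ω₂ = v * q2 ∧ (dbl L).weierstrassP L.ω₁ = h ∧ IsAlgebraic ℚ a ∧ a ≠ 0 ∧
    v = a * (Real.Gamma (1 / 8) * Real.Gamma (3 / 8) / Real.sqrt Real.pi)

end

end Pool.Agent.ROH8
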