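import Pool.Agent.ROH.Ifc

/-!
Project ROH8 (MP_c2409d_nt, level 8; helper91): `Γ(1/8)/√π` and `Γ(3/8)/√π` are algebraically independent.
The elliptic curve with complex multiplication by `√-2`. Definitions.
-/

set_option autoImplicit false

namespace Pool.Agent.ROH8

open Complex ComplexConjugate Finset

noncomputable section

/-- `√2` -/
def r2 : ℂ := ((Real.sqrt 2 : ℝ) : ℂ)

/-- `√-2` -/
def w2 : ℂ := r2 * I

end

theorem r2_sq : r2 ^ 2 = 2 := by
  rw [r2, ← ofReal_pow, Real.sq_sqrt (by norm_num)]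
  norm_num

theorem r2_ne : r2 ≠ 0 := by
  intro h
  have := r2_sq
  rw [h] at this
  norm_num at this

theorem conj_r2 : conj r2 = r2 := by rw [r2, conj_ofReal]

theorem w2_sq : w2 ^ 2 = -2 := by
  rw [w2, mul_pow, I_sq, r2_sq]
  norm_num

theorem w2_ne : w2 ≠ 0 := by
  intro h
  have := w2_sq
  rw [h] at this
  norm_num at this

theorem conj_w2 : conj w2 = -w2 := by
  rw [w2, map_mul, conj_r2, conj_I, mul_neg]

theorem w2_im : w2.im = Real.sqrt 2 := by
  simp [w2, r2]

theorem w2_re : w2.re = 0 := by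
  simp [w2, r2]

end Pool.Agent.ROH8
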