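import Pool.Agent.ROH8.Spl
import Pool.Agent.ROH8.Hom
import Pool.Agent.ROH.SPer

/-!
ROH8-Eta: the quasi-periods of the sigma function of a lattice with complex multiplication by `√-2`.
-/

set_option autoImplicit false

namespace Pool.Agent.ROH8

open Complex ComplexConjugate Pool.Agent.ROH

private theorem eta_conn (L : PeriodPair) : IsPreconnected ((L.lattice : Set ℂ)ᶜ) :=
  (Set.Countable.isConnected_compl_of_one_lt_rank (by simp)
    (countable_of_Lindelof_of_discrete (X := L.lattice))).2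

private theorem eta_open (L : PeriodPair) : IsOpen ((L.lattice : Set ℂ)ᶜ) := L.isClosed_lattice.isOpen_compl

private theorem eta_sg (L : PeriodPair) {z : ℂ} (hz : z ∉ L.lattice) :
    HasDerivAt (sg L) (logDeriv (sg L) z * sg L z) z := by
  have h := (differentiable_sg L z).hasDerivAt
  have e : logDeriv (sg L) z * sg L z = deriv (sg L) z := by
    rw [logDeriv_apply, div_mul_cancel₀ _ (sg_ne L z hz)]
  rwa [e]

private theorem eta_inc (M : PeriodPair) (l α c : ℂ) (h : ∀ z, sg M (z + l) = c * cexp (α * z) * sg M z)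
    {z : ℂ} (hz : z ∉ M.lattice) (hzl : z + l ∉ M.lattice) :
    logDeriv (sg M) (z + l) = α + logDeriv (sg M) z := by
  have h1 : HasDerivAt (fun z => sg M (z + l)) (logDeriv (sg M) (z + l) * sg M (z + l)) z :=
    (eta_sg M hzl).comp_add_const z l
  have h2 : HasDerivAt (fun z : ℂ => cexp (α * z)) (cexp (α * z) * (α * 1)) z :=
    ((hasDerivAt_id z).const_mul α).cexp
  have h3 : HasDerivAt (fun z => c * cexp (α * z) * sg M z)
      (c * (cexp (α * z) * (α * 1)) * sg M z + c * cexp (α * z) * (logDeriv (sg M) z * sg M z)) z :=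
    (h2.const_mul c).mul (eta_sg M hz)
  have h4 : (fun z => sg M (z + l)) = fun z => c * cexp (α * z) * sg M z := funext h
  rw [h4] at h1
  have h5 := h1.unique h3
  have h6 := sg_ne M (z + l) hzl
  refine mul_right_cancel₀ h6 ?_
  rw [h5, h z]
  ring

private theorem eta_sub (L : PeriodPair) : (dbl L).lattice ≤ L.lattice := by
  refine Submodule.span_le.2 ?_
  rintro x (rfl | rfl)
  · show 2 * L.ω₁ ∈ L.lattice
    rw [two_mul]
    exact add_mem L.ω₁_mem_lattice L.ω₁_mem_lattice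
  · exact L.ω₂_mem_lattice

theorem eta8 (L : PeriodPair) (h : L.ω₂ = q2 * L.ω₁) (α c β d : ℂ) (hc : c ≠ 0) (hd : d ≠ 0)
    (h1 : ∀ z, sg L (z + L.ω₁) = c * cexp (α * z) * sg L z)
    (h2 : ∀ z, sg L (z + L.ω₂) = d * cexp (β * z) * sg L z) :
    β = -q2 * α + (dbl L).weierstrassP L.ω₁ * (q2 * L.ω₁) := by
  have hD : ∀ z, z ∉ L.lattice → z ∉ (dbl L).lattice := fun z hz h1 => hz (eta_sub L h1)
  have hD' : ∀ z, z ∉ L.lattice → z - L.ω₁ ∉ (dbl L).lattice := by
    intro z hz h1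
    have h3 := add_mem (eta_sub L h1) L.ω₁_mem_lattice
    rw [sub_add_cancel] at h3
    exact hz h3
  have hf : ∀ z ∈ ((L.lattice : Set ℂ)ᶜ), HasDerivAt (fun z => logDeriv (sg L) z - logDeriv (sg (dbl L)) z -
      logDeriv (sg (dbl L)) (z - L.ω₁) - (dbl L).weierstrassP L.ω₁ * z) 0 z := by
    intro z hz
    have hz' : z ∉ L.lattice := hz
    have g1 := hasDerivAt_logDeriv_sg L z hz'
    have g2 := hasDerivAt_logDeriv_sg (dbl L) z (hD z hz')
    have g3 := (hasDerivAt_logDeriv_sg (dbl L) (z - L.ω₁) (hD' z hz')).comp_sub_const z L.ω₁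
    have g4 := (hasDerivAt_id z).const_mul ((dbl L).weierstrassP L.ω₁)
    have g5 := ((g1.sub g2).sub g3).sub g4
    refine g5.congr_deriv ?_
    rw [P_split L z]
    ring
  obtain ⟨k, hk⟩ := (eta_open L).exists_is_const_of_deriv_eq_zero (eta_conn L)
    (fun z hz => (hf z hz).differentiableAt.differentiableWithinAt) (fun z hz => (hf z hz).deriv)
  have hz0 : L.ω₁ / 2 ∉ L.lattice := L.ω₁_div_two_notMem_lattice
  have hz1 : L.ω₁ / 2 + L.ω₂ ∉ L.lattice := by
    intro h3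
    have h4 := L.lattice.sub_mem h3 L.ω₂_mem_lattice
    rw [add_sub_cancel_right] at h4
    exact hz0 h4
  -- the increment of the zeta function of the sublattice
  have hq := q2_ne
  have hsD : ∀ w, sg (dbl L) (w + L.ω₂) = c * cexp (α * q2⁻¹ * w) * sg (dbl L) w := by
    intro w
    have g1 := sg_mulr q2_ne (mulr_dbl L h) (q2⁻¹ * w)
    have g2 := sg_mulr q2_ne (mulr_dbl L h) (q2⁻¹ * w + L.ω₁)
    have g3 : q2 * (q2⁻¹ * w) = w := by
      rw [← mul_assoc, mul_inv_cancel₀ hq, one_mul]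
    have g4 : q2 * (q2⁻¹ * w + L.ω₁) = w + L.ω₂ := by
      rw [mul_add, g3, h]
    rw [g3] at g1
    rw [g4, h1] at g2
    rw [g2, g1]
    have g5 : α * (q2⁻¹ * w) = α * q2⁻¹ * w := by ring
    rw [g5]
    ring
  have i1 := eta_inc L L.ω₂ β d h2 hz0 hz1
  have i2 := eta_inc (dbl L) L.ω₂ (α * q2⁻¹) c hsD (hD _ hz0) (hD _ hz1)
  have e1 : L.ω₁ / 2 - L.ω₁ + L.ω₂ = L.ω₁ / 2 + L.ω₂ - L.ω₁ := by ring
  have i3 := eta_inc (dbl L) L.ω₂ (α * q2⁻¹) c hsD (hD' _ hz0) (by rw [e1]; exact hD' _ hz1)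
  rw [e1] at i3
  have k0 := hk (L.ω₁ / 2) hz0
  have k1 := hk (L.ω₁ / 2 + L.ω₂) hz1

  rw [i1, i2, i3] at k1
  have e2 : q2⁻¹ = -q2 / 2 := by
    have := q2_sq
    field_simp
    linear_combination this
  rw [e2] at k1
  rw [← h]
  linear_combination k1 - k0

end Pool.Agent.ROH8
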