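import Pool.Agent.ROH8.GDefs
import Pool.Agent.ROH.BDefs

/-!
Project ROH8, block B (arithmetic), general form of ROH/BDefs: definitions.
-/

set_option autoImplicit false

namespace Pool.Agent.ROH8

open Complex ComplexConjugate Finset Polynomial Pool.Agent.ROH

noncomputable section

/-- second factor of `GG` -/
def Gbm (m : ℕ) (s : ℂ → ℂ) (c Q : ℂ) (l t : ℂ) : ℂ := s (c * Q / (2 * rt m) * l + -(1 / (2 * rt m)) * t)

/-- the function `G(l, t)` whose `t`-derivatives are `F_k`, `H_j` on a line -/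
def GG (m : ℕ) (s : ℂ → ℂ) (c κ P Q : ℂ) (l t : ℂ) : ℂ :=
  Ga s c P l t * Gbm m s c Q l t ^ m * Gc κ l t

open Pool.Agent.GP in
/-- the algebraic environment: the numbers `1, √m, c, κ` times `D0(θ)` are represented by matrices
over `ℤ[X]` of degree `≤ E` and length `≤ X` -/
structure EnvG (m δ : ℕ) (ω : Fin (δ + 1) → ℂ) (θ : ℂ) (D0 : ℤ[X]) (E : ℕ) (X : ℝ) (c κ : ℂ) :
    Prop where
  hX : 1 ≤ X
  d : Rep (δ + 1) ω θ (aeval θ D0) E X
  r : Rep (δ + 1) ω θ (aeval θ D0 * rt m) E X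
  c : Rep (δ + 1) ω θ (aeval θ D0 * c) E X
  k : Rep (δ + 1) ω θ (aeval θ D0 * κ) E X

end

end Pool.Agent.ROH8
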