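import Pool.Agent.ROH8.GDefs

/-!
ROH8-GCov. Covering property of the lattice (general form of ROH/Cov3; units from Pell's equation).
-/

set_option autoImplicit false

namespace Pool.Agent.ROH8

open Complex ComplexConjugate Finset

private theorem rr_sq (m : ℕ) : Real.sqrt m ^ 2 = m := Real.sq_sqrt (Nat.cast_nonneg m)

/-- one step with the unit `p + q √(ab)` -/
private theorem cv_up (a b : ℕ) (p q : ℤ) (n1 n2 n3 n4 : ℤ) : ∃ m1 m2 m3 m4 : ℤ,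
    (uv a b m1 m2 m3 m4).1 = (((p : ℝ) + q * Real.sqrt (a * b : ℕ) : ℝ) : ℂ) * (uv a b n1 n2 n3 n4).1 ∧
    (uv a b m1 m2 m3 m4).2 = (((p : ℝ) - q * Real.sqrt (a * b : ℕ) : ℝ) : ℂ) * (uv a b n1 n2 n3 n4).2 := by
  have h := rt_sq (a * b)
  have h1 : (((p : ℝ) + q * Real.sqrt (a * b : ℕ) : ℝ) : ℂ) = p + q * rt (a * b) := by rw [rt]; push_cast; ring
  have h2 : (((p : ℝ) - q * Real.sqrt (a * b : ℕ) : ℝ) : ℂ) = p - q * rt (a * b) := by rw [rt]; push_cast; ring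
  refine ⟨p * n1 + q * (a * b) * n2, q * n1 + p * n2, q * b * n4 + p * n3, p * n4 + q * a * n3, ?_, ?_⟩
  · rw [h1]
    simp only [uv]
    push_cast at h ⊢
    linear_combination (-(q : ℂ) * (n2 + n3 * (rt a * I))) * h
  · rw [h2]
    simp only [uv]
    push_cast at h ⊢
    linear_combination (-(q : ℂ) * (n2 + n3 * (rt a * I))) * h

private theorem cv_upn (a b : ℕ) (p q : ℤ) (k : ℕ) : ∀ n1 n2 n3 n4 : ℤ, ∃ m1 m2 m3 m4 : ℤ,
    (uv a b m1 m2 m3 m4).1 = ((((p : ℝ) + q * Real.sqrt (a * b : ℕ)) ^ k : ℝ) : ℂ) * (uv a b n1 n2 n3 n4).1 ∧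
    (uv a b m1 m2 m3 m4).2 = ((((p : ℝ) - q * Real.sqrt (a * b : ℕ)) ^ k : ℝ) : ℂ) * (uv a b n1 n2 n3 n4).2 := by
  induction k with
  | zero =>
    intro n1 n2 n3 n4
    exact ⟨n1, n2, n3, n4, by simp, by simp⟩
  | succ k ih =>
    intro n1 n2 n3 n4
    obtain ⟨m1, m2, m3, m4, h1, h2⟩ := ih n1 n2 n3 n4
    obtain ⟨l1, l2, l3, l4, h3, h4⟩ := cv_up a b p q m1 m2 m3 m4
    refine ⟨l1, l2, l3, l4, ?_, ?_⟩
    · rw [h3, h1, pow_succ, ofReal_mul]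
      ring
    · rw [h4, h2, pow_succ, ofReal_mul]
      ring

private theorem cv_z (a b : ℕ) (p q : ℤ) (hpq : p ^ 2 - (a * b : ℕ) * q ^ 2 = 1) (k : ℤ) (n1 n2 n3 n4 : ℤ) :
    ∃ m1 m2 m3 m4 : ℤ,
    (uv a b m1 m2 m3 m4).1 = ((((p : ℝ) + q * Real.sqrt (a * b : ℕ)) ^ k : ℝ) : ℂ) * (uv a b n1 n2 n3 n4).1 ∧
    (uv a b m1 m2 m3 m4).2 = ((((p : ℝ) + q * Real.sqrt (a * b : ℕ)) ^ (-k) : ℝ) : ℂ) *
      (uv a b n1 n2 n3 n4).2 := by
  have hinv : ((p : ℝ) + q * Real.sqrt (a * b : ℕ))⁻¹ = p - q * Real.sqrt (a * b : ℕ) := by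
    have h1 := rr_sq (a * b)
    have h2 : ((p : ℝ) + q * Real.sqrt (a * b : ℕ)) * (p - q * Real.sqrt (a * b : ℕ)) = 1 := by
      have h3 : ((p : ℝ) ^ 2 - ((a * b : ℕ) : ℝ) * (q : ℝ) ^ 2) = 1 := by exact_mod_cast hpq
      linear_combination h3 - (q : ℝ) ^ 2 * h1
    exact inv_eq_of_mul_eq_one_right h2
  obtain ⟨k', rfl | rfl⟩ := Int.eq_nat_or_neg k
  · obtain ⟨m1, m2, m3, m4, h1, h2⟩ := cv_upn a b p q k' n1 n2 n3 n4
    refine ⟨m1, m2, m3, m4, ?_, ?_⟩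
    · rw [h1, zpow_natCast]
    · rw [h2, zpow_neg, zpow_natCast, ← inv_pow, hinv]
  · obtain ⟨m1, m2, m3, m4, h1, h2⟩ := cv_upn a b p (-q) k' n1 n2 n3 n4
    push_cast at h1 h2
    have e1 : (p : ℝ) + -(q : ℝ) * Real.sqrt (a * b : ℕ) = p - q * Real.sqrt (a * b : ℕ) := by ring
    have e2 : (p : ℝ) - -(q : ℝ) * Real.sqrt (a * b : ℕ) = p + q * Real.sqrt (a * b : ℕ) := by ring
    refine ⟨m1, m2, m3, m4, ?_, ?_⟩
    · rw [h1, zpow_neg, zpow_natCast, ← inv_pow, hinv, ← e1]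
      push_cast
      ring
    · rw [h2, neg_neg, zpow_natCast, ← e2]
      push_cast
      ring

/-- rounding in the rectangular lattice `ℤ + ℤ s i` -/
private theorem near_rect (s : ℝ) (hs : 0 < s) (A : ℂ) : ∃ x y : ℤ,
    ‖A - (x + y * ((s : ℂ) * I))‖ ≤ 1 + s := by
  refine ⟨round A.re, round (A.im / s), ?_⟩
  refine (Complex.norm_le_abs_re_add_abs_im _).trans ?_
  have e1 : (A - ((round A.re : ℂ) + (round (A.im / s) : ℂ) * ((s : ℂ) * I))).re = A.re - round A.re := by simp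
  have e2 : (A - ((round A.re : ℂ) + (round (A.im / s) : ℂ) * ((s : ℂ) * I))).im =
      (A.im / s - round (A.im / s)) * s := by
    have : (A - ((round A.re : ℂ) + (round (A.im / s) : ℂ) * ((s : ℂ) * I))).im = A.im - round (A.im / s) * s := by
      simp
    rw [this, sub_mul, div_mul_cancel₀ _ hs.ne']
  rw [e1, e2, abs_mul, abs_of_pos hs]
  have h2 := abs_sub_round A.re
  have h3 := mul_le_mul_of_nonneg_right (abs_sub_round (A.im / s)) hs.le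
  linarith

private theorem cv_near {a b : ℕ} (ha : 0 < a) (hb : 0 < b) : ∃ D : ℝ, 0 < D ∧ ∀ x y : ℂ, ∃ n1 n2 n3 n4 : ℤ,
    ‖x - (uv a b n1 n2 n3 n4).1‖ ≤ D ∧ ‖y - (uv a b n1 n2 n3 n4).2‖ ≤ D := by
  have hsa : 0 < Real.sqrt a := Real.sqrt_pos.2 (by exact_mod_cast ha)
  have hbr : (0 : ℝ) < b := by exact_mod_cast hb
  have hbs : 0 < b * Real.sqrt a := mul_pos hbr hsa
  have hR : 0 ≤ Real.sqrt (a * b : ℕ) := Real.sqrt_nonneg _
  refine ⟨(1 + b * Real.sqrt a) + Real.sqrt (a * b : ℕ) * (1 + Real.sqrt a), by positivity, fun x y => ?_⟩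
  have hne := rt_ne (Nat.mul_pos ha hb)
  obtain ⟨A, hA⟩ : ∃ A : ℂ, A = (x + y) / 2 := ⟨_, rfl⟩
  obtain ⟨B, hB⟩ : ∃ B : ℂ, B = (x - y) / (2 * rt (a * b)) := ⟨_, rfl⟩
  have hx : x = A + rt (a * b) * B := by
    rw [hA, hB]
    field_simp
    ring
  have hy : y = A - rt (a * b) * B := by
    rw [hA, hB]
    field_simp
    ring
  obtain ⟨n1, n4, h1⟩ := near_rect (b * Real.sqrt a) hbs A
  obtain ⟨n2, n3, h2⟩ := near_rect (Real.sqrt a) hsa B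
  have e1 : (n1 : ℂ) + n4 * (((b * Real.sqrt a : ℝ) : ℂ) * I) = n1 + b * n4 * (rt a * I) := by
    rw [rt]
    push_cast
    ring
  have e2 : (n2 : ℂ) + n3 * (((Real.sqrt a : ℝ) : ℂ) * I) = n2 + n3 * (rt a * I) := by
    rw [rt]
  rw [e1] at h1
  rw [e2] at h2
  have h3 : ‖rt (a * b) * (B - (n2 + n3 * (rt a * I)))‖ ≤ Real.sqrt (a * b : ℕ) * (1 + Real.sqrt a) := by
    rw [norm_mul, rt, Complex.norm_real, Real.norm_of_nonneg hR]
    exact mul_le_mul_of_nonneg_left h2 hR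
  refine ⟨n1, n2, n3, n4, ?_, ?_⟩
  · have e : x - (uv a b n1 n2 n3 n4).1 =
        (A - (n1 + b * n4 * (rt a * I))) + rt (a * b) * (B - (n2 + n3 * (rt a * I))) := by
      rw [hx]
      simp only [uv]
      ring
    rw [e]
    refine (norm_add_le _ _).trans ?_
    linarith
  · have e : y - (uv a b n1 n2 n3 n4).2 =
        (A - (n1 + b * n4 * (rt a * I))) - rt (a * b) * (B - (n2 + n3 * (rt a * I))) := by
      rw [hy]
      simp only [uv]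
      ring
    rw [e]
    refine (norm_sub_le _ _).trans ?_
    linarith

theorem cov_g {a b : ℕ} (ha : 0 < a) (hb : 0 < b) (hab : ¬ IsSquare (a * b)) :
    ∃ C0 : ℝ, 0 < C0 ∧ ∀ R r : ℝ, 0 < R → 0 < r → C0 ≤ R * r → ∀ x y : ℂ,
    ∃ n1 n2 n3 n4 : ℤ, ‖x - (uv a b n1 n2 n3 n4).1‖ ≤ R ∧ ‖y - (uv a b n1 n2 n3 n4).2‖ ≤ r := by
  have hm : (0 : ℤ) < ((a * b : ℕ) : ℤ) := by exact_mod_cast Nat.mul_pos ha hb
  have hsq : ¬ IsSquare ((a * b : ℕ) : ℤ) := by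
    rintro ⟨c, hc⟩
    refine hab ⟨c.natAbs, ?_⟩
    have h1 : ((c.natAbs * c.natAbs : ℕ) : ℤ) = c * c := by rw [Int.natAbs_mul_self]
    exact_mod_cast (hc.trans h1.symm)
  obtain ⟨p0, q0, hpq0, hq0⟩ := Pell.exists_of_not_isSquare hm hsq
  obtain ⟨p, hp⟩ : ∃ p : ℤ, p = |p0| := ⟨_, rfl⟩
  obtain ⟨q, hq⟩ : ∃ q : ℤ, q = |q0| := ⟨_, rfl⟩
  have hpq : p ^ 2 - (a * b : ℕ) * q ^ 2 = 1 := by rw [hp, hq, sq_abs, sq_abs]; exact hpq0
  have hq1 : 1 ≤ q := by rw [hq]; exact Int.one_le_abs hq0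
  have hp1 : 1 ≤ p := by
    rw [hp]
    refine Int.one_le_abs ?_
    rintro rfl
    have h1 : ((a * b : ℕ) : ℤ) * q0 ^ 2 = -1 := by linarith
    nlinarith [sq_nonneg q0]
  obtain ⟨ε, hε⟩ : ∃ ε : ℝ, ε = p + q * Real.sqrt (a * b : ℕ) := ⟨_, rfl⟩
  have hs1 : 1 ≤ Real.sqrt (a * b : ℕ) := by
    rw [Real.one_le_sqrt]
    exact_mod_cast Nat.mul_pos ha hb
  have hε1 : 1 < ε := by
    rw [hε]
    have h1 : (1 : ℝ) ≤ p := by exact_mod_cast hp1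
    have h2 : (1 : ℝ) ≤ q := by exact_mod_cast hq1
    nlinarith
  have hε0 : 0 < ε := by linarith
  obtain ⟨D, hD, hnear⟩ := cv_near ha hb
  refine ⟨D * D * ε, by positivity, ?_⟩
  intro R r hR hr hRr x y
  obtain ⟨k, hk1, hk2⟩ := exists_mem_Ico_zpow (show (0 : ℝ) < R / D from div_pos hR hD) hε1
  obtain ⟨n1, n2, n3, n4, h1, h2⟩ := hnear (((ε ^ (-k) : ℝ) : ℂ) * x) (((ε ^ k : ℝ) : ℂ) * y)
  obtain ⟨m1, m2, m3, m4, h3, h4⟩ := cv_z a b p q hpq k n1 n2 n3 n4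
  rw [← hε] at h3 h4
  have hp : 0 < ε ^ k := zpow_pos hε0 k
  have hq : 0 < ε ^ (-k) := zpow_pos hε0 (-k)
  have hpq : ε ^ k * ε ^ (-k) = 1 := by
    rw [← zpow_add₀ hε0.ne', add_neg_cancel, zpow_zero]
  have hpqc : ((ε ^ k : ℝ) : ℂ) * ((ε ^ (-k) : ℝ) : ℂ) = 1 := by
    rw [← ofReal_mul, hpq, ofReal_one]
  refine ⟨m1, m2, m3, m4, ?_, ?_⟩
  · have e : x - (uv a b m1 m2 m3 m4).1 = ((ε ^ k : ℝ) : ℂ) * (((ε ^ (-k) : ℝ) : ℂ) * x - (uv a b n1 n2 n3 n4).1) := by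
      rw [h3]
      linear_combination (-x) * hpqc
    rw [e, norm_mul, Complex.norm_real, Real.norm_of_nonneg hp.le]
    calc ε ^ k * ‖((ε ^ (-k) : ℝ) : ℂ) * x - (uv a b n1 n2 n3 n4).1‖ ≤ R / D * D :=
          mul_le_mul hk1 h1 (norm_nonneg _) (div_pos hR hD).le
      _ = R := div_mul_cancel₀ _ hD.ne'
  · have e : y - (uv a b m1 m2 m3 m4).2 = ((ε ^ (-k) : ℝ) : ℂ) * (((ε ^ k : ℝ) : ℂ) * y - (uv a b n1 n2 n3 n4).2) := by
      rw [h4]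
      linear_combination (-y) * hpqc
    rw [e, norm_mul, Complex.norm_real, Real.norm_of_nonneg hq.le]
    have h5 : ε ^ (-k) * D ≤ r := by
      rw [zpow_add_one₀ hε0.ne'] at hk2
      have h6 : ε ^ (-k) * (R / D) < ε := by
        calc ε ^ (-k) * (R / D) < ε ^ (-k) * (ε ^ k * ε) := mul_lt_mul_of_pos_left hk2 hq
          _ = (ε ^ k * ε ^ (-k)) * ε := by ring
          _ = ε := by rw [hpq, one_mul]
      have h7 : ε ^ (-k) * D * R ≤ r * R := by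
        have h8 : ε ^ (-k) * R < ε * D := by
          have h9 : ε ^ (-k) * (R / D) * D < ε * D := mul_lt_mul_of_pos_right h6 hD
          rwa [mul_assoc, div_mul_cancel₀ _ hD.ne'] at h9
        nlinarith
      exact le_of_mul_le_mul_right h7 hR
    calc ε ^ (-k) * ‖((ε ^ k : ℝ) : ℂ) * y - (uv a b n1 n2 n3 n4).2‖ ≤ ε ^ (-k) * D :=
          mul_le_mul_of_nonneg_left h2 hq.le
      _ ≤ r := h5

end Pool.Agent.ROH8
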