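import Pool.Agent.ROH.Defs
import Pool.Agent.ROH.Ifc

/-!
Project ROH8, general pair of imaginary quadratic fields `ℚ(√-a)`, `ℚ(√-b)`, `r = √(ab)`: theta functions and lattice
(general form of ROH/TDefs).
-/

set_option autoImplicit false

namespace Pool.Agent.ROH8

open Complex ComplexConjugate Finset

noncomputable section

/-- `√m` -/
def rt (m : ℕ) : ℂ := ((Real.sqrt m : ℝ) : ℂ)

/-- `S((x+y)/2) S((x-y)/(2√m))^m` -/
def TT (m : ℕ) (S : ℂ → ℂ) (z : ℂ × ℂ) : ℂ :=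
  S ((z.1 + z.2) / 2) * S ((z.1 - z.2) / (2 * rt m)) ^ m

/-- the lattice vector with coordinates `n1, n2, n3, n4`: `(A + r B, A - r B)`, `A = n1 + b n4 √-a`,
`B = n2 + n3 √-a`, `r = √(ab)` -/
def uv (a b : ℕ) (n1 n2 n3 n4 : ℤ) : ℂ × ℂ :=
  ((n1 + b * n4 * (rt a * I)) + rt (a * b) * (n2 + n3 * (rt a * I)),
    (n1 + b * n4 * (rt a * I)) - rt (a * b) * (n2 + n3 * (rt a * I)))

end

theorem rt_sq (m : ℕ) : rt m ^ 2 = m := by
  rw [rt, ← ofReal_pow, Real.sq_sqrt (Nat.cast_nonneg m)]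
  norm_num

theorem rt_ne {m : ℕ} (hm : 0 < m) : rt m ≠ 0 := by
  intro h
  have h1 := rt_sq m
  rw [h, zero_pow two_ne_zero] at h1
  exact hm.ne' (by exact_mod_cast h1.symm)

theorem conj_rt (m : ℕ) : conj (rt m) = rt m := by rw [rt, conj_ofReal]

theorem rt_mul (a b : ℕ) : rt (a * b) = rt a * rt b := by
  rw [rt, rt, rt, ← ofReal_mul, ← Real.sqrt_mul (Nat.cast_nonneg a)]
  push_cast
  rfl

theorem rt_one : rt 1 = 1 := by
  rw [rt]
  norm_num

/-- `conj u_y = A' - r B'` with `A' = n1 + a n3 √-b`, `B' = n2 + n4 √-b` -/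
theorem conj_uv (a b : ℕ) (n1 n2 n3 n4 : ℤ) : conj (uv a b n1 n2 n3 n4).2 =
    (n1 + a * n3 * (rt b * I)) - rt (a * b) * (n2 + n4 * (rt b * I)) := by
  have h1 := rt_sq a
  have h2 := rt_sq b
  simp only [uv, map_sub, map_add, map_mul, conj_I, conj_rt, map_intCast, map_natCast, rt_mul]
  linear_combination (n3 : ℂ) * rt b * I * h1 + (n4 : ℂ) * rt a * I * h2

/-- `u_x = A' + r B'` -/
theorem uv_fst (a b : ℕ) (n1 n2 n3 n4 : ℤ) : (uv a b n1 n2 n3 n4).1 =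
    (n1 + a * n3 * (rt b * I)) + rt (a * b) * (n2 + n4 * (rt b * I)) := by
  have h1 := rt_sq a
  have h2 := rt_sq b
  simp only [uv, rt_mul]
  linear_combination (n3 : ℂ) * rt b * I * h1 - (n4 : ℂ) * rt a * I * h2

end Pool.Agent.ROH8
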