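import Pool.Agent.ROH8.GB

/-!
ROH8-GFL. `F_k` and `H_j` on a line (general form of ROH/FLine).
-/

set_option autoImplicit false

namespace Pool.Agent.ROH8

open Complex ComplexConjugate Finset Pool.Agent.ROH

private theorem G_cd {m : ℕ} {s : ℂ → ℂ} (hs : Differentiable ℂ s) (c κ P Q l : ℂ) (k : ℕ) :
    ContDiff ℂ k (GG m s c κ P Q l) := by
  have h : Differentiable ℂ (GG m s c κ P Q l) := by
    unfold GG Ga Gbm Gc
    have h1 : Differentiable ℂ fun t : ℂ => s (c * P / 2 * l + 1 / 2 * t) :=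
      hs.comp ((differentiable_id.const_mul _).const_add _)
    have h2 : Differentiable ℂ fun t : ℂ => s (c * Q / (2 * rt m) * l + -(1 / (2 * rt m)) * t) :=
      hs.comp ((differentiable_id.const_mul _).const_add _)
    have h3 : Differentiable ℂ fun t : ℂ => cexp (-(κ * l * t)) :=
      ((differentiable_id.const_mul _).neg).cexp
    exact (h1.mul (h2.pow m)).mul h3
  exact h.contDiff

theorem F_line {m : ℕ} (hm : 0 < m) (c : Core) {s : ℂ → ℂ} (hs : Differentiable ℂ s) (v : ℝ) (hv : 0 < v)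
    (hT : c.T1 = TT m (fun z => s (v * z))) (a b e l : ℂ) (k : ℕ) :
    c.F k (l * (a / v)) (l * (b / v)) (l * (e / v)) =
      (v : ℂ) ^ k * iteratedDeriv k (GG m s 1 (2 * c.al * e / v ^ 2) (a + b) (a - b) l) 0 := by
  have hv0 : (v : ℂ) ≠ 0 := by exact_mod_cast hv.ne'
  have hr := rt_ne hm
  have h1 : (fun t : ℂ => c.T1 (l * (a / v), l * (b / v) + t) * cexp (-(2 * c.al * (l * (e / v)) * t))) =
      fun t : ℂ => GG m s 1 (2 * c.al * e / v ^ 2) (a + b) (a - b) l (v * t) := by
    funext t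
    rw [hT]
    unfold TT GG Ga Gbm Gc
    have e1 : (v : ℂ) * ((l * (a / v) + (l * (b / v) + t)) / 2) = 1 * (a + b) / 2 * l + 1 / 2 * (v * t) := by
      field_simp
      try ring
    have e2 : (v : ℂ) * ((l * (a / v) - (l * (b / v) + t)) / (2 * rt m)) =
        1 * (a - b) / (2 * rt m) * l + -(1 / (2 * rt m)) * (v * t) := by
      field_simp
      try ring
    have e3 : 2 * (c.al : ℂ) * (l * (e / v)) * t = 2 * c.al * e / v ^ 2 * l * (v * t) := by
      field_simp
      try ring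
    simp only
    rw [e1, e2, e3]
  unfold Core.F
  rw [h1, iteratedDeriv_comp_const_mul (G_cd hs _ _ _ _ _ k) (v : ℂ)]
  simp only [mul_zero]

theorem H_line {m : ℕ} (hm : 0 < m) (c : Core) {s : ℂ → ℂ} (hs : Differentiable ℂ s) (v w : ℝ) (hv : 0 < v) (hw : 0 < w)
    (hT : c.T2 = TT m (fun z => s (w * z))) (a b e l : ℂ) (j : ℕ) :
    c.H j (l * (a / v)) (l * (b / v)) (l * (e / v)) =
      (w : ℂ) ^ j * iteratedDeriv j (GG m s (w / v) (2 * c.be * b / (v * w)) (a + e) (a - e) l) 0 := by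
  have hv0 : (v : ℂ) ≠ 0 := by exact_mod_cast hv.ne'
  have hw0 : (w : ℂ) ≠ 0 := by exact_mod_cast hw.ne'
  have hr := rt_ne hm
  have h1 : (fun t : ℂ => c.T2 (l * (a / v), l * (e / v) + t) * cexp (-(2 * c.be * (l * (b / v)) * t))) =
      fun t : ℂ => GG m s (w / v) (2 * c.be * b / (v * w)) (a + e) (a - e) l (w * t) := by
    funext t
    rw [hT]
    unfold TT GG Ga Gbm Gc
    have e1 : (w : ℂ) * ((l * (a / v) + (l * (e / v) + t)) / 2) = w / v * (a + e) / 2 * l + 1 / 2 * (w * t) := by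
      field_simp
      try ring
    have e2 : (w : ℂ) * ((l * (a / v) - (l * (e / v) + t)) / (2 * rt m)) =
        w / v * (a - e) / (2 * rt m) * l + -(1 / (2 * rt m)) * (w * t) := by
      field_simp
      try ring
    have e3 : 2 * (c.be : ℂ) * (l * (b / v)) * t = 2 * c.be * b / (v * w) * l * (w * t) := by
      field_simp
      try ring
    simp only
    rw [e1, e2, e3]
  unfold Core.H
  rw [h1, iteratedDeriv_comp_const_mul (G_cd hs _ _ _ _ _ j) (w : ℂ)]
  simp only [mul_zero]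

end Pool.Agent.ROH8
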