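import Pool.Agent.ROH8.GDefs

/-!
ROH8-GLow. A point where both theta functions are not small, uniformly in `d` (general form of ROH/Low3).
-/

set_option autoImplicit false

namespace Pool.Agent.ROH8

open Complex ComplexConjugate Finset Pool.Agent.ROH

private noncomputable def nu (S : ℂ → ℂ) (κ : ℝ) (z : ℂ) : ℝ := ‖S z‖ * Real.exp (-(κ / 2 * ‖z‖ ^ 2))

private theorem nu_per {S : ℂ → ℂ} {κ : ℝ} {τ : ℂ} (h : QP S κ τ) (a b : ℤ) (z : ℂ) :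
    nu S κ (z + (a + b * τ)) = nu S κ z := by
  obtain ⟨e, he, hz⟩ := h.per a b
  have h1 : ‖z + (a + b * τ)‖ ^ 2 = ‖z‖ ^ 2 + ‖(a + b * τ : ℂ)‖ ^ 2 + 2 * (conj (a + b * τ : ℂ) * z).re := by
    rw [Complex.sq_norm, Complex.sq_norm, Complex.sq_norm, Complex.normSq_add, mul_comm z]
  unfold nu
  rw [hz z, norm_mul, norm_mul, he, one_mul, Complex.norm_exp, h1]
  have h2 : ((κ : ℂ) * (conj (a + b * τ : ℂ) * z) + κ * (‖(a + b * τ : ℂ)‖ : ℂ) ^ 2 / 2).re =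
      κ * (conj (a + b * τ : ℂ) * z).re + κ * ‖(a + b * τ : ℂ)‖ ^ 2 / 2 := by
    rw [Complex.add_re, Complex.re_ofReal_mul]
    congr 1
    have h3 : ((κ : ℂ) * (‖(a + b * τ : ℂ)‖ : ℂ) ^ 2 / 2) = ((κ * ‖(a + b * τ : ℂ)‖ ^ 2 / 2 : ℝ) : ℂ) := by
      push_cast
      ring
    rw [h3, ofReal_re]
  rw [h2, mul_right_comm, ← Real.exp_add, mul_comm]
  congr 2
  ring

private theorem nu_cont {S : ℂ → ℂ} {κ : ℝ} {τ : ℂ} (h : QP S κ τ) : Continuous (nu S κ) := by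
  unfold nu
  have h1 := h.diff.continuous
  fun_prop

private theorem nu_pos {S : ℂ → ℂ} {κ : ℝ} {z : ℂ} (h : S z ≠ 0) : 0 < nu S κ z :=
  mul_pos (norm_pos_iff.2 h) (Real.exp_pos _)

private theorem nu_nonneg {S : ℂ → ℂ} {κ : ℝ} {z : ℂ} : 0 ≤ nu S κ z :=
  mul_nonneg (norm_nonneg _) (Real.exp_pos _).le

private noncomputable def Psi (m : ℕ) (S1 S2 : ℂ → ℂ) (κ1 κ2 : ℝ) (x : ℂ) (b : ℂ × ℂ) : ℝ :=
  nu S1 κ1 (x / 2) * nu S1 κ1 (x / (2 * rt m)) ^ m *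
    (nu S2 κ2 (x / 2 + b.1) * nu S2 κ2 (x / (2 * rt m) + b.2) ^ m)

/-- an entire function which is not identically zero has no zero in a punctured neighbourhood of `0` -/
private theorem ev_ne {f : ℂ → ℂ} (hf : Differentiable ℂ f) {z : ℂ} (hz : f z ≠ 0) :
    ∀ᶠ x in nhdsWithin (0 : ℂ) {0}ᶜ, f x ≠ 0 := by
  have ha : AnalyticOnNhd ℂ f Set.univ := fun z _ => hf.analyticAt z
  rcases (ha 0 trivial).eventually_eq_zero_or_eventually_ne_zero with h | h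
  · exfalso
    have h1 : f = 0 := by
      refine AnalyticOnNhd.eq_of_eventuallyEq (z₀ := 0) ha (fun z _ => analyticAt_const) h
    exact hz (congrFun h1 z)
  · exact h

private theorem psi_pos {m : ℕ} (hm : 0 < m) {S1 S2 : ℂ → ℂ} {κ1 κ2 : ℝ} {τ1 τ2 : ℂ} (h1 : QP S1 κ1 τ1) (h2 : QP S2 κ2 τ2) (b : ℂ × ℂ) :
    ∃ x : ℂ, 0 < Psi m S1 S2 κ1 κ2 x b := by
  obtain ⟨z1, hz1⟩ := h1.ne
  obtain ⟨z2, hz2⟩ := h2.ne
  have h3n := rt_ne hm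
  have d1 := h1.diff
  have d2 := h2.diff
  have e1 : ∀ᶠ x in nhdsWithin (0 : ℂ) {0}ᶜ, S1 (x / 2) ≠ 0 :=
    ev_ne (f := fun x => S1 (x / 2)) (by fun_prop) (z := 2 * z1) (by
      show S1 (2 * z1 / 2) ≠ 0
      rwa [mul_div_cancel_left₀ _ two_ne_zero])
  have e2 : ∀ᶠ x in nhdsWithin (0 : ℂ) {0}ᶜ, S1 (x / (2 * rt m)) ≠ 0 :=
    ev_ne (f := fun x => S1 (x / (2 * rt m))) (by fun_prop) (z := 2 * rt m * z1) (by
      show S1 (2 * rt m * z1 / (2 * rt m)) ≠ 0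
      rwa [mul_div_cancel_left₀ _ (mul_ne_zero two_ne_zero h3n)])
  have e3 : ∀ᶠ x in nhdsWithin (0 : ℂ) {0}ᶜ, S2 (x / 2 + b.1) ≠ 0 :=
    ev_ne (f := fun x => S2 (x / 2 + b.1)) (by fun_prop) (z := 2 * (z2 - b.1)) (by
      show S2 (2 * (z2 - b.1) / 2 + b.1) ≠ 0
      rwa [mul_div_cancel_left₀ _ two_ne_zero, sub_add_cancel])
  have e4 : ∀ᶠ x in nhdsWithin (0 : ℂ) {0}ᶜ, S2 (x / (2 * rt m) + b.2) ≠ 0 :=
    ev_ne (f := fun x => S2 (x / (2 * rt m) + b.2)) (by fun_prop) (z := 2 * rt m * (z2 - b.2)) (by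
      show S2 (2 * rt m * (z2 - b.2) / (2 * rt m) + b.2) ≠ 0
      rwa [mul_div_cancel_left₀ _ (mul_ne_zero two_ne_zero h3n), sub_add_cancel])
  obtain ⟨x, hx1, hx2, hx3, hx4⟩ := (e1.and (e2.and (e3.and e4))).exists
  exact ⟨x, mul_pos (mul_pos (nu_pos hx1) (pow_pos (nu_pos hx2) m)) (mul_pos (nu_pos hx3) (pow_pos (nu_pos hx4) m))⟩

private theorem psi_cpt {m : ℕ} (hm : 0 < m) {S1 S2 : ℂ → ℂ} {κ1 κ2 : ℝ} {τ1 τ2 : ℂ} (h1 : QP S1 κ1 τ1) (h2 : QP S2 κ2 τ2)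
    {s : Set (ℂ × ℂ)} (hs : IsCompact s) : ∃ c : ℝ, 0 < c ∧ ∀ b ∈ s, ∃ x : ℂ, c ≤ Psi m S1 S2 κ1 κ2 x b := by
  refine hs.induction_on (p := fun s => ∃ c : ℝ, 0 < c ∧ ∀ b ∈ s, ∃ x : ℂ, c ≤ Psi m S1 S2 κ1 κ2 x b) ?_ ?_ ?_ ?_
  · exact ⟨1, one_pos, fun b hb => absurd hb (Set.notMem_empty b)⟩
  · rintro s t hst ⟨c, hc, h⟩
    exact ⟨c, hc, fun b hb => h b (hst hb)⟩
  · rintro s t ⟨c, hc, h⟩ ⟨c', hc', h'⟩
    refine ⟨min c c', lt_min hc hc', fun b hb => ?_⟩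
    rcases hb with hb | hb
    · obtain ⟨x, hx⟩ := h b hb
      exact ⟨x, (min_le_left _ _).trans hx⟩
    · obtain ⟨x, hx⟩ := h' b hb
      exact ⟨x, (min_le_right _ _).trans hx⟩
  · intro b _
    obtain ⟨x, hx⟩ := psi_pos hm (κ1 := κ1) (κ2 := κ2) h1 h2 b
    have hc : Continuous (Psi m S1 S2 κ1 κ2 x) := by
      have c1 := nu_cont h2
      unfold Psi
      fun_prop
    have h3 : {b' | Psi m S1 S2 κ1 κ2 x b / 2 < Psi m S1 S2 κ1 κ2 x b'} ∈ nhds b :=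
      (isOpen_lt continuous_const hc).mem_nhds (half_lt_self hx)
    exact ⟨_, mem_nhdsWithin_of_mem_nhds h3, Psi m S1 S2 κ1 κ2 x b / 2, half_pos hx, fun b' hb' => ⟨x, le_of_lt hb'⟩⟩

private theorem reduce {b : ℕ} (hb : 0 < b) (z : ℂ) : ∃ (k n : ℤ) (z' : ℂ),
    z' ∈ Set.Icc (0 : ℝ) 1 ×ℂ Set.Icc 0 (Real.sqrt b) ∧ z = z' + (k + n * (rt b * I)) := by
  have h3 : 0 < Real.sqrt b := Real.sqrt_pos.2 (by exact_mod_cast hb)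
  refine ⟨⌊z.re⌋, ⌊z.im / Real.sqrt b⌋, z - (⌊z.re⌋ + ⌊z.im / Real.sqrt b⌋ * (rt b * I)), ?_, by ring⟩
  have hre : (z - (⌊z.re⌋ + ⌊z.im / Real.sqrt b⌋ * (rt b * I))).re = z.re - ⌊z.re⌋ := by
    simp [rt]
  have him : (z - (⌊z.re⌋ + ⌊z.im / Real.sqrt b⌋ * (rt b * I))).im =
      (z.im / Real.sqrt b - ⌊z.im / Real.sqrt b⌋) * Real.sqrt b := by
    have h5 : (z - (⌊z.re⌋ + ⌊z.im / Real.sqrt b⌋ * (rt b * I))).im =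
        z.im - ⌊z.im / Real.sqrt b⌋ * Real.sqrt b := by
      simp [rt]
    rw [h5, sub_mul, div_mul_cancel₀ _ h3.ne']
  rw [Complex.mem_reProdIm, hre, him]
  have f1 := Int.fract_nonneg z.re
  have f2 := (Int.fract_lt_one z.re).le
  have f3 := Int.fract_nonneg (z.im / Real.sqrt b)
  have f4 := (Int.fract_lt_one (z.im / Real.sqrt b)).le
  unfold Int.fract at f1 f2 f3 f4
  refine ⟨⟨f1, f2⟩, mul_nonneg f3 h3.le, ?_⟩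
  calc _ ≤ 1 * Real.sqrt b := mul_le_mul_of_nonneg_right f4 h3.le
    _ = _ := one_mul _

private theorem nu_prod {m : ℕ} (hm : 0 < m) {S1 S2 : ℂ → ℂ} {κ1 κ2 : ℝ} (x d : ℂ) :
    Psi m S1 S2 κ1 κ2 x (d / 2, -(d / (2 * rt m))) = ‖TT m S1 (x, 0)‖ * ‖TT m S2 (x, conj 0 + d)‖ *
      Real.exp (-(κ1 / 4 * (‖x‖ ^ 2 + ‖(0 : ℂ)‖ ^ 2) + κ2 / 4 * (‖x‖ ^ 2 + ‖conj 0 + d‖ ^ 2))) := by
  have h3n := rt_ne hm
  have hmr : (0 : ℝ) < m := by exact_mod_cast hm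
  have hr : ‖rt m‖ ^ 2 = m := by
    rw [← norm_pow, rt_sq]
    simp
  have hp : ‖x + d‖ ^ 2 + ‖x - d‖ ^ 2 = 2 * (‖x‖ ^ 2 + ‖d‖ ^ 2) := by
    have := parallelogram_law_with_norm ℝ x d
    nlinarith [this]
  have e1 : x / 2 + d / 2 = (x + d) / 2 := by ring
  have e2 : x / (2 * rt m) + -(d / (2 * rt m)) = (x - d) / (2 * rt m) := by ring
  simp only [Psi, nu, TT, e1, e2, map_zero, zero_add, add_zero, sub_zero, norm_zero]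
  have n1 : ‖x / 2‖ ^ 2 = ‖x‖ ^ 2 / 4 := by
    rw [norm_div, div_pow]
    norm_num
  have n2 : ‖x / (2 * rt m)‖ ^ 2 = ‖x‖ ^ 2 / (4 * m) := by
    rw [norm_div, norm_mul, div_pow, mul_pow, hr]
    norm_num
  have n3 : ‖(x + d) / 2‖ ^ 2 = ‖x + d‖ ^ 2 / 4 := by
    rw [norm_div, div_pow]
    norm_num
  have n4 : ‖(x - d) / (2 * rt m)‖ ^ 2 = ‖x - d‖ ^ 2 / (4 * m) := by
    rw [norm_div, norm_mul, div_pow, mul_pow, hr]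
    norm_num
  rw [n1, n2, n3, n4]
  have hexp : Real.exp (-(κ1 / 4 * (‖x‖ ^ 2 + 0 ^ 2) + κ2 / 4 * (‖x‖ ^ 2 + ‖d‖ ^ 2))) =
      Real.exp (-(κ1 / 2 * (‖x‖ ^ 2 / 4))) * Real.exp (-(κ1 / 2 * (‖x‖ ^ 2 / (4 * m)))) ^ m *
        (Real.exp (-(κ2 / 2 * (‖x + d‖ ^ 2 / 4))) * Real.exp (-(κ2 / 2 * (‖x - d‖ ^ 2 / (4 * m)))) ^ m) := by
    rw [← Real.exp_nat_mul, ← Real.exp_nat_mul, ← Real.exp_add, ← Real.exp_add, ← Real.exp_add]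
    congr 1
    have c1 : ∀ t : ℝ, (m : ℝ) * (t / (4 * m)) = t / 4 := by
      intro t
      field_simp
    have c2 := c1 (‖x‖ ^ 2)
    have c3 := c1 (‖x - d‖ ^ 2)
    linear_combination (κ2 / 8) * hp + (κ1 / 2) * c2 + (κ2 / 2) * c3
  rw [hexp, norm_mul, norm_mul, norm_pow, norm_pow, mul_pow, mul_pow]
  ring

theorem low_g {a b : ℕ} (hb : 0 < b) (hab : 0 < a * b) {S1 S2 : ℂ → ℂ} {κ1 κ2 : ℝ} (h1 : QP S1 κ1 (rt a * I))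
    (h2 : QP S2 κ2 (rt b * I)) :
    ∃ c0 : ℝ, 0 < c0 ∧ ∀ d : ℂ, ∃ x y : ℂ, c0 ≤ ‖TT (a * b) S1 (x, y)‖ * ‖TT (a * b) S2 (x, conj y + d)‖ *
      Real.exp (-(κ1 / 4 * (‖x‖ ^ 2 + ‖y‖ ^ 2) + κ2 / 4 * (‖x‖ ^ 2 + ‖conj y + d‖ ^ 2))) := by
  have hK : IsCompact (Set.Icc (0 : ℝ) 1 ×ℂ Set.Icc 0 (Real.sqrt b)) := isCompact_Icc.reProdIm isCompact_Icc
  obtain ⟨c0, hc0, hc⟩ := psi_cpt hab (κ1 := κ1) (κ2 := κ2) h1 h2 (hK.prod hK)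
  refine ⟨c0, hc0, fun d => ?_⟩
  obtain ⟨k, n, b1, hb1, e1⟩ := reduce hb (d / 2)
  obtain ⟨k', n', b2, hb2, e2⟩ := reduce hb (-(d / (2 * rt (a * b))))
  obtain ⟨x, hx⟩ := hc (b1, b2) ⟨hb1, hb2⟩
  refine ⟨x, 0, ?_⟩
  rw [← nu_prod hab]
  refine hx.trans_eq ?_
  simp only [Psi]
  have t1 : x / 2 + (b1 + (k + n * (rt b * I))) = x / 2 + b1 + (k + n * (rt b * I)) := by ring
  have t2 : x / (2 * rt (a * b)) + (b2 + (k' + n' * (rt b * I))) =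
      x / (2 * rt (a * b)) + b2 + (k' + n' * (rt b * I)) := by ring
  rw [e1, e2, t1, t2, nu_per h2, nu_per h2]

end Pool.Agent.ROH8
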