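import Pool.Agent.ROH8.GMk
import Pool.Agent.ROH8.GPX
import Pool.Agent.ROH.Main

/-!
Project ROH8: main assembly (general form of ROH/Main): for two different imaginary quadratic fields `ℚ(√-a)`, `ℚ(√-b)`.
-/

set_option autoImplicit false

namespace Pool.Agent.ROH8

open Complex ComplexConjugate Finset Polynomial IntermediateField Pool.Agent.ROH

theorem mainG (hG : GelfondForm) {a b : ℕ} (ha : 0 < a) (hb : 0 < b) (hab : ¬ IsSquare (a * b))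
    (v1 v2 : ℝ) (s1 s2 : ℂ → ℂ) (κ1 κ2 : ℝ) (hv1 : 0 < v1) (hv2 : 0 < v2)
    (hκ1 : IsAlgebraic ℚ ((κ1 / Real.pi : ℝ) : ℂ)) (hκ2 : IsAlgebraic ℚ ((κ2 / Real.pi : ℝ) : ℂ))
    (hs1 : Differentiable ℂ s1) (hs2 : Differentiable ℂ s2) (ht1 : RatTay s1) (ht2 : RatTay s2)
    (q1 : QP (fun z => s1 (v1 * z)) κ1 (rt a * I)) (q2 : QP (fun z => s2 (v2 * z)) κ2 (rt b * I))
    (hθ : Transcendental ℚ ((Real.pi / v1 ^ 2 : ℝ) : ℂ)) :
    ¬ IsAlgebraic (IntermediateField.adjoin ℚ {((Real.pi / v1 ^ 2 : ℝ) : ℂ)}) ((v2 / v1 : ℝ) : ℂ) := by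
  intro halg
  have hmm : 0 < a * b := Nat.mul_pos ha hb
  set θ : ℂ := ((Real.pi / v1 ^ 2 : ℝ) : ℂ) with hθdef
  have hv1' : (v1 : ℂ) ≠ 0 := by exact_mod_cast hv1.ne'
  have hv2' : (v2 : ℂ) ≠ 0 := by exact_mod_cast hv2.ne'
  have hpi : ((Real.pi : ℝ) : ℂ) ≠ 0 := by exact_mod_cast Real.pi_ne_zero
  let c : Core := mkCore ha hb hab q1 q2
  have hT1 : c.T1 = TT (a * b) (fun z => s1 (v1 * z)) := rfl
  have hT2 : c.T2 = TT (a * b) (fun z => s2 (v2 * z)) := rfl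
  have hal : c.al = κ1 / 4 := rfl
  have hbe : c.be = κ2 / 4 := rfl
  have hθF : IsAlgebraic ℚ⟮θ⟯ θ :=
    isAlgebraic_algebraMap (⟨θ, mem_adjoin_simple_self ℚ θ⟩ : ℚ⟮θ⟯)
  have hnat : ∀ m : ℕ, IsAlgebraic ℚ⟮θ⟯ (m : ℂ) := fun m => isAlgebraic_natCast m
  have hk1 : IsAlgebraic ℚ⟮θ⟯ ((κ1 / Real.pi : ℝ) : ℂ) := hκ1.tower_top _
  have hk2 : IsAlgebraic ℚ⟮θ⟯ ((κ2 / Real.pi : ℝ) : ℂ) := hκ2.tower_top _
  have ha2 : IsAlgebraic ℚ⟮θ⟯ ((2 * c.al / v1 ^ 2 : ℝ) : ℂ) := by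
    have e : ((2 * c.al / v1 ^ 2 : ℝ) : ℂ) = ((κ1 / Real.pi : ℝ) : ℂ) * θ * ((2 : ℕ) : ℂ)⁻¹ := by
      rw [hal, hθdef]
      push_cast
      field_simp
      ring
    rw [e]
    exact (hk1.mul hθF).mul (hnat 2).inv
  have ha3 : IsAlgebraic ℚ⟮θ⟯ ((2 * c.be / (v1 * v2) : ℝ) : ℂ) := by
    have e : ((2 * c.be / (v1 * v2) : ℝ) : ℂ) =
        ((κ2 / Real.pi : ℝ) : ℂ) * θ * (((2 : ℕ) : ℂ)⁻¹ * ((v2 / v1 : ℝ) : ℂ)⁻¹) := by
      rw [hbe, hθdef]
      push_cast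
      field_simp
      ring
    rw [e]
    exact (hk2.mul hθF).mul ((hnat 2).inv.mul halg.inv)
  -- constants
  obtain ⟨CL, hCL1, hlow⟩ := c.exists_lower
  obtain ⟨CZ, hCZ1, K0, hzero⟩ := c.exists_zero_estimate (CL + 1)
  obtain ⟨C0, hC0⟩ := exists_nat_ge CZ
  have hC01 : (1 : ℝ) ≤ C0 := hCZ1.trans hC0
  obtain ⟨CP, nP0, hpoly⟩ := poly_of_xi hmm hθ c hs1 hs2 ht1 ht2 v1 v2 hv1 hv2 hT1 hT2 halg ha2 ha3 C0
  obtain ⟨na, haux⟩ := c.exists_aux (1 / v1) (1 / v2) θ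
  obtain ⟨nb, hpc⟩ := norm_pc_le (1 / v1) (1 / v2) θ
  obtain ⟨nc, hcA⟩ := caseA v1 v2 hv1 hv2 θ
  obtain ⟨g0, htay⟩ := c.exists_taylor_small
  obtain ⟨nd, hnum⟩ := caseB_num C0 v1 hv1
  obtain ⟨ne, hlg⟩ : ∃ ne : ℕ, ∀ n : ℕ, ne ≤ n →
      (((n ^ 12 : ℕ) : ℝ)) * Real.log (((n ^ 12 : ℕ) : ℝ) + 1) ≤ (((n ^ 11 : ℕ) : ℝ)) ^ 2 := by
    obtain ⟨m, hm⟩ := pow_le_of_ev 16 13 22 (by norm_num)
    refine ⟨max m 1, fun n hn => ?_⟩
    have hn1 : (1 : ℝ) ≤ n := by exact_mod_cast (le_max_right _ _).trans hn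
    have h1 := hm n ((le_max_left _ _).trans hn)
    have h2 : Real.log (((n ^ 12 : ℕ) : ℝ) + 1) ≤ 13 * n := by
      have h3 : (((n ^ 12 : ℕ) : ℝ) + 1) ≤ (2 * (n : ℝ)) ^ 12 := by
        push_cast
        have : (1 : ℝ) ≤ (n : ℝ) ^ 12 := one_le_pow₀ hn1
        nlinarith [mul_pow (2 : ℝ) (n : ℝ) 12]
      calc Real.log (((n ^ 12 : ℕ) : ℝ) + 1) ≤ Real.log ((2 * (n : ℝ)) ^ 12) :=
            Real.log_le_log (by positivity) h3
        _ = 12 * Real.log (2 * n) := by rw [Real.log_pow]; norm_num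
        _ ≤ 13 * n := by
            have h4 : Real.log (2 * (n : ℝ)) = Real.log 2 + Real.log n :=
              Real.log_mul (by norm_num) (by positivity)
            have h5 : Real.log (n : ℝ) ≤ n - 1 := Real.log_le_sub_one_of_pos (by positivity)
            have h6 : Real.log 2 ≤ 1 := by
              have := Real.log_two_lt_d9
              linarith
            rw [h4]
            nlinarith
    calc (((n ^ 12 : ℕ) : ℝ)) * Real.log (((n ^ 12 : ℕ) : ℝ) + 1) ≤ ((n ^ 12 : ℕ) : ℝ) * (13 * n) := by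
          gcongr
      _ ≤ (((n ^ 11 : ℕ) : ℝ)) ^ 2 := by
          push_cast
          have : (n : ℝ) ^ 12 * (13 * n) = 13 * (n : ℝ) ^ 13 := by ring
          have h7 : (0 : ℝ) ≤ (n : ℝ) ^ 13 := by positivity
          nlinarith [show ((n : ℝ) ^ 11) ^ 2 = (n : ℝ) ^ 22 by ring]
  -- Gelfond
  refine hG θ hθ (max 1 CP) (max nP0 (max na (max nb (max nc (max g0 (max nd (max ne
    (max K0 1)))))))) fun n hn => ?_
  have hnP0 : nP0 ≤ n := (le_max_left _ _).trans hn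
  have hn1' := (le_max_right _ _).trans hn
  have hna : na ≤ n := (le_max_left _ _).trans hn1'
  have hn2' := (le_max_right _ _).trans hn1'
  have hnb : nb ≤ n := (le_max_left _ _).trans hn2'
  have hn3' := (le_max_right _ _).trans hn2'
  have hnc : nc ≤ n := (le_max_left _ _).trans hn3'
  have hn4' := (le_max_right _ _).trans hn3'
  have hg0 : g0 ≤ n := (le_max_left _ _).trans hn4'
  have hn5' := (le_max_right _ _).trans hn4'
  have hnd : nd ≤ n := (le_max_left _ _).trans hn5'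
  have hn6' := (le_max_right _ _).trans hn5'
  have hne : ne ≤ n := (le_max_left _ _).trans hn6'
  have hn7' := (le_max_right _ _).trans hn6'
  have hK0 : K0 ≤ n := (le_max_left _ _).trans hn7'
  have hn1 : 1 ≤ n := (le_max_right _ _).trans hn7'
  have hn1R : (1 : ℝ) ≤ n := by exact_mod_cast hn1
  have hpow : ∀ a : ℕ, 0 < a → n ≤ n ^ a := fun a ha => Nat.le_self_pow ha.ne' n
  obtain ⟨N, hNne, hN, hS⟩ := haux n hna
  set p := pc (1 / v1) (1 / v2) θ (n ^ 8) N with hp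
  by_cases hcase : ∀ k < n ^ 12, ∀ j < n ^ 12, ‖p k j‖ ≤ Real.exp (-((n : ℝ) ^ 22 / 2))
  · obtain ⟨P, hP0, hPd, hPc, hPθ⟩ := hcA n hnc N hN hNne hcase
    refine ⟨P, hP0, hPd.trans ?_, fun i => (hPc i).trans ?_, hPθ⟩
    · exact le_mul_of_one_le_left (by positivity) (le_max_left _ _)
    · exact Real.exp_le_exp.2 (le_mul_of_one_le_left (by positivity) (le_max_left _ _))
  · push Not at hcase
    obtain ⟨k, hk, j, hj, hkj⟩ := hcase
    have hK1 : 1 ≤ n ^ 12 := Nat.one_le_pow _ _ hn1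
    have h22 : (n : ℝ) ^ 22 ≤ (n : ℝ) ^ 24 := pow_le_pow_right₀ hn1R (by norm_num)
    have hKK : (((n ^ 12 : ℕ) : ℝ)) ^ 2 = (n : ℝ) ^ 24 := by push_cast; ring
    have hCL0 : 0 < CL := by linarith
    -- the lower bound of S
    have hSlow : Real.exp (-((CL + 1) * (((n ^ 12 : ℕ) : ℝ)) ^ 2)) ≤ c.S (n ^ 12) p 0 := by
      have h1 := hlow (n ^ 12) p hK1
      have h2 := (hkj.le.trans (nP_ge p hk hj)).trans h1
      have h4 : Real.exp (-((n : ℝ) ^ 22 / 2)) * Real.exp (-(CL * (((n ^ 12 : ℕ) : ℝ)) ^ 2)) ≤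
          c.S (n ^ 12) p 0 := by
        calc _ ≤ c.S (n ^ 12) p 0 * Real.exp (CL * (((n ^ 12 : ℕ) : ℝ)) ^ 2) *
              Real.exp (-(CL * (((n ^ 12 : ℕ) : ℝ)) ^ 2)) := by gcongr
          _ = _ := by rw [mul_assoc, ← Real.exp_add, add_neg_cancel, Real.exp_zero, mul_one]
      refine le_trans ?_ h4
      rw [← Real.exp_add]
      apply Real.exp_le_exp.2
      rw [hKK]
      have : (0 : ℝ) ≤ (n : ℝ) ^ 22 := by positivity
      nlinarith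
    have hpn : ∀ k < n ^ 12, ∀ j < n ^ 12, ‖p k j‖ ≤ Real.exp ((n : ℝ) ^ 22) :=
      fun k hk j hj => hpc n hnb N hN k hk j hj
    -- the order of vanishing
    have hVan : ¬ c.Van (n ^ 12) p (C0 * n ^ 8 + 1) := by
      intro hV
      have h1 := hzero (n ^ 12) p (C0 * n ^ 8 + 1) (hK0.trans (hpow 12 (by norm_num)))
        (fun k hk j hj => (hpn k hk j hj).trans (Real.exp_le_exp.2 ?_)) hSlow hV
      · rw [hKK] at h1
        have h2 : ((C0 : ℝ) * (n : ℝ) ^ 8) ^ 3 < (((C0 * n ^ 8 + 1 : ℕ) : ℝ)) ^ 3 := by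
          push_cast
          exact pow_lt_pow_left₀ (by linarith) (by positivity) (by norm_num)
        have h3 : CZ * (n : ℝ) ^ 24 ≤ ((C0 : ℝ) * (n : ℝ) ^ 8) ^ 3 := by
          have e : ((C0 : ℝ) * (n : ℝ) ^ 8) ^ 3 = (C0 : ℝ) ^ 3 * (n : ℝ) ^ 24 := by ring
          rw [e]
          have h4 : CZ ≤ (C0 : ℝ) ^ 3 := hC0.trans (le_self_pow₀ hC01 (by norm_num))
          gcongr
        linarith
      · rw [hKK]
        nlinarith [show (0 : ℝ) ≤ (n : ℝ) ^ 24 by positivity]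
    have hμ : (1 / (v1 : ℂ)) ≠ 0 := one_div_ne_zero hv1'
    obtain ⟨ν, hν, a1, b1, e1, ha1, hb1, he1, hne0⟩ := exists_int_dir c (n ^ 12) p (C0 * n ^ 8 + 1) hVan
      (1 / (v1 : ℂ)) hμ
    have hν' : ν ≤ C0 * n ^ 8 := by omega
    -- smallness
    have hM : Real.log (Real.exp ((n : ℝ) ^ 22)) ≤ (((n ^ 11 : ℕ) : ℝ)) ^ 2 := by
      rw [Real.log_exp]
      push_cast
      exact le_of_eq (by ring)
    have hS' : c.S (n ^ 12) p 0 ≤ Real.exp (-(((n ^ 11 : ℕ) : ℝ)) ^ 2) := by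
      refine hS.trans (le_of_eq ?_)
      congr 2
      push_cast
      ring
    have hT := htay (n ^ 11) (hg0.trans (hpow 11 (by norm_num))) (n ^ 12) p (Real.exp ((n : ℝ) ^ 22)) hK1
      (hlg n hne) (Real.one_le_exp (by positivity)) hM hpn hS'
    have hρ : 0 < ((ν : ℝ) + 1) * (1 + 1 / v1) := by positivity
    have hdir : ∀ m : ℕ, m ≤ ν → ‖(m : ℂ) * (1 / (v1 : ℂ))‖ ≤ ((ν : ℝ) + 1) * (1 + 1 / v1) := by
      intro m hm
      have hm' : (m : ℝ) ≤ ν := by exact_mod_cast hm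
      have h0 : 0 < 1 / v1 := by positivity
      rw [norm_mul, norm_div, norm_one, Complex.norm_real, Real.norm_of_nonneg hv1.le,
        Complex.norm_natCast]
      calc (m : ℝ) * (1 / v1) ≤ ν * (1 / v1) := by gcongr
        _ ≤ ((ν : ℝ) + 1) * (1 + 1 / v1) := by nlinarith
    have hsc := iteratedDeriv_scale (f := c.f (n ^ 12) p) (c.differentiable_f (n ^ 12) p) ν _ _ hρ
      (fun x y w hx hy hw => hT x y w hx hy hw ν) _ _ _ (hdir a1 ha1) (hdir b1 hb1) (hdir e1 he1)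
    have hfin : ‖iteratedDeriv ν (fun t : ℂ => c.f (n ^ 12) p (t * (a1 * (1 / v1)))
        (t * (b1 * (1 / v1))) (t * (e1 * (1 / v1)))) 0‖ ≤ Real.exp (-(9 / 20 * (n : ℝ) ^ 22)) := by
      refine hsc.trans ?_
      have := hnum n hnd ν hν'
      push_cast
      exact this
    obtain ⟨P, hP0, hPd, hPc, hPθ⟩ := hpoly n hnP0 N hN ν hν' a1 b1 e1 ha1 hb1 he1 hne0 hfin
    refine ⟨P, hP0, hPd.trans ?_, fun i => (hPc i).trans ?_, hPθ⟩
    · exact mul_le_mul_of_nonneg_right (le_max_right _ _) (by positivity)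
    · exact Real.exp_le_exp.2 (mul_le_mul_of_nonneg_right (le_max_right _ _) (by positivity))

end Pool.Agent.ROH8
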