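import Pool.Agent.ROH8.GDefs

/-!
ROH8-GQT. Quasi-periodicity of `TT m S` (general form of ROH/QT).
-/

set_option autoImplicit false

namespace Pool.Agent.ROH8

open Complex ComplexConjugate Finset Pool.Agent.ROH

private theorem qt_gen {m : ℕ} (hm : 0 < m) {S : ℂ → ℂ} {κ : ℝ} {A B eA eB : ℂ} (hA1 : ‖eA‖ = 1) (hB1 : ‖eB‖ = 1)
    (hA : ∀ z : ℂ, S (z + A) = eA * cexp (κ * (conj A * z) + κ * (‖A‖ : ℂ) ^ 2 / 2) * S z)
    (hB : ∀ z : ℂ, S (z + B) = eB * cexp (κ * (conj B * z) + κ * (‖B‖ : ℂ) ^ 2 / 2) * S z)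
    {p q : ℂ} (hp : p = A + rt m * B) (hq : q = A - rt m * B) :
    ∃ e : ℂ, ‖e‖ = Real.exp (κ / 4 * (‖p‖ ^ 2 + ‖q‖ ^ 2)) ∧
      ∀ x y : ℂ, TT m S (x + p, y + q) =
        e * cexp (2 * ((κ / 4 : ℝ) : ℂ) * (conj p * x + conj q * y)) * TT m S (x, y) := by
  have h3 := rt_sq m
  have h3n := rt_ne hm
  refine ⟨eA * eB ^ m * cexp (((κ / 4 * (‖p‖ ^ 2 + ‖q‖ ^ 2) : ℝ)) : ℂ), ?_, ?_⟩
  · rw [norm_mul, norm_mul, norm_pow, hA1, hB1, one_pow, one_mul, one_mul, Complex.norm_exp, ofReal_re]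
  · intro x y
    simp only [TT]
    have e1 : (x + p + (y + q)) / 2 = (x + y) / 2 + A := by
      rw [hp, hq]
      ring
    have e2 : (x + p - (y + q)) / (2 * rt m) = (x - y) / (2 * rt m) + B := by
      rw [hp, hq]
      field_simp
      ring
    rw [e1, e2, hA, hB]
    have e3 : cexp (κ * (conj A * ((x + y) / 2)) + κ * (‖A‖ : ℂ) ^ 2 / 2) *
        cexp (κ * (conj B * ((x - y) / (2 * rt m))) + κ * (‖B‖ : ℂ) ^ 2 / 2) ^ m =
        cexp (((κ / 4 * (‖p‖ ^ 2 + ‖q‖ ^ 2) : ℝ)) : ℂ) *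
          cexp (2 * ((κ / 4 : ℝ) : ℂ) * (conj p * x + conj q * y)) := by
      rw [← Complex.exp_nat_mul, ← Complex.exp_add, ← Complex.exp_add]
      congr 1
      have hnA : (‖A‖ : ℂ) ^ 2 = A * conj A := (Complex.mul_conj' A).symm
      have hnB : (‖B‖ : ℂ) ^ 2 = B * conj B := (Complex.mul_conj' B).symm
      have hnp : (‖p‖ : ℂ) ^ 2 = p * conj p := (Complex.mul_conj' p).symm
      have hnq : (‖q‖ : ℂ) ^ 2 = q * conj q := (Complex.mul_conj' q).symm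
      have hcp : conj p = conj A + rt m * conj B := by rw [hp, map_add, map_mul, conj_rt]
      have hcq : conj q = conj A - rt m * conj B := by rw [hq, map_sub, map_mul, conj_rt]
      have h4 : (m : ℂ) * ((x - y) / (2 * rt m)) = rt m * (x - y) / 2 := by
        rw [mul_div_assoc', div_eq_div_iff (mul_ne_zero two_ne_zero h3n) two_ne_zero]
        linear_combination (-2 * (x - y)) * h3
      push_cast
      rw [hnA, hnB, hnp, hnq, hcp, hcq, hp, hq]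
      linear_combination ((κ : ℂ) * conj B) * h4 - ((κ : ℂ) / 2 * B * conj B) * h3
    rw [mul_pow, mul_pow]
    linear_combination (eA * eB ^ m * (S ((x + y) / 2) * S ((x - y) / (2 * rt m)) ^ m)) * e3

theorem TT_qp_1 {a b : ℕ} (hab : 0 < a * b) {S : ℂ → ℂ} {κ : ℝ} (h : QP S κ (rt a * I)) (n1 n2 n3 n4 : ℤ) :
    ∃ e : ℂ, ‖e‖ = Real.exp (κ / 4 * (‖(uv a b n1 n2 n3 n4).1‖ ^ 2 + ‖(uv a b n1 n2 n3 n4).2‖ ^ 2)) ∧
      ∀ x y : ℂ, TT (a * b) S (x + (uv a b n1 n2 n3 n4).1, y + (uv a b n1 n2 n3 n4).2) =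
        e * cexp (2 * ((κ / 4 : ℝ) : ℂ) *
          (conj (uv a b n1 n2 n3 n4).1 * x + conj (uv a b n1 n2 n3 n4).2 * y)) * TT (a * b) S (x, y) := by
  obtain ⟨eA, hA1, hA⟩ := h.per n1 (b * n4)
  obtain ⟨eB, hB1, hB⟩ := h.per n2 n3
  refine qt_gen hab hA1 hB1 hA hB ?_ ?_
  · simp only [uv]
    push_cast
    ring
  · simp only [uv]
    push_cast
    ring

theorem TT_qp_2 {a b : ℕ} (hab : 0 < a * b) {S : ℂ → ℂ} {κ : ℝ} (h : QP S κ (rt b * I)) (n1 n2 n3 n4 : ℤ) :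
    ∃ e : ℂ, ‖e‖ = Real.exp (κ / 4 * (‖(uv a b n1 n2 n3 n4).1‖ ^ 2 + ‖(uv a b n1 n2 n3 n4).2‖ ^ 2)) ∧
      ∀ x w : ℂ, TT (a * b) S (x + (uv a b n1 n2 n3 n4).1, w + conj (uv a b n1 n2 n3 n4).2) =
        e * cexp (2 * ((κ / 4 : ℝ) : ℂ) *
          (conj (uv a b n1 n2 n3 n4).1 * x + (uv a b n1 n2 n3 n4).2 * w)) * TT (a * b) S (x, w) := by
  obtain ⟨eA, hA1, hA⟩ := h.per n1 (a * n3)
  obtain ⟨eB, hB1, hB⟩ := h.per n2 n4
  have h1 := qt_gen hab hA1 hB1 hA hB (p := (uv a b n1 n2 n3 n4).1) (q := conj (uv a b n1 n2 n3 n4).2)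
    (by rw [uv_fst]; push_cast; ring) (by rw [conj_uv]; push_cast; ring)
  rw [Complex.conj_conj, Complex.norm_conj] at h1
  exact h1

end Pool.Agent.ROH8
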