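import Pool.Agent.ROH8.GCov
import Pool.Agent.ROH8.GQT
import Pool.Agent.ROH8.GLow

/-!
The core data for the two theta functions (general form of ROH/CoreMk).
-/

set_option autoImplicit false

namespace Pool.Agent.ROH8

open Complex ComplexConjugate Finset Pool.Agent.ROH

noncomputable section

/-- the lattice -/
def OO (a b : ℕ) : AddSubgroup (ℂ × ℂ) where
  carrier := {u | ∃ n1 n2 n3 n4 : ℤ, u = uv a b n1 n2 n3 n4}
  add_mem' := by
    rintro _ _ ⟨a1, a2, a3, a4, rfl⟩ ⟨b1, b2, b3, b4, rfl⟩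
    refine ⟨a1 + b1, a2 + b2, a3 + b3, a4 + b4, ?_⟩
    ext
    · simp only [uv, Prod.fst_add]; push_cast; ring
    · simp only [uv, Prod.snd_add]; push_cast; ring
  zero_mem' := ⟨0, 0, 0, 0, by ext <;> simp [uv]⟩
  neg_mem' := by
    rintro _ ⟨a1, a2, a3, a4, rfl⟩
    refine ⟨-a1, -a2, -a3, -a4, ?_⟩
    ext
    · simp only [uv, Prod.fst_neg]; push_cast; ring
    · simp only [uv, Prod.snd_neg]; push_cast; ring

/-- the core data -/
def mkCore {a b : ℕ} (ha : 0 < a) (hb : 0 < b) (hab : ¬ IsSquare (a * b)) {S1 S2 : ℂ → ℂ} {κ1 κ2 : ℝ}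
    (h1 : QP S1 κ1 (rt a * I)) (h2 : QP S2 κ2 (rt b * I)) : Core where
  al := κ1 / 4
  be := κ2 / 4
  hal := by have := h1.kpos; positivity
  hbe := by have := h2.kpos; positivity
  T1 := TT (a * b) S1
  T2 := TT (a * b) S2
  d1 := by
    have h := h1.diff
    unfold TT
    fun_prop
  d2 := by
    have h := h2.diff
    unfold TT
    fun_prop
  O := OO a b
  q1 := by
    rintro _ ⟨n1, n2, n3, n4, rfl⟩
    exact TT_qp_1 (Nat.mul_pos ha hb) h1 n1 n2 n3 n4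
  q2 := by
    rintro _ ⟨n1, n2, n3, n4, rfl⟩
    exact TT_qp_2 (Nat.mul_pos ha hb) h2 n1 n2 n3 n4
  cov := by
    obtain ⟨C0, h0, h⟩ := cov_g ha hb hab
    refine ⟨C0, h0, fun R r hR hr hC x y => ?_⟩
    obtain ⟨n1, n2, n3, n4, h1, h2⟩ := h R r hR hr hC x y
    exact ⟨_, ⟨n1, n2, n3, n4, rfl⟩, h1, h2⟩
  low := low_g hb (Nat.mul_pos ha hb) h1 h2

end

end Pool.Agent.ROH8
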