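import Mathlib
import Pool.Agent.ROH.LBeta

/-!
ROH8-Int8. The real period of `Y² = X³ + 4X² + 2X`. Pure real analysis (model: ROH/LSub.lean).
-/

set_option autoImplicit false

namespace Pool.Agent.ROH8

open MeasureTheory

/-- the parameter -/
private noncomputable def i8T (X : ℝ) : ℝ := (Real.sqrt X + Real.sqrt (X + 4)) / 2

private theorem i8_facts {X : ℝ} (hX : 0 < X) : 0 < Real.sqrt X ∧ 0 < Real.sqrt (X + 4) ∧ 1 < i8T X ∧
    i8T X ^ 2 - 1 = Real.sqrt X * i8T X ∧ i8T X ^ 2 + 1 = Real.sqrt (X + 4) * i8T X ∧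
    (X ^ 2 + 4 * X + 2) * i8T X ^ 4 = 1 + i8T X ^ 8 := by
  have h1 : 0 < Real.sqrt X := Real.sqrt_pos.2 hX
  have h2 : 2 < Real.sqrt (X + 4) := by
    rw [Real.lt_sqrt (by norm_num)]
    linarith
  have h3 : Real.sqrt X ^ 2 = X := Real.sq_sqrt hX.le
  have h4 : Real.sqrt (X + 4) ^ 2 = X + 4 := Real.sq_sqrt (by linarith)
  have h5 : i8T X ^ 2 - 1 = Real.sqrt X * i8T X := by
    unfold i8T
    linear_combination (-1 / 4 : ℝ) * h3 + (1 / 4 : ℝ) * h4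
  have h6 : i8T X ^ 2 + 1 = Real.sqrt (X + 4) * i8T X := by
    unfold i8T
    linear_combination (1 / 4 : ℝ) * h3 - (1 / 4 : ℝ) * h4
  refine ⟨h1, by linarith, ?_, h5, h6, ?_⟩
  · unfold i8T
    linarith
  · generalize i8T X = t at h5 h6
    have h7 : X * t ^ 2 = (t ^ 2 - 1) ^ 2 := by
      rw [h5, mul_pow, h3]
    have h8 : (X ^ 2 + 4 * X + 2) * t ^ 4 = (X * t ^ 2) ^ 2 + 4 * (X * t ^ 2) * t ^ 2 + 2 * t ^ 4 := by ring
    rw [h8, h7]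
    ring

private theorem i8_deriv {X : ℝ} (hX : 0 < X) :
    HasDerivAt i8T (i8T X / (2 * Real.sqrt X * Real.sqrt (X + 4))) X := by
  obtain ⟨h1, h2, -⟩ := i8_facts hX
  have e1 : HasDerivAt (fun X : ℝ => Real.sqrt X) (1 / (2 * Real.sqrt X)) X := Real.hasDerivAt_sqrt hX.ne'
  have e2 : HasDerivAt (fun X : ℝ => Real.sqrt (X + 4)) (1 / (2 * Real.sqrt (X + 4))) X := by
    have e3 := (Real.hasDerivAt_sqrt (by linarith : X + 4 ≠ 0)).comp X ((hasDerivAt_id X).add_const 4)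
    rw [mul_one] at e3
    exact e3
  have e4 := (e1.fun_add e2).div_const 2
  have e5 : (1 / (2 * Real.sqrt X) + 1 / (2 * Real.sqrt (X + 4))) / 2 =
      i8T X / (2 * Real.sqrt X * Real.sqrt (X + 4)) := by
    unfold i8T
    field_simp
    ring
  rw [e5] at e4
  exact e4

private theorem i8_mono {X Y : ℝ} (hX : 0 < X) (hXY : X < Y) : i8T X < i8T Y := by
  have h1 : Real.sqrt X < Real.sqrt Y := Real.sqrt_lt_sqrt hX.le hXY
  have h2 : Real.sqrt (X + 4) < Real.sqrt (Y + 4) := Real.sqrt_lt_sqrt (by linarith) (by linarith)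
  unfold i8T
  linarith

private theorem i8_inj {X Y : ℝ} (hX : 0 < X) (hY : 0 < Y) (h : i8T X = i8T Y) : X = Y := by
  rcases lt_trichotomy X Y with h1 | h1 | h1
  · exact absurd h (i8_mono hX h1).ne
  · exact h1
  · exact absurd h.symm (i8_mono hY h1).ne

private theorem i8_surj {t : ℝ} (ht : 1 < t) : ∃ X, 0 < X ∧ i8T X = t := by
  have ht0 : 0 < t := by linarith
  have h1 : 0 < t - t⁻¹ := by
    have := inv_lt_one_of_one_lt₀ ht
    linarith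
  have h2 : t * t⁻¹ = 1 := mul_inv_cancel₀ ht0.ne'
  refine ⟨(t - t⁻¹) ^ 2, by positivity, ?_⟩
  have h3 : (t - t⁻¹) ^ 2 + 4 = (t + t⁻¹) ^ 2 := by
    linear_combination (-4 : ℝ) * h2
  unfold i8T
  rw [h3, Real.sqrt_sq h1.le, Real.sqrt_sq (by positivity)]
  ring

private theorem i8_pow {a b t w : ℝ} (ht : 0 < t) (hw : 0 < w) (hab : a + b = 1 / 2) :
    ((w ^ 2)⁻¹) ^ (a - 1) * (t ^ 8 * (w ^ 2)⁻¹) ^ (b - 1) = w ^ 3 * t ^ (8 * (b - 1)) := by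
  have e1 : (w ^ 2)⁻¹ = w ^ (-2 : ℝ) := by
    rw [Real.rpow_neg hw.le, ← Real.rpow_natCast]
    norm_num
  have e2 : t ^ 8 = t ^ (8 : ℝ) := by
    rw [← Real.rpow_natCast]
    norm_num
  have e3 : w ^ 3 = w ^ (-2 * (a - 1)) * w ^ (-2 * (b - 1)) := by
    rw [← Real.rpow_add hw, ← Real.rpow_natCast]
    congr 1
    push_cast
    linarith
  rw [e1, e2, Real.mul_rpow (by positivity) (by positivity), ← Real.rpow_mul hw.le, ← Real.rpow_mul ht.le,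
    ← Real.rpow_mul hw.le, e3]
  ring

private theorem i8_g {t w : ℝ} (ht : 0 < t) (hw : 0 < w) (h : w ^ 2 = 1 + t ^ 8) :
    ((1 + t ^ 8)⁻¹) ^ ((1 : ℝ) / 8 - 1) * (1 - (1 + t ^ 8)⁻¹) ^ ((3 : ℝ) / 8 - 1) +
      (1 - (1 + t ^ 8)⁻¹) ^ ((1 : ℝ) / 8 - 1) * (1 - (1 - (1 + t ^ 8)⁻¹)) ^ ((3 : ℝ) / 8 - 1) =
      w ^ 3 * (t ^ 2 + 1) / t ^ 7 := by
  have h0 : 1 - (1 + t ^ 8)⁻¹ = t ^ 8 * (w ^ 2)⁻¹ := by
    rw [h]
    have : 1 + t ^ 8 ≠ 0 := by positivity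
    field_simp
    ring
  rw [sub_sub_cancel, h0, ← h, i8_pow ht hw (by norm_num), mul_comm ((t ^ 8 * (w ^ 2)⁻¹) ^ ((1 : ℝ) / 8 - 1)),
    i8_pow ht hw (by norm_num)]
  have e1 : t ^ (8 * ((3 : ℝ) / 8 - 1)) = (t ^ 5)⁻¹ := by
    have : (8 * ((3 : ℝ) / 8 - 1)) = -((5 : ℕ) : ℝ) := by norm_num
    rw [this, Real.rpow_neg ht.le, Real.rpow_natCast]
  have e2 : t ^ (8 * ((1 : ℝ) / 8 - 1)) = (t ^ 7)⁻¹ := by
    have : (8 * ((1 : ℝ) / 8 - 1)) = -((7 : ℕ) : ℝ) := by norm_num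
    rw [this, Real.rpow_neg ht.le, Real.rpow_natCast]
  rw [e1, e2]
  field_simp

private theorem i8_alg {X d : ℝ} (hX : 0 < X) (hd0 : d < 0) (hd : d ^ 2 = 4 * X ^ 3 + 16 * X ^ 2 + 8 * X) :
    |(-(8 * i8T X ^ 7 * (i8T X / (2 * Real.sqrt X * Real.sqrt (X + 4)) * d)) / (1 + i8T X ^ 8) ^ 2)| *
      (((1 + i8T X ^ 8)⁻¹) ^ ((1 : ℝ) / 8 - 1) * (1 - (1 + i8T X ^ 8)⁻¹) ^ ((3 : ℝ) / 8 - 1) +
      (1 - (1 + i8T X ^ 8)⁻¹) ^ ((1 : ℝ) / 8 - 1) * (1 - (1 - (1 + i8T X ^ 8)⁻¹)) ^ ((3 : ℝ) / 8 - 1)) = 8 := by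
  obtain ⟨h1, h2, h3, h4, h5, h6⟩ := i8_facts hX
  have h7 : Real.sqrt X ^ 2 = X := Real.sq_sqrt hX.le
  have ht : 0 < i8T X := by linarith
  have hw : 0 < Real.sqrt (1 + i8T X ^ 8) := Real.sqrt_pos.2 (by positivity)
  have hw2 : Real.sqrt (1 + i8T X ^ 8) ^ 2 = 1 + i8T X ^ 8 := Real.sq_sqrt (by positivity)
  rw [i8_g ht hw hw2]
  generalize Real.sqrt (1 + i8T X ^ 8) = w at hw hw2
  generalize i8T X = t at h3 h4 h5 h6 ht hw2 ⊢
  generalize Real.sqrt X = s at h1 h4 h7 ⊢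
  generalize Real.sqrt (X + 4) = r at h2 h5 ⊢
  -- `|d| t² = 2 s w`
  have h8 : -d * t ^ 2 = 2 * s * w := by
    refine (pow_left_inj₀ (by nlinarith [sq_nonneg t]) (by positivity) two_ne_zero).1 ?_
    have e1 : (-d * t ^ 2) ^ 2 = d ^ 2 * t ^ 4 := by ring
    have e2 : (2 * s * w) ^ 2 = 4 * s ^ 2 * w ^ 2 := by ring
    rw [e1, e2, hd, h7, hw2, ← h6]
    ring
  have h9 : -d = 2 * s * w / t ^ 2 := by
    rw [eq_div_iff (by positivity)]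
    exact h8
  have h10 : -(8 * t ^ 7 * (t / (2 * s * r) * d)) / (1 + t ^ 8) ^ 2 =
      8 * t ^ 7 * (t / (2 * s * r) * (2 * s * w / t ^ 2)) / (w ^ 2) ^ 2 := by
    rw [← h9, hw2]
    ring
  rw [h10, abs_of_pos (by positivity), h5]
  field_simp

private theorem i8_int (f : ℝ → ℝ) (B : ℝ) (hB : B ≠ 0) (h : ∫ u in Set.Ioo (0 : ℝ) 1, f u = B) :
    ∫ u in Set.Ioo (0 : ℝ) (1 / 2), (f u + f (1 - u)) = B := by
  have hi : IntegrableOn f (Set.Ioo 0 1) := by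
    by_contra hc
    rw [integral_undef hc] at h
    exact hB h.symm
  have hI : IntervalIntegrable f volume 0 1 := by
    rw [intervalIntegrable_iff_integrableOn_Ioo_of_le zero_le_one]
    exact hi
  have h1 : IntervalIntegrable f volume 0 (1 / 2) :=
    hI.mono_set (by
      rw [Set.uIcc_of_le (by norm_num), Set.uIcc_of_le (by norm_num)]
      exact Set.Icc_subset_Icc le_rfl (by norm_num))
  have h2 : IntervalIntegrable f volume (1 / 2) 1 :=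
    hI.mono_set (by
      rw [Set.uIcc_of_le (by norm_num), Set.uIcc_of_le (by norm_num)]
      exact Set.Icc_subset_Icc (by norm_num) le_rfl)
  have h3 : IntervalIntegrable (fun u => f (1 - u)) volume 0 (1 / 2) := by
    have := h2.comp_sub_left 1
    norm_num at this
    exact this.symm
  have e0 : ∀ (g : ℝ → ℝ) (b : ℝ), 0 ≤ b → ∫ u in Set.Ioo (0 : ℝ) b, g u = ∫ u in (0 : ℝ)..b, g u := by
    intro g b hb
    rw [← integral_Ioc_eq_integral_Ioo, intervalIntegral.integral_of_le hb]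
  rw [e0 _ _ (by norm_num), intervalIntegral.integral_add h1 h3, intervalIntegral.integral_comp_sub_left f 1]
  rw [e0 _ _ zero_le_one] at h
  have e1 : (1 : ℝ) - 1 / 2 = 1 / 2 := by norm_num
  rw [e1, sub_zero, intervalIntegral.integral_add_adjacent_intervals h1 h2]
  exact h

theorem half8 {p d : ℝ → ℝ} {ρ : ℝ} (hρ : 0 < ρ)
    (hd : ∀ x, 0 < x → x < ρ / 2 → HasDerivAt p (d x) x)
    (hneg : ∀ x, 0 < x → x < ρ / 2 → d x < 0)
    (him : p '' Set.Ioo 0 (ρ / 2) = Set.Ioi (4 / 3))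
    (hsq : ∀ x, 0 < x → x < ρ / 2 →
      d x ^ 2 = 4 * (p x - 4 / 3) ^ 3 + 16 * (p x - 4 / 3) ^ 2 + 8 * (p x - 4 / 3)) :
    ρ = 1 / 4 * (Real.Gamma (1 / 8) * Real.Gamma (3 / 8) / Real.Gamma (1 / 8 + 3 / 8)) := by
  have hp1 : ∀ x ∈ Set.Ioo 0 (ρ / 2), 0 < p x - 4 / 3 := by
    intro x hx
    have h1 : p x ∈ p '' Set.Ioo 0 (ρ / 2) := ⟨x, hx, rfl⟩
    rw [him] at h1
    have h2 : 4 / 3 < p x := h1
    linarith
  have hanti : StrictAntiOn p (Set.Ioo 0 (ρ / 2)) := by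
    refine strictAntiOn_of_deriv_neg (convex_Ioo _ _) ?_ ?_
    · intro x hx
      exact (hd x hx.1 hx.2).continuousAt.continuousWithinAt
    · intro x hx
      rw [interior_Ioo] at hx
      rw [(hd x hx.1 hx.2).deriv]
      exact hneg x hx.1 hx.2
  have hu : ∀ x ∈ Set.Ioo 0 (ρ / 2), HasDerivWithinAt (fun x => (1 + i8T (p x - 4 / 3) ^ 8)⁻¹)
      (-(8 * i8T (p x - 4 / 3) ^ 7 * (i8T (p x - 4 / 3) / (2 * Real.sqrt (p x - 4 / 3) *
        Real.sqrt (p x - 4 / 3 + 4)) * d x)) / (1 + i8T (p x - 4 / 3) ^ 8) ^ 2) (Set.Ioo 0 (ρ / 2)) x := by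
    intro x hx
    have hX := hp1 x hx
    have e1 : HasDerivAt (fun x => i8T (p x - 4 / 3)) (i8T (p x - 4 / 3) / (2 * Real.sqrt (p x - 4 / 3) *
        Real.sqrt (p x - 4 / 3 + 4)) * d x) x :=
      HasDerivAt.comp x (i8_deriv hX) ((hd x hx.1 hx.2).sub_const (4 / 3))
    have e2 := ((e1.fun_pow 8).const_add 1).fun_inv (by positivity)
    exact e2.hasDerivWithinAt
  have hinj : Set.InjOn (fun x => (1 + i8T (p x - 4 / 3) ^ 8)⁻¹) (Set.Ioo 0 (ρ / 2)) := by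
    intro x hx y hy hxy
    have h1 : 1 + i8T (p x - 4 / 3) ^ 8 = 1 + i8T (p y - 4 / 3) ^ 8 := inv_injective hxy
    have hX := (i8_facts (hp1 x hx)).2.2.1
    have hY := (i8_facts (hp1 y hy)).2.2.1
    have h2 : i8T (p x - 4 / 3) = i8T (p y - 4 / 3) :=
      (pow_left_inj₀ (by linarith) (by linarith) (by norm_num : (8 : ℕ) ≠ 0)).1 (by linarith)
    have h3 := i8_inj (hp1 x hx) (hp1 y hy) h2
    exact hanti.injOn hx hy (by linarith)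
  have himg : (fun x => (1 + i8T (p x - 4 / 3) ^ 8)⁻¹) '' Set.Ioo 0 (ρ / 2) = Set.Ioo 0 (1 / 2) := by
    ext y
    constructor
    · rintro ⟨x, hx, rfl⟩
      have hX := (i8_facts (hp1 x hx)).2.2.1
      have h1 : 1 < i8T (p x - 4 / 3) ^ 8 := one_lt_pow₀ hX (by norm_num)
      refine ⟨by positivity, ?_⟩
      show (1 + i8T (p x - 4 / 3) ^ 8)⁻¹ < 1 / 2
      rw [one_div]
      exact inv_strictAnti₀ (by norm_num) (by linarith)
    · rintro ⟨hy0, hy1⟩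
      have h1 : 2 < y⁻¹ := by
        rw [lt_inv_comm₀ (by norm_num) hy0]
        linarith
      have h2 : (1 : ℝ) < (y⁻¹ - 1) ^ (((8 : ℕ) : ℝ)⁻¹) := Real.one_lt_rpow (by linarith) (by positivity)
      obtain ⟨X, hX, hXt⟩ := i8_surj h2
      have h3 : X + 4 / 3 ∈ p '' Set.Ioo 0 (ρ / 2) := by
        rw [him]
        show 4 / 3 < X + 4 / 3
        linarith
      obtain ⟨x, hx, hxy⟩ := h3
      refine ⟨x, hx, ?_⟩
      show (1 + i8T (p x - 4 / 3) ^ 8)⁻¹ = y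
      rw [hxy, add_sub_cancel_right, hXt, Real.rpow_inv_natCast_pow (by linarith) (by norm_num),
        add_sub_cancel, inv_inv]
  have hint := integral_image_eq_integral_abs_deriv_smul (measurableSet_Ioo : MeasurableSet (Set.Ioo 0 (ρ / 2)))
    hu hinj (fun u : ℝ => u ^ ((1 : ℝ) / 8 - 1) * (1 - u) ^ ((3 : ℝ) / 8 - 1) +
      (1 - u) ^ ((1 : ℝ) / 8 - 1) * (1 - (1 - u)) ^ ((3 : ℝ) / 8 - 1))
  have hcongr : ∫ x in Set.Ioo 0 (ρ / 2), |(-(8 * i8T (p x - 4 / 3) ^ 7 * (i8T (p x - 4 / 3) /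
        (2 * Real.sqrt (p x - 4 / 3) * Real.sqrt (p x - 4 / 3 + 4)) * d x)) /
        (1 + i8T (p x - 4 / 3) ^ 8) ^ 2)| •
      (((1 + i8T (p x - 4 / 3) ^ 8)⁻¹) ^ ((1 : ℝ) / 8 - 1) *
        (1 - (1 + i8T (p x - 4 / 3) ^ 8)⁻¹) ^ ((3 : ℝ) / 8 - 1) +
      (1 - (1 + i8T (p x - 4 / 3) ^ 8)⁻¹) ^ ((1 : ℝ) / 8 - 1) *
        (1 - (1 - (1 + i8T (p x - 4 / 3) ^ 8)⁻¹)) ^ ((3 : ℝ) / 8 - 1)) =
      ∫ x in Set.Ioo 0 (ρ / 2), (8 : ℝ) := by
    refine setIntegral_congr_fun measurableSet_Ioo fun x hx => ?_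
    exact i8_alg (hp1 x hx) (hneg x hx.1 hx.2) (hsq x hx.1 hx.2)
  have hvol : volume.real (Set.Ioo 0 (ρ / 2)) = ρ / 2 := by
    rw [Real.volume_real_Ioo_of_le (by linarith)]
    ring
  have hG1 : 0 < Real.Gamma (1 / 8) := Real.Gamma_pos_of_pos (by norm_num)
  have hG3 : 0 < Real.Gamma (3 / 8) := Real.Gamma_pos_of_pos (by norm_num)
  have hG4 : 0 < Real.Gamma (1 / 8 + 3 / 8) := Real.Gamma_pos_of_pos (by norm_num)
  have hB := i8_int (fun u : ℝ => u ^ ((1 : ℝ) / 8 - 1) * (1 - u) ^ ((3 : ℝ) / 8 - 1)) _ (by positivity)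
    (Pool.Agent.ROH.beta_int (1 / 8) (3 / 8) (by norm_num) (by norm_num))
  rw [himg] at hint
  have h1 : Real.Gamma (1 / 8) * Real.Gamma (3 / 8) / Real.Gamma (1 / 8 + 3 / 8) =
      ∫ x in Set.Ioo 0 (ρ / 2), (8 : ℝ) := hB.symm.trans (hint.trans hcongr)
  rw [setIntegral_const, hvol, smul_eq_mul] at h1
  rw [h1]
  ring

end Pool.Agent.ROH8
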