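import Pool.Agent.Helper52.Fermat.Saw2

/-!
Project ROH8, Koblitz-Ogus part 1: odd distributions on `ZMod N`, isotypic parts.
-/

set_option autoImplicit false

namespace Pool.Agent.ROH8

open Finset

section

variable {N : ℕ} [NeZero N]

/-- odd distributions on `ZMod N`, complex valued -/
structure FD (F : ZMod N → ℂ) : Prop where
  odd : ∀ j, F (-j) = -F j
  dist : ∀ p : ℕ, p.Prime → p ∣ N → ∀ j : ZMod N,
    ∑ z ∈ univ.filter (fun z : ZMod N => (p : ZMod N) * z = p * j), F z = F (p * j)

/-- isotypic part -/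
noncomputable def iso (χ : DirichletCharacter ℂ N) (F : ZMod N → ℂ) (j : ZMod N) : ℂ :=
  ∑ t : (ZMod N)ˣ, χ t * F (t * j)

/-- transformation under a character -/
def Eig (χ : DirichletCharacter ℂ N) (F : ZMod N → ℂ) : Prop :=
  ∀ (u : (ZMod N)ˣ) (j : ZMod N), χ u * F (u * j) = F j

theorem FD.unit {F : ZMod N → ℂ} (hF : FD F) (u : (ZMod N)ˣ) :
    FD (fun j : ZMod N => F ((u : ZMod N) * j)) := by
  constructor
  · intro j
    rw [← hF.odd]
    congr 1
    ring
  · intro p hp hpN j
    have h := hF.dist p hp hpN (u * j)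
    have e : ((p : ZMod N) * (u * j)) = u * (p * j) := by ring
    rw [e] at h
    rw [← h]
    refine sum_bij (fun z _ => (u : ZMod N) * z) ?_ ?_ ?_ ?_
    · intro z hz
      rw [mem_filter] at hz ⊢
      refine ⟨mem_univ _, ?_⟩
      calc (p : ZMod N) * (u * z) = u * (p * z) := by ring
        _ = u * (p * j) := by rw [hz.2]
    · intro z _ z' _ hzz
      exact u.isUnit.mul_left_cancel hzz
    · intro w hw
      rw [mem_filter] at hw
      refine ⟨((u⁻¹ : (ZMod N)ˣ) : ZMod N) * w, ?_, ?_⟩
      · rw [mem_filter]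
        refine ⟨mem_univ _, ?_⟩
        calc (p : ZMod N) * (((u⁻¹ : (ZMod N)ˣ) : ZMod N) * w) =
            ((u⁻¹ : (ZMod N)ˣ) : ZMod N) * (p * w) := by ring
          _ = ((u⁻¹ : (ZMod N)ˣ) : ZMod N) * (u * (p * j)) := by rw [hw.2]
          _ = p * j := by rw [← mul_assoc, Units.inv_mul, one_mul]
      · rw [← mul_assoc, Units.mul_inv, one_mul]
    · intro z _
      rfl

theorem FD.sum {ι : Type*} (s : Finset ι) (c : ι → ℂ) {F : ι → ZMod N → ℂ} (hF : ∀ i ∈ s, FD (F i)) :
    FD (fun j => ∑ i ∈ s, c i * F i j) := by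
  constructor
  · intro j
    rw [← sum_neg_distrib]
    refine sum_congr rfl fun i hi => ?_
    rw [(hF i hi).odd, mul_neg]
  · intro p hp hpN j
    rw [sum_comm]
    refine sum_congr rfl fun i hi => ?_
    rw [← mul_sum, (hF i hi).dist p hp hpN j]

theorem FD.iso {F : ZMod N → ℂ} (hF : FD F) (χ : DirichletCharacter ℂ N) : FD (iso χ F) :=
  FD.sum univ (fun t : (ZMod N)ˣ => χ t) fun t _ => hF.unit t

theorem eig_iso (χ : DirichletCharacter ℂ N) (F : ZMod N → ℂ) : Eig χ (iso χ F) := by
  intro u j
  unfold iso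
  rw [mul_sum]
  refine Fintype.sum_equiv (Equiv.mulRight u) _ _ fun t => ?_
  rw [Equiv.coe_mulRight, Units.val_mul, map_mul, ← mul_assoc, mul_comm (χ (u : ZMod N))]
  congr 2
  ring

/-- a number congruent to a unit modulo a divisor lifts to a unit -/
theorem exists_unit {n : ℕ} (hn : n ∣ N) {w : ℕ} (hw : Nat.Coprime w n) :
    ∃ u : (ZMod N)ˣ, (ZMod.unitsMap hn u : ZMod n) = (w : ZMod n) := by
  obtain ⟨u, hu⟩ := ZMod.unitsMap_surjective hn (ZMod.unitOfCoprime w hw)
  exact ⟨u, by rw [hu, ZMod.coe_unitOfCoprime]⟩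

/-- then they agree after multiplication by the complementary divisor -/
theorem mul_lift {n d : ℕ} (hn : n ∣ N) (hd : d * n = N) {w : ℕ} {u : (ZMod N)ˣ}
    (hu : (ZMod.unitsMap hn u : ZMod n) = (w : ZMod n)) :
    (u : ZMod N) * d = w * d := by
  have h1 : ((u : ZMod N).val : ZMod n) = (w : ZMod n) := by
    rw [← hu, ZMod.unitsMap_val, ZMod.natCast_val]
  rw [ZMod.natCast_eq_natCast_iff] at h1
  have h2 : ((u : ZMod N).val * d : ℕ) ≡ w * d [MOD N] := by
    have := h1.mul_right' d
    rwa [mul_comm n d, hd] at this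
  rw [← ZMod.natCast_eq_natCast_iff] at h2
  push_cast at h2
  rwa [ZMod.natCast_zmod_val] at h2

/-- a unit congruent to one modulo a multiple of the conductor -/
theorem char_one {χ : DirichletCharacter ℂ N} {n : ℕ} (hn : n ∣ N) (hc : χ.conductor ∣ n)
    {u : (ZMod N)ˣ} (hu : ZMod.unitsMap hn u = 1) : χ u = 1 := by
  have h1 : χ.FactorsThrough n := (χ.mem_conductorSet_iff_conductor_dvd hn).2 hc
  have h2 := (DirichletCharacter.factorsThrough_iff_ker_unitsMap hn).1 h1 (MonoidHom.mem_ker.2 hu)
  rw [MonoidHom.mem_ker] at h2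
  have h3 := congrArg (fun x : ℂˣ => (x : ℂ)) h2
  simpa using h3

theorem eig_vanish {χ : DirichletCharacter ℂ N} {F : ZMod N → ℂ} (hE : Eig χ F) {d n : ℕ}
    (hd : d * n = N) (hc : ¬ χ.conductor ∣ n) : F d = 0 := by
  have hn : n ∣ N := ⟨d, by rw [← hd, mul_comm]⟩
  have h1 : ¬ χ.FactorsThrough n := fun h => hc ((χ.mem_conductorSet_iff_conductor_dvd hn).1 h)
  rw [DirichletCharacter.factorsThrough_iff_ker_unitsMap hn, SetLike.not_le_iff_exists] at h1
  obtain ⟨u, hu1, hu2⟩ := h1
  rw [MonoidHom.mem_ker] at hu1 hu2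
  have h2 : χ u ≠ 1 := by
    intro h
    apply hu2
    ext
    simpa using h
  have h3 : (u : ZMod N) * d = ((1 : ℕ) : ZMod N) * d := mul_lift hn hd (by rw [hu1]; simp)
  have h4 := hE u d
  rw [h3, Nat.cast_one, one_mul] at h4
  have h5 : (χ u - 1) * F d = 0 := by rw [sub_mul, h4, one_mul, sub_self]
  exact (mul_eq_zero.1 h5).resolve_left (sub_ne_zero.2 h2)

theorem eig_step {χ : DirichletCharacter ℂ N} {F : ZMod N → ℂ} (hE : Eig χ F) (hF : FD F)
    {p d n : ℕ} (hp : p.Prime) (hd : p * d * n = N) (hc : χ.conductor ∣ n)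
    (h0 : F (p * d : ℕ) = 0) : F d = 0 := by
  by_contra hne
  have hN0 : N ≠ 0 := NeZero.ne N
  have hn0 : n ≠ 0 := by rintro rfl; exact hN0 (by rw [← hd, mul_zero])
  have hd0 : d ≠ 0 := by rintro rfl; exact hN0 (by rw [← hd]; ring)
  have hpn : p * n ∣ N := ⟨d, by rw [← hd]; ring⟩
  have hnN : n ∣ N := ⟨p * d, by rw [← hd]; ring⟩
  have hpN : p ∣ N := ⟨d * n, by rw [← hd]; ring⟩
  have h1 : ∑ z ∈ univ.filter (fun z : ZMod N => (p : ZMod N) * z = p * d), F z = 0 := by
    rw [hF.dist p hp hpN d, ← Nat.cast_mul, h0]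
  -- the two types
  have key : ∀ z ∈ univ.filter (fun z : ZMod N => (p : ZMod N) * z = p * d),
      F z = F d ∨ F z = 0 := by
    intro z hz
    rw [mem_filter] at hz
    have hz2 : ((p * z.val : ℕ) : ZMod N) = ((p * d : ℕ) : ZMod N) := by
      push_cast
      rw [ZMod.natCast_zmod_val]
      exact hz.2
    rw [ZMod.natCast_eq_natCast_iff] at hz2
    -- `z.val ≡ d` modulo `d n`
    have hz3 : z.val ≡ d [MOD (d * n)] := by
      have : p * z.val ≡ p * d [MOD (p * (d * n))] := by
        have e : p * (d * n) = N := by rw [← hd]; ring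
        rw [e]; exact hz2
      exact Nat.ModEq.mul_left_cancel' hp.ne_zero this
    have hdz : d ∣ z.val := by
      have h3 : z.val ≡ d [MOD d] := hz3.of_mul_right n
      have h4 : z.val ≡ 0 [MOD d] := h3.trans (by simp [Nat.ModEq])
      exact (Nat.modEq_zero_iff_dvd).1 h4
    obtain ⟨w, hw⟩ := hdz
    have hw1 : w ≡ 1 [MOD n] := by
      have h3 : d * w ≡ d * 1 [MOD (d * n)] := by rw [← hw, mul_one]; exact hz3
      exact Nat.ModEq.mul_left_cancel' hd0 h3
    have hwn : Nat.Coprime w n := by
      have := hw1.gcd_eq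
      rw [Nat.gcd_one_left] at this
      exact this
    have hzw : z = (w : ZMod N) * d := by
      rw [← ZMod.natCast_zmod_val z, hw]
      push_cast
      ring
    by_cases hpw : p ∣ w
    · -- `z = p d w'`
      right
      obtain ⟨w', rfl⟩ := hpw
      have hw'n : Nat.Coprime w' n := Nat.Coprime.coprime_dvd_left (Dvd.intro_left p rfl) hwn
      obtain ⟨v, hv⟩ := exists_unit (N := N) hnN hw'n
      have h5 := mul_lift hnN hd hv
      have h6 := hE v ((p * d : ℕ) : ZMod N)
      rw [h0] at h6
      have h7 : z = (v : ZMod N) * ((p * d : ℕ) : ZMod N) := by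
        rw [h5, hzw]
        push_cast
        ring
      rw [← h7] at h6
      have h8 : χ v ≠ 0 := by
        have := (v.isUnit.map χ).ne_zero
        exact this
      exact (mul_eq_zero.1 h6).resolve_left h8
    · left
      have hwpn : Nat.Coprime w (p * n) := by
        apply Nat.Coprime.mul_right
        · exact ((Nat.Prime.coprime_iff_not_dvd hp).2 hpw).symm
        · exact hwn
      obtain ⟨v, hv⟩ := exists_unit (N := N) hpn hwpn
      have h5 := mul_lift (d := d) hpn (by rw [← hd]; ring) hv
      have h6 := hE v (d : ZMod N)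
      rw [h5, ← hzw] at h6
      have h7 : ZMod.unitsMap hnN v = 1 := by
        ext
        have h8 : ZMod.unitsMap hnN v = ZMod.unitsMap (Dvd.intro_left p rfl) (ZMod.unitsMap hpn v) := by
          rw [← MonoidHom.comp_apply, ZMod.unitsMap_comp]
        rw [h8, ZMod.unitsMap_val, hv, ZMod.cast_natCast (Dvd.intro_left p rfl), Units.val_one]
        have := (ZMod.natCast_eq_natCast_iff w 1 n).2 hw1
        rw [this, Nat.cast_one]
      rw [char_one hnN hc h7, one_mul] at h6
      exact h6
  have h2 : ∀ z ∈ univ.filter (fun z : ZMod N => (p : ZMod N) * z = p * d),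
      F z = (if F z = F d then F d else 0) := by
    intro z hz
    split_ifs with h
    · exact h
    · exact (key z hz).resolve_left h
  rw [sum_congr rfl h2, ← sum_filter, sum_const, nsmul_eq_mul] at h1
  have h3 := (mul_eq_zero.1 h1).resolve_right hne
  have h4 : (d : ZMod N) ∈ (univ.filter (fun z : ZMod N => (p : ZMod N) * z = p * d)).filter
      (fun z => F z = F d) := by simp
  have h5 := card_pos.2 ⟨_, h4⟩
  have h6 : ((univ.filter (fun z : ZMod N => (p : ZMod N) * z = p * d)).filter
      (fun z => F z = F d)).card = 0 := by exact_mod_cast h3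
  omega

theorem eig_all {χ : DirichletCharacter ℂ N} {F : ZMod N → ℂ} (hE : Eig χ F) (hF : FD F)
    {M : ℕ} (hM : M * χ.conductor = N) (h0 : F (M : ZMod N) = 0) (j : ZMod N) : F j = 0 := by
  have hdiv : ∀ e d : ℕ, d * e = M → F (d : ZMod N) = 0 := by
    intro e
    induction e using Nat.strong_induction_on with
    | _ e ih =>
      intro d hd
      by_cases he1 : e = 1
      · rw [he1, mul_one] at hd
        rw [hd]
        exact h0
      · obtain ⟨p, hp, e', rfl⟩ := Nat.exists_prime_and_dvd he1
        have he0 : e' ≠ 0 := by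
          rintro rfl
          apply NeZero.ne N
          rw [← hM, ← hd]
          ring
        have hN' : p * d * (e' * χ.conductor) = N := by
          calc p * d * (e' * χ.conductor) = d * (p * e') * χ.conductor := by ring
            _ = M * χ.conductor := by rw [hd]
            _ = N := hM
        refine eig_step hE hF hp (n := e' * χ.conductor) hN'
          (Dvd.intro_left _ rfl) (ih e' ?_ (p * d) (by rw [← hd]; ring))
        exact lt_mul_of_one_lt_left (Nat.pos_of_ne_zero he0) hp.one_lt
  obtain ⟨d, hd, u, hu, rfl⟩ := ZMod.eq_unit_mul_divisor j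
  obtain ⟨n, hn⟩ := hd
  have hFd : F (d : ZMod N) = 0 := by
    by_cases hc : χ.conductor ∣ n
    · obtain ⟨e, rfl⟩ := hc
      refine hdiv e d ?_
      have h1 : d * e * χ.conductor = M * χ.conductor := by
        calc d * e * χ.conductor = d * (χ.conductor * e) := by ring
          _ = N := hn.symm
          _ = M * χ.conductor := hM.symm
      have h2 : 0 < χ.conductor := Nat.pos_of_ne_zero χ.conductor_ne_zero
      exact Nat.eq_of_mul_eq_mul_right h2 h1
    · exact eig_vanish hE hn.symm hc
  have h2 := hE hu.unit d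
  rw [IsUnit.unit_spec, hFd] at h2
  exact (mul_eq_zero.1 h2).resolve_left (hu.map χ).ne_zero

theorem iso_even {χ : DirichletCharacter ℂ N} {F : ZMod N → ℂ} (hF : FD F) (hχ : χ.Even)
    (j : ZMod N) : iso χ F j = 0 := by
  have h1 := eig_iso χ F (-1) j
  rw [Units.val_neg, Units.val_one, hχ, one_mul, neg_mul, one_mul, (hF.iso χ).odd] at h1
  exact self_eq_neg.1 h1.symm

/-- Fourier inversion -/
theorem sum_iso (F : ZMod N → ℂ) (j : ZMod N) :
    ∑ χ : DirichletCharacter ℂ N, iso χ F j = (N.totient : ℂ) * F j := by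
  unfold iso
  rw [sum_comm]
  have h1 : ∀ t : (ZMod N)ˣ, ∑ χ : DirichletCharacter ℂ N, χ t * F (t * j) =
      if t = 1 then (N.totient : ℂ) * F j else 0 := by
    intro t
    rw [← sum_mul, DirichletCharacter.sum_characters_eq]
    by_cases ht : t = 1
    · simp [ht]
    · have : (t : ZMod N) ≠ 1 := fun h => ht (Units.ext h)
      simp [ht, this]
  rw [sum_congr rfl fun t _ => h1 t, sum_ite_eq' univ (1 : (ZMod N)ˣ)]
  simp

/-- if some odd distribution has nonzero primitive components for all odd characters, then every odd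
distribution is orthogonal to the relations of that distribution -/
theorem fd_span {S F : ZMod N → ℂ} (hS : FD S) (hF : FD F)
    (hne : ∀ χ : DirichletCharacter ℂ N, χ.Odd → ∀ M : ℕ, M * χ.conductor = N → iso χ S M ≠ 0)
    {ι : Type*} (s : Finset ι) (c : ι → ℂ) (x : ι → ZMod N)
    (hc : ∀ t : (ZMod N)ˣ, ∑ i ∈ s, c i * S (t * x i) = 0) : ∑ i ∈ s, c i * F (x i) = 0 := by
  have hiso : ∀ χ : DirichletCharacter ℂ N, ∑ i ∈ s, c i * iso χ F (x i) = 0 := by
    intro χ
    rcases χ.even_or_odd with h | h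
    · exact sum_eq_zero fun i _ => by rw [iso_even hF h, mul_zero]
    · obtain ⟨M, hM⟩ := χ.conductor_dvd_level
      have hM' : M * χ.conductor = N := by
        conv_rhs => rw [hM]
        ring
      have hz := hne χ h M hM'
      -- `F_χ` is a multiple of `S_χ`
      have h1 : ∀ j, iso χ S M * iso χ F j - iso χ F M * iso χ S j = 0 := by
        refine eig_all (χ := χ) ?_ ?_ hM' (by ring)
        · intro u j
          have e1 := eig_iso χ F u j
          have e2 := eig_iso χ S u j
          linear_combination iso χ S M * e1 - iso χ F M * e2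
        · constructor
          · intro j
            rw [(hF.iso χ).odd, (hS.iso χ).odd]
            ring
          · intro p hp hpN j
            rw [sum_sub_distrib, ← mul_sum, ← mul_sum, (hF.iso χ).dist p hp hpN j,
              (hS.iso χ).dist p hp hpN j]
      have h2 : iso χ S M * ∑ i ∈ s, c i * iso χ F (x i) =
          iso χ F M * ∑ i ∈ s, c i * iso χ S (x i) := by
        rw [mul_sum, mul_sum]
        refine sum_congr rfl fun i _ => ?_
        linear_combination c i * h1 (x i)
      have h3 : ∑ i ∈ s, c i * iso χ S (x i) = 0 := by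
        unfold iso
        simp_rw [mul_sum]
        rw [sum_comm]
        refine sum_eq_zero fun t _ => ?_
        have : ∀ i, c i * (χ t * S (t * x i)) = χ t * (c i * S (t * x i)) := fun i => by ring
        rw [sum_congr rfl fun i _ => this i, ← mul_sum, hc t, mul_zero]
      rw [h3, mul_zero] at h2
      exact (mul_eq_zero.1 h2).resolve_left hz
  have h4 : (N.totient : ℂ) * ∑ i ∈ s, c i * F (x i) = 0 := by
    rw [mul_sum]
    have : ∀ i, (N.totient : ℂ) * (c i * F (x i)) = ∑ χ : DirichletCharacter ℂ N,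
        c i * iso χ F (x i) := fun i => by
      rw [← mul_sum, sum_iso]
      ring
    rw [sum_congr rfl fun i _ => this i, sum_comm]
    exact sum_eq_zero fun χ _ => hiso χ
  refine (mul_eq_zero.1 h4).resolve_left ?_
  have : 0 < N.totient := Nat.totient_pos.2 (Nat.pos_of_ne_zero (NeZero.ne N))
  exact_mod_cast this.ne'

end

end Pool.Agent.ROH8
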