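import Pool.Agent.ROH8.KOA
import Pool.Agent.Helper99.Rohr.Gam
import Pool.Agent.Helper99.Rohr.Saw

/-!
Project ROH8, Koblitz-Ogus part 2: the theorem for rational valued odd distributions and for gamma
values.
-/

set_option autoImplicit false

namespace Pool.Agent.ROH8

open Finset Pool.Agent.Helper99.Rohr

section

variable {N : ℕ} [NeZero N]

/-- the function on `ZMod N` attached to a function on the rationals -/
noncomputable def lft (f : ℚ → ℚ) (j : ZMod N) : ℂ :=
  if j = 0 then 0 else ((f ((j.val : ℚ) / N) : ℚ) : ℂ)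

theorem isPt_val {j : ZMod N} (hj : j ≠ 0) : IsPt N ((j.val : ℚ) / N) := by
  have hN : (0 : ℚ) < N := by exact_mod_cast Nat.pos_of_ne_zero (NeZero.ne N)
  have h0 : 0 < j.val := Nat.pos_of_ne_zero fun h => hj ((ZMod.val_eq_zero j).1 h)
  have h1 : (j.val : ℚ) < N := by exact_mod_cast ZMod.val_lt j
  have h2 : (0 : ℚ) < j.val := by exact_mod_cast h0
  refine ⟨by positivity, (div_lt_one hN).2 h1, j.val, ?_⟩
  rw [mul_div_cancel₀ _ hN.ne']
  simp

theorem fd_lft {f : ℚ → ℚ} (hf : OddDist N f) : FD (lft (N := N) f) := by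
  have hN0 : 0 < N := Nat.pos_of_ne_zero (NeZero.ne N)
  have hN : (0 : ℚ) < N := by exact_mod_cast hN0
  have hodd : ∀ j : ZMod N, lft (N := N) f (-j) = -lft (N := N) f j := by
    intro j
    unfold lft
    by_cases hj : j = 0
    · simp [hj]
    · rw [if_neg hj, if_neg (neg_ne_zero.2 hj)]
      have : NeZero j := ⟨hj⟩
      have h1 : (-j).val = N - j.val := ZMod.val_neg_of_ne_zero j
      have h2 := hf.odd _ (isPt_val hj)
      have h3 : (((-j).val : ℚ)) / N = 1 - (j.val : ℚ) / N := by
        rw [h1, Nat.cast_sub (ZMod.val_lt j).le]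
        field_simp
      rw [h3, h2]
      push_cast
      ring
  refine ⟨hodd, ?_⟩
  intro p hp hpN j
  obtain ⟨M, hM⟩ := hpN
  have hM0 : 0 < M := Nat.pos_of_ne_zero fun h => by rw [h, mul_zero] at hM; omega
  have hpq : (0 : ℚ) < p := by exact_mod_cast hp.pos
  by_cases h0 : (p : ZMod N) * j = 0
  · -- both sides vanish
    rw [h0]
    have h1 : ∑ z ∈ univ.filter (fun z : ZMod N => (p : ZMod N) * z = 0), lft (N := N) f z =
        -∑ z ∈ univ.filter (fun z : ZMod N => (p : ZMod N) * z = 0), lft (N := N) f z := by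
      rw [← sum_neg_distrib]
      refine sum_bij (fun z _ => -z) ?_ ?_ ?_ ?_
      · intro z hz
        rw [mem_filter] at hz ⊢
        exact ⟨mem_univ _, by rw [mul_neg, hz.2, neg_zero]⟩
      · intro z _ z' _ h
        exact neg_injective h
      · intro w hw
        rw [mem_filter] at hw
        exact ⟨-w, by rw [mem_filter]; exact ⟨mem_univ _, by rw [mul_neg, hw.2, neg_zero]⟩, neg_neg w⟩
      · intro z _
        rw [hodd, neg_neg]
    rw [self_eq_neg.1 h1]
    simp [lft]
  · -- the class of `p j`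
    obtain ⟨x, hx⟩ : ∃ x : ZMod N, x = (p : ZMod N) * j := ⟨_, rfl⟩
    rw [← hx] at h0 ⊢
    obtain ⟨y, hy⟩ : p ∣ x.val := by
      have h1 : ((x.val : ℕ) : ZMod N) = ((p * j.val : ℕ) : ZMod N) := by
        push_cast
        rw [ZMod.natCast_zmod_val, ZMod.natCast_zmod_val, hx]
      rw [ZMod.natCast_eq_natCast_iff] at h1
      have h2 : x.val ≡ p * j.val [MOD p] := h1.of_dvd ⟨M, hM⟩
      have h3 : x.val ≡ 0 [MOD p] := h2.trans (by simp [Nat.ModEq])
      exact Nat.modEq_zero_iff_dvd.1 h3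
    have hyM : y < M := by
      have h1 := ZMod.val_lt x
      rw [hy] at h1
      have h2 : p * y < p * M := by omega
      exact lt_of_mul_lt_mul_left h2 (Nat.zero_le p)
    have hlt : ∀ k < p, y + k * M < N := by
      intro k hk
      calc y + k * M < M + k * M := by omega
        _ = (k + 1) * M := by ring
        _ ≤ p * M := Nat.mul_le_mul_right M hk
        _ = N := hM.symm
    have hval : ∀ k < p, ((y + k * M : ℕ) : ZMod N).val = y + k * M := fun k hk =>
      ZMod.val_natCast_of_lt (hlt k hk)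
    have hmul : ∀ k < p, (p : ZMod N) * ((y + k * M : ℕ) : ZMod N) = x := by
      intro k _
      rw [← Nat.cast_mul]
      have e : p * (y + k * M) = x.val + k * N := by
        calc p * (y + k * M) = p * y + k * (p * M) := by ring
          _ = x.val + k * N := by rw [← hy, ← hM]
      rw [e]
      push_cast
      rw [ZMod.natCast_zmod_val, ZMod.natCast_self, mul_zero, add_zero]
    have hne : ∀ k < p, ((y + k * M : ℕ) : ZMod N) ≠ 0 := by
      intro k hk h
      have := hmul k hk
      rw [h, mul_zero] at this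
      exact h0 this.symm
    have hpt : ∀ k < p, (((x.val : ℚ) / N + k) / p) = (((y + k * M : ℕ) : ZMod N).val : ℚ) / N := by
      intro k hk
      rw [hval k hk, hy]
      have hNq : (N : ℚ) = p * M := by exact_mod_cast hM
      have hMq : (M : ℚ) ≠ 0 := by exact_mod_cast hM0.ne'
      rw [hNq]
      push_cast
      field_simp
    have h1 := hf.dist p hp.pos _ (isPt_val h0) (fun k hk => by
      rw [hpt k hk]
      exact isPt_val (hne k hk))
    have h2 : ∑ k ∈ range p, lft (N := N) f ((y + k * M : ℕ) : ZMod N) = lft (N := N) f x := by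
      have h3 : ∀ k ∈ range p, lft (N := N) f ((y + k * M : ℕ) : ZMod N) =
          ((f (((x.val : ℚ) / N + k) / p) : ℚ) : ℂ) := by
        intro k hk
        unfold lft
        rw [if_neg (hne k (mem_range.1 hk)), hpt k (mem_range.1 hk)]
      rw [sum_congr rfl h3]
      unfold lft
      rw [if_neg h0, ← h1]
      push_cast
      rfl
    rw [← h2]
    symm
    refine sum_bij (fun k _ => ((y + k * M : ℕ) : ZMod N)) ?_ ?_ ?_ ?_
    · intro k hk
      rw [mem_filter]
      exact ⟨mem_univ _, hmul k (mem_range.1 hk)⟩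
    · intro k hk k' hk' h
      have h3 := congrArg ZMod.val h
      rw [hval k (mem_range.1 hk), hval k' (mem_range.1 hk')] at h3
      have h4 : k * M = k' * M := by omega
      exact Nat.eq_of_mul_eq_mul_right hM0 h4
    · intro z hz
      rw [mem_filter] at hz
      have h3 : ((p * z.val : ℕ) : ZMod N) = ((x.val : ℕ) : ZMod N) := by
        push_cast
        rw [ZMod.natCast_zmod_val, ZMod.natCast_zmod_val]
        exact hz.2
      rw [ZMod.natCast_eq_natCast_iff, hy] at h3
      have h4 : p * z.val ≡ p * y [MOD (p * M)] := by rw [← hM]; exact h3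
      have h5 : z.val ≡ y [MOD M] := Nat.ModEq.mul_left_cancel' hp.ne_zero h4
      have h6 : z.val % M = y := by
        rw [h5, Nat.mod_eq_of_lt hyM]
      have h7 : z.val / M < p := by
        rw [Nat.div_lt_iff_lt_mul hM0, ← hM]
        exact ZMod.val_lt z
      refine ⟨z.val / M, mem_range.2 h7, ?_⟩
      have h8 : y + z.val / M * M = z.val := by
        rw [← h6, mul_comm]
        exact Nat.mod_add_div _ _
      rw [h8, ZMod.natCast_zmod_val]
    · intro k _
      rfl

theorem lft_saw {j : ZMod N} (hj : j ≠ 0) :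
    lft (N := N) (saw 1) j = ((j.val : ℂ) / N - 1 / 2) := by
  have hN : (0 : ℚ) < N := by exact_mod_cast Nat.pos_of_ne_zero (NeZero.ne N)
  have h1 := isPt_val hj
  unfold lft
  rw [if_neg hj]
  have h2 : saw 1 ((j.val : ℚ) / N) = (j.val : ℚ) / N - 1 / 2 := by
    unfold saw
    rw [Nat.cast_one, one_mul, Int.fract_eq_self.2 ⟨h1.1.le, h1.2.1⟩]
  rw [h2]
  push_cast
  ring

/-- sum over the units of a smaller level -/
theorem sum_unitsMap {m : ℕ} [NeZero m] (hm : m ∣ N) (g : (ZMod m)ˣ → ℂ) : ∃ c : ℕ, c ≠ 0 ∧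
    ∑ t : (ZMod N)ˣ, g (ZMod.unitsMap hm t) = c * ∑ s : (ZMod m)ˣ, g s := by
  classical
  refine ⟨(univ.filter fun t : (ZMod N)ˣ => ZMod.unitsMap hm t = 1).card, ?_, ?_⟩
  · have : (1 : (ZMod N)ˣ) ∈ univ.filter fun t : (ZMod N)ˣ => ZMod.unitsMap hm t = 1 := by simp
    exact (card_pos.2 ⟨_, this⟩).ne'
  · rw [mul_sum, ← sum_fiberwise univ (ZMod.unitsMap hm)]
    refine sum_congr rfl fun s _ => ?_
    have h1 : ∀ t ∈ univ.filter (fun t : (ZMod N)ˣ => ZMod.unitsMap hm t = s),
        g (ZMod.unitsMap hm t) = g s := fun t ht => by rw [(mem_filter.1 ht).2]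
    rw [sum_congr rfl h1, sum_const, nsmul_eq_mul]
    congr 2
    exact MonoidHom.card_fiber_eq_of_mem_range (ZMod.unitsMap hm)
      (ZMod.unitsMap_surjective hm s) (ZMod.unitsMap_surjective hm 1)

theorem sum_units {m : ℕ} [NeZero m] (F : ZMod m → ℂ) (h : ∀ x, ¬ IsUnit x → F x = 0) :
    ∑ s : (ZMod m)ˣ, F s = ∑ x : ZMod m, F x := by
  classical
  have h1 : ∑ s : (ZMod m)ˣ, F s = ∑ x ∈ univ.image (fun s : (ZMod m)ˣ => (s : ZMod m)), F x := by
    rw [sum_image]
    intro s _ t _ hst
    exact Units.ext hst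
  rw [h1]
  apply sum_subset (subset_univ _)
  intro x _ hx
  apply h
  intro hu
  apply hx
  rw [mem_image]
  exact ⟨hu.unit, mem_univ _, hu.unit_spec⟩

theorem saw_prim {χ : DirichletCharacter ℂ N} (ho : χ.Odd) {M : ℕ} (hM : M * χ.conductor = N) :
    iso χ (lft (N := N) (saw 1)) M ≠ 0 := by
  have : NeZero χ.conductor := ⟨χ.conductor_ne_zero⟩
  have hN0 : 0 < N := Nat.pos_of_ne_zero (NeZero.ne N)
  have hm1 : χ.conductor ≠ 1 := by
    intro h
    rw [← χ.eq_one_iff_conductor_eq_one] at h
    rw [DirichletCharacter.Odd, h, MulChar.one_apply (by exact isUnit_neg_one)] at ho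
    norm_num at ho
  have hmN : χ.conductor ∣ N := χ.conductor_dvd_level
  have hM0 : 0 < M := Nat.pos_of_ne_zero fun h => by rw [h, zero_mul] at hM; omega
  have hm0 : 0 < χ.conductor := Nat.pos_of_ne_zero χ.conductor_ne_zero
  have hodd : χ.primitiveCharacter.Odd := by
    have h1 : IsCoprime (-1 : ℤ) (N : ℤ) := isCoprime_one_left.neg_left
    have h2 := χ.primitiveCharacter_apply_of_isCoprime h1
    rw [Int.cast_neg, Int.cast_one, Int.cast_neg, Int.cast_one] at h2
    rw [DirichletCharacter.Odd, h2, ho]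
  have hB := Helper52.Fermat.B1_ne_prim χ.primitiveCharacter_isPrimitive hodd
  -- the terms
  have hterm : ∀ t : (ZMod N)ˣ, χ t * lft (N := N) (saw 1) (t * (M : ZMod N)) =
      (fun s : (ZMod χ.conductor)ˣ => χ.primitiveCharacter s *
        ((Helper29.Rohr.saw (s : ZMod χ.conductor) : ℝ) : ℂ)) (ZMod.unitsMap hmN t) := by
    intro t
    have h1 : χ t = χ.primitiveCharacter (ZMod.unitsMap hmN t) := by
      have h2 := DirichletCharacter.changeLevel_eq_cast_of_dvd χ.primitiveCharacter hmN t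
      rw [χ.changeLevel_primitiveCharacter] at h2
      rw [h2, ZMod.unitsMap_val]
    have h3 : ((ZMod.unitsMap hmN t : (ZMod χ.conductor)ˣ) : ZMod χ.conductor).val =
        (t : ZMod N).val % χ.conductor := by
      rw [ZMod.unitsMap_val, ZMod.cast_eq_val, ZMod.val_natCast]
    have h4 : (t : ZMod N) * (M : ZMod N) = ((((t : ZMod N).val % χ.conductor) * M : ℕ) : ZMod N) := by
      have h5 : (t : ZMod N).val * M ≡ (((t : ZMod N).val % χ.conductor) * M) [MOD N] := by
        have h6 : (t : ZMod N).val ≡ (t : ZMod N).val % χ.conductor [MOD χ.conductor] :=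
          (Nat.mod_modEq _ _).symm
        have h7 := h6.mul_right' M
        rwa [mul_comm χ.conductor M, hM] at h7
      rw [← ZMod.natCast_eq_natCast_iff] at h5
      rw [← h5]
      push_cast
      rw [ZMod.natCast_zmod_val]
    have hs0 : (t : ZMod N).val % χ.conductor ≠ 0 := by
      intro h
      have h5 : χ.conductor ∣ (t : ZMod N).val := Nat.dvd_of_mod_eq_zero h
      have h6 := ZMod.val_coe_unit_coprime t
      have h7 : χ.conductor ∣ Nat.gcd (t : ZMod N).val N := Nat.dvd_gcd h5 hmN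
      rw [h6] at h7
      exact hm1 (Nat.dvd_one.1 h7)
    have hslt : (t : ZMod N).val % χ.conductor < χ.conductor := Nat.mod_lt _ hm0
    have hlt : ((t : ZMod N).val % χ.conductor) * M < N := by
      calc ((t : ZMod N).val % χ.conductor) * M < χ.conductor * M :=
            Nat.mul_lt_mul_of_pos_right hslt hM0
        _ = N := by rw [mul_comm]; exact hM
    have hval : ((((t : ZMod N).val % χ.conductor) * M : ℕ) : ZMod N).val =
        ((t : ZMod N).val % χ.conductor) * M := ZMod.val_natCast_of_lt hlt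
    have hne : ((((t : ZMod N).val % χ.conductor) * M : ℕ) : ZMod N) ≠ 0 := by
      intro h
      have h5 := hval
      rw [h, ZMod.val_zero] at h5
      have := Nat.mul_ne_zero hs0 hM0.ne'
      exact this h5.symm
    rw [h4, lft_saw hne, hval, h1]
    simp only
    congr 1
    unfold Helper29.Rohr.saw
    rw [h3]
    have hNc : (N : ℂ) = M * χ.conductor := by exact_mod_cast hM.symm
    have hMc : (M : ℂ) ≠ 0 := by exact_mod_cast hM0.ne'
    have hmc : (χ.conductor : ℂ) ≠ 0 := by exact_mod_cast hm0.ne'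
    have hq : (((((t : ZMod N).val % χ.conductor) * M : ℕ) : ℂ)) / N =
        (((t : ZMod N).val % χ.conductor : ℕ) : ℂ) / χ.conductor := by
      rw [hNc]
      push_cast
      field_simp
    rw [hq]
    push_cast
    ring
  unfold iso
  rw [sum_congr rfl fun t _ => hterm t]
  obtain ⟨c, hc, h⟩ := sum_unitsMap hmN (fun s : (ZMod χ.conductor)ˣ => χ.primitiveCharacter s *
        ((Helper29.Rohr.saw (s : ZMod χ.conductor) : ℝ) : ℂ))
  rw [h, sum_units (fun x : ZMod χ.conductor => χ.primitiveCharacter x *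
        ((Helper29.Rohr.saw x : ℝ) : ℂ)) (fun x hx => by rw [MulChar.map_nonunit _ hx, zero_mul])]
  exact mul_ne_zero (by exact_mod_cast hc) hB

/-- **Koblitz-Ogus, linear algebra.** -/
theorem ko_rat {f : ℚ → ℚ} (hf : OddDist N f) {ι : Type*} (s : Finset ι) (c : ι → ℚ) (x : ι → ℚ)
    (hx : ∀ i ∈ s, IsPt N (x i))
    (h : ∀ m : ℕ, Nat.Coprime m N → ∑ i ∈ s, c i * saw m (x i) = 0) :
    ∑ i ∈ s, c i * f (x i) = 0 := by
  classical
  have hN0 : 0 < N := Nat.pos_of_ne_zero (NeZero.ne N)
  have hN : (0 : ℚ) < N := by exact_mod_cast hN0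
  have hk : ∀ i, ∃ k : ℕ, i ∈ s → 0 < k ∧ k < N ∧ x i = (k : ℚ) / N := by
    intro i
    by_cases hi : i ∈ s
    · obtain ⟨h0, h1, z, hz⟩ := hx i hi
      have h2 : (0 : ℚ) < z := by rw [← hz]; positivity
      have h3 : (z : ℚ) < N := by rw [← hz]; exact mul_lt_of_lt_one_right hN h1
      have h4 : 0 < z := by exact_mod_cast h2
      have h5 : z < N := by exact_mod_cast h3
      obtain ⟨j, rfl⟩ : ∃ j : ℕ, z = j := ⟨z.toNat, (Int.toNat_of_nonneg h4.le).symm⟩
      refine ⟨j, fun _ => ⟨by exact_mod_cast h4, by exact_mod_cast h5, ?_⟩⟩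
      rw [eq_div_iff hN.ne', mul_comm]
      exact_mod_cast hz
    · exact ⟨0, fun h => absurd h hi⟩
  choose k hk using hk
  have hval : ∀ i ∈ s, ((k i : ℕ) : ZMod N).val = k i := fun i hi =>
    ZMod.val_natCast_of_lt (hk i hi).2.1
  have hne : ∀ i ∈ s, ((k i : ℕ) : ZMod N) ≠ 0 := by
    intro i hi h0
    have h1 := hval i hi
    rw [h0, ZMod.val_zero] at h1
    have := (hk i hi).1
    omega
  have key := fd_span (S := lft (N := N) (saw 1)) (F := lft (N := N) f)
    (fd_lft (saw_oddDist hN0 (Nat.coprime_one_left N))) (fd_lft hf)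
    (fun χ ho M hM => saw_prim ho hM) s (fun i => (c i : ℂ)) (fun i => ((k i : ℕ) : ZMod N)) (by
      intro t
      have h1 := h (t : ZMod N).val (ZMod.val_coe_unit_coprime t)
      have h2 : ∀ i ∈ s, (c i : ℂ) * lft (N := N) (saw 1) ((t : ZMod N) * ((k i : ℕ) : ZMod N)) =
          ((c i * saw (t : ZMod N).val (x i) : ℚ) : ℂ) := by
        intro i hi
        have h3 : (t : ZMod N) * ((k i : ℕ) : ZMod N) ≠ 0 := by
          intro h4
          exact hne i hi (by
            have h5 : (((t⁻¹ : (ZMod N)ˣ) : ZMod N)) * ((t : ZMod N) * ((k i : ℕ) : ZMod N)) = 0 := by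
              rw [h4, mul_zero]
            rwa [← mul_assoc, Units.inv_mul, one_mul] at h5)
        rw [lft_saw h3]
        have h4 : ((t : ZMod N) * ((k i : ℕ) : ZMod N)).val = ((t : ZMod N).val * k i) % N := by
          rw [ZMod.val_mul, hval i hi]
        have h5 : saw (t : ZMod N).val (x i) = (((((t : ZMod N).val * k i) % N : ℕ) : ℚ)) / N - 1 / 2 := by
          unfold saw
          congr 1
          rw [Int.fract_eq_iff]
          refine ⟨by positivity, ?_, (((t : ZMod N).val * k i) / N : ℕ), ?_⟩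
          · rw [div_lt_one hN]
            exact_mod_cast Nat.mod_lt _ hN0
          · rw [(hk i hi).2.2]
            have h6 : (((t : ZMod N).val * k i : ℕ) : ℚ) =
                N * (((t : ZMod N).val * k i) / N : ℕ) + (((t : ZMod N).val * k i) % N : ℕ) := by
              exact_mod_cast (Nat.div_add_mod _ N).symm
            have h7 : ((t : ZMod N).val : ℚ) * ((k i : ℚ) / N) =
                (((t : ZMod N).val * k i : ℕ) : ℚ) / N := by push_cast; ring
            rw [h7, h6, Int.cast_natCast]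
            field_simp
            ring
        rw [h4, h5]
        push_cast
        ring
      rw [sum_congr rfl h2, ← Rat.cast_sum, h1, Rat.cast_zero])
  have h3 : ∀ i ∈ s, (c i : ℂ) * lft (N := N) f ((k i : ℕ) : ZMod N) = ((c i * f (x i) : ℚ) : ℂ) := by
    intro i hi
    unfold lft
    rw [if_neg (hne i hi), hval i hi, ← (hk i hi).2.2]
    push_cast
    ring
  rw [sum_congr rfl h3, ← Rat.cast_sum] at key
  exact_mod_cast key

end

theorem _root_.Pool.Agent.Helper99.Rohr.OddDist.comp {A B : Type} [AddCommGroup A] [AddCommGroup B]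
    {N : ℕ} {f : ℚ → A} (hf : OddDist N f) (φ : A →+ B) : OddDist N (fun x => φ (f x)) := by
  constructor
  · intro x hx
    rw [hf.odd x hx, map_neg]
  · intro n hn x hx hk
    rw [← map_sum, hf.dist n hn x hx hk]

/-- `LogAlg` as a rational vector space -/
def LogAlgQ : Submodule ℚ ℝ where
  carrier := LogAlg
  add_mem' := fun ha hb => LogAlg.add_mem ha hb
  zero_mem' := LogAlg.zero_mem
  smul_mem' := by
    intro q x hx
    have hx' : x ∈ LogAlg := hx
    show q • x ∈ LogAlg
    apply LogAlg_div q.pos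
    have h1 : (q.den : ℝ) * (q • x) = q.num • x := by
      have h2 : (q.den : ℝ) * (q : ℝ) = q.num := by
        have h3 : (q.den : ℚ) * q = q.num := by
          rw [mul_comm]
          exact Rat.mul_den_eq_num q
        exact_mod_cast h3
      rw [Rat.smul_def, ← mul_assoc, h2, zsmul_eq_mul]
    rw [h1]
    exact LogAlg.zsmul_mem hx' _

theorem mem_LogAlgQ {x : ℝ} : x ∈ LogAlgQ ↔ x ∈ LogAlg := Iff.rfl

/-- **Koblitz-Ogus for gamma values.** -/
theorem ko {N : ℕ} (hN : 0 < N) {ι : Type*} (s : Finset ι) (c : ι → ℚ) (x : ι → ℚ)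
    (hx : ∀ i ∈ s, IsPt N (x i))
    (h : ∀ m : ℕ, Nat.Coprime m N → ∑ i ∈ s, c i * saw m (x i) = 0) :
    ∑ i ∈ s, (c i : ℝ) * lg (x i) ∈ LogAlg := by
  have : NeZero N := ⟨hN.ne'⟩
  by_contra hcon
  rw [← mem_LogAlgQ] at hcon
  obtain ⟨φ, hφ1, hφ2⟩ := Submodule.exists_le_ker_of_notMem hcon
  have hle : LogAlg ≤ φ.toAddMonoidHom.ker := by
    intro y hy
    exact hφ2 hy
  let ψ : ℝ ⧸ LogAlg →+ ℚ := QuotientAddGroup.lift LogAlg φ.toAddMonoidHom hle
  have hψ : ∀ y : ℚ, ψ (gam y) = φ (lg y) := fun y => rfl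
  have h1 : OddDist N (fun y => ψ (gam y)) := (gam_oddDist N).comp ψ
  have h2 := ko_rat h1 s c x hx h
  apply hφ1
  rw [map_sum, ← h2]
  refine sum_congr rfl fun i _ => ?_
  rw [hψ]
  have h3 : ((c i : ℝ)) * lg (x i) = c i • lg (x i) := (Rat.smul_def _ _).symm
  rw [h3, map_smul, smul_eq_mul]

end Pool.Agent.ROH8
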