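import Mathlib

/-!
ROH8-P1 (pure real analysis, Mathlib only): the half period as an integral.

Change of variables.
-/

set_option autoImplicit false

namespace Pool.Agent.ROH8

open MeasureTheory

theorem stage1 {p d : ℝ → ℝ} {ρ : ℝ} (hρ : 0 < ρ)
    (hd : ∀ x, 0 < x → x < ρ / 2 → HasDerivAt p (d x) x)
    (hneg : ∀ x, 0 < x → x < ρ / 2 → d x < 0)
    (him : p '' Set.Ioo 0 (ρ / 2) = Set.Ioi (4 / 3))
    (hsq : ∀ x, 0 < x → x < ρ / 2 → d x ^ 2 = 4 * p x ^ 3 - 40 / 3 * p x + 224 / 27) :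
    ∫ x in Set.Ioi (0 : ℝ), 1 / Real.sqrt (x ^ 4 + 4 * x ^ 2 + 2) = ρ / 2 := by
  have hp : ∀ x, 0 < x → x < ρ / 2 → 4 / 3 < p x := fun x h1 h2 => by
    have h3 : p x ∈ Set.Ioi (4 / 3 : ℝ) := by
      rw [← him]
      exact ⟨x, ⟨h1, h2⟩, rfl⟩
    exact h3
  have hanti : StrictAntiOn p (Set.Ioo 0 (ρ / 2)) := by
    refine strictAntiOn_of_deriv_neg (convex_Ioo 0 (ρ / 2)) ?_ ?_
    · exact fun x hx => (hd x hx.1 hx.2).continuousAt.continuousWithinAt
    · intro x hx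
      rw [interior_Ioo] at hx
      rw [(hd x hx.1 hx.2).deriv]
      exact hneg x hx.1 hx.2
  have hinj : Set.InjOn (fun x => Real.sqrt (p x - 4 / 3)) (Set.Ioo 0 (ρ / 2)) := by
    intro x hx y hy hxy
    have h1 := hp x hx.1 hx.2
    have h2 := hp y hy.1 hy.2
    have h3 : p x - 4 / 3 = p y - 4 / 3 := (Real.sqrt_inj (by linarith) (by linarith)).1 hxy
    exact hanti.injOn hx hy (by linarith)
  have himg : (fun x => Real.sqrt (p x - 4 / 3)) '' Set.Ioo 0 (ρ / 2) = Set.Ioi 0 := by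
    ext y
    constructor
    · rintro ⟨x, hx, rfl⟩
      exact Real.sqrt_pos.2 (by linarith [hp x hx.1 hx.2])
    · intro hy
      have hy' : 0 < y := hy
      have h1 : y ^ 2 + 4 / 3 ∈ p '' Set.Ioo 0 (ρ / 2) := by
        rw [him]
        show (4 / 3 : ℝ) < y ^ 2 + 4 / 3
        have := pow_pos hy' 2
        linarith
      obtain ⟨x, hx, h2⟩ := h1
      refine ⟨x, hx, ?_⟩
      show Real.sqrt (p x - 4 / 3) = y
      rw [h2, add_sub_cancel_right, Real.sqrt_sq hy'.le]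
  have hder : ∀ x ∈ Set.Ioo 0 (ρ / 2), HasDerivWithinAt (fun x => Real.sqrt (p x - 4 / 3))
      (d x / (2 * Real.sqrt (p x - 4 / 3))) (Set.Ioo 0 (ρ / 2)) x := by
    intro x hx
    have h1 := hp x hx.1 hx.2
    exact (((hd x hx.1 hx.2).sub_const (4 / 3)).sqrt (by linarith)).hasDerivWithinAt
  rw [← himg, integral_image_eq_integral_abs_deriv_smul measurableSet_Ioo hder hinj]
  have hone : ∀ x ∈ Set.Ioo 0 (ρ / 2), |d x / (2 * Real.sqrt (p x - 4 / 3))| •
      (1 / Real.sqrt (Real.sqrt (p x - 4 / 3) ^ 4 + 4 * Real.sqrt (p x - 4 / 3) ^ 2 + 2)) = 1 := by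
    intro x hx
    have h1 := hp x hx.1 hx.2
    set s := Real.sqrt (p x - 4 / 3) with hs
    have h2 : 0 < s := Real.sqrt_pos.2 (by linarith)
    have h3 : s ^ 2 = p x - 4 / 3 := Real.sq_sqrt (by linarith)
    have h4 : d x ^ 2 = (2 * s) ^ 2 * (s ^ 4 + 4 * s ^ 2 + 2) := by
      rw [hsq x hx.1 hx.2]
      have h5 : p x = s ^ 2 + 4 / 3 := by linarith
      rw [h5]
      ring
    have h6 : 0 < s ^ 4 + 4 * s ^ 2 + 2 := by positivity
    have h7 : |d x| = 2 * s * Real.sqrt (s ^ 4 + 4 * s ^ 2 + 2) := by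
      rw [← Real.sqrt_sq_eq_abs, h4, Real.sqrt_mul (by positivity), Real.sqrt_sq (by positivity)]
    have h8 : 0 < Real.sqrt (s ^ 4 + 4 * s ^ 2 + 2) := Real.sqrt_pos.2 h6
    rw [smul_eq_mul, abs_div, h7, abs_of_pos (show 0 < 2 * s by positivity)]
    field_simp
  rw [setIntegral_congr_fun measurableSet_Ioo hone, setIntegral_const, smul_eq_mul, mul_one,
    Real.volume_real_Ioo_of_le (by positivity), sub_zero]

end Pool.Agent.ROH8
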