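import Mathlib

/-!
ROH8-P2 (pure real analysis, Mathlib only): the substitution `x = s - 1/s`.
-/

set_option autoImplicit false

namespace Pool.Agent.ROH8

open MeasureTheory

private theorem p2_img : (fun s : ℝ => s - s⁻¹) '' Set.Ioi 1 = Set.Ioi 0 := by
  ext x
  simp only [Set.mem_image, Set.mem_Ioi]
  constructor
  · rintro ⟨s, hs, rfl⟩
    have h1 : s⁻¹ < 1 := inv_lt_one_of_one_lt₀ hs
    linarith
  · intro hx
    have h0 : (0 : ℝ) ≤ x ^ 2 + 4 := by positivity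
    have h1 : Real.sqrt (x ^ 2 + 4) * Real.sqrt (x ^ 2 + 4) = x ^ 2 + 4 := Real.mul_self_sqrt h0
    have h2 : 2 < Real.sqrt (x ^ 2 + 4) := by
      rw [Real.lt_sqrt (by norm_num)]
      nlinarith
    refine ⟨(x + Real.sqrt (x ^ 2 + 4)) / 2, by linarith, ?_⟩
    have h3 : (x + Real.sqrt (x ^ 2 + 4)) / 2 ≠ 0 := by
      have : 0 < (x + Real.sqrt (x ^ 2 + 4)) / 2 := by linarith
      exact this.ne'
    have h4 : ((x + Real.sqrt (x ^ 2 + 4)) / 2)⁻¹ = (Real.sqrt (x ^ 2 + 4) - x) / 2 := by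
      refine inv_eq_of_mul_eq_one_right ?_
      linear_combination h1 / 4
    rw [h4]
    ring

private theorem p2_pt {s : ℝ} (hs : 1 < s) :
    |1 + (s ^ 2)⁻¹| • (1 / Real.sqrt ((s - s⁻¹) ^ 4 + 4 * (s - s⁻¹) ^ 2 + 2)) = (1 + s ^ 2) / Real.sqrt (1 + s ^ 8) := by
  have h0 : 0 < s := by linarith
  have h1 : (s - s⁻¹) ^ 4 + 4 * (s - s⁻¹) ^ 2 + 2 = (1 + s ^ 8) / (s ^ 2) ^ 2 := by
    field_simp
    ring
  have h2 : 0 < Real.sqrt (1 + s ^ 8) := Real.sqrt_pos.2 (by positivity)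
  rw [h1, Real.sqrt_div (by positivity), Real.sqrt_sq (by positivity), abs_of_pos (by positivity), smul_eq_mul]
  field_simp
  ring

theorem stage2 : ∫ x in Set.Ioi (0 : ℝ), 1 / Real.sqrt (x ^ 4 + 4 * x ^ 2 + 2) =
    ∫ s in Set.Ioi (1 : ℝ), (1 + s ^ 2) / Real.sqrt (1 + s ^ 8) := by
  have hd : ∀ s ∈ Set.Ioi (1 : ℝ), HasDerivWithinAt (fun s : ℝ => s - s⁻¹) (1 + (s ^ 2)⁻¹) (Set.Ioi 1) s := by
    intro s hs
    have h0 : s ≠ 0 := by
      have : (1 : ℝ) < s := hs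
      intro h
      linarith
    have h1 := (hasDerivAt_id s).sub (hasDerivAt_inv h0)
    have h2 : (1 : ℝ) - -(s ^ 2)⁻¹ = 1 + (s ^ 2)⁻¹ := by ring
    rw [h2] at h1
    exact h1.hasDerivWithinAt
  have hi : Set.InjOn (fun s : ℝ => s - s⁻¹) (Set.Ioi 1) := by
    intro a ha b hb hab
    have ha1 : (1 : ℝ) < a := ha
    have hb1 : (1 : ℝ) < b := hb
    have hab1 : a - a⁻¹ = b - b⁻¹ := hab
    have ha0 : a ≠ 0 := by intro h; linarith
    have hb0 : b ≠ 0 := by intro h; linarith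
    have h1 : (a - b) * (a * b + 1) = 0 := by
      field_simp at hab1
      linear_combination hab1
    rcases mul_eq_zero.1 h1 with h2 | h2
    · linarith
    · nlinarith
  have h := integral_image_eq_integral_abs_deriv_smul measurableSet_Ioi hd hi
    (fun x : ℝ => 1 / Real.sqrt (x ^ 4 + 4 * x ^ 2 + 2))
  rw [p2_img] at h
  rw [h]
  exact setIntegral_congr_fun measurableSet_Ioi fun s hs => p2_pt hs

end Pool.Agent.ROH8
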