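import Pool.Agent.ROH.LBeta

/-!
ROH8-P3 (pure real analysis): the Beta integral `B(1/8, 3/8)`, split at `1/2`; substitutions `t = s^8 / (1 + s^8)` on
`(1/2, 1)` and `t = 1 / (1 + s^8)` on `(0, 1/2)`, with `s ∈ (1, ∞)`.
-/

set_option autoImplicit false

namespace Pool.Agent.ROH8

open MeasureTheory Pool.Agent.ROH

private lemma p3_root {y : ℝ} (hy : 1 < y) : ∃ s : ℝ, 1 < s ∧ s ^ 8 = y := by
  refine ⟨y ^ (((8 : ℕ) : ℝ)⁻¹), Real.one_lt_rpow hy (by norm_num), ?_⟩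
  exact Real.rpow_inv_natCast_pow (by linarith) (by norm_num)

private lemma p3_one_lt {s : ℝ} (hs : 1 < s) : 1 < s ^ 8 := one_lt_pow₀ hs (by norm_num)

private lemma p3_inj : Set.InjOn (fun s : ℝ => 1 / (1 + s ^ 8)) (Set.Ioi 1) := by
  intro s hs t ht h
  have hs1 : (1 : ℝ) < s := hs
  have ht1 : (1 : ℝ) < t := ht
  have h1 := p3_one_lt hs1
  have h2 := p3_one_lt ht1
  have h3 : (1 : ℝ) / (1 + s ^ 8) = 1 / (1 + t ^ 8) := h
  rw [div_eq_div_iff (by linarith) (by linarith)] at h3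
  have h4 : s ^ 8 = t ^ 8 := by linarith
  exact (pow_left_inj₀ (by linarith) (by linarith) (by norm_num)).1 h4

private lemma p3_inj' : Set.InjOn (fun s : ℝ => s ^ 8 / (1 + s ^ 8)) (Set.Ioi 1) := by
  intro s hs t ht h
  have hs1 : (1 : ℝ) < s := hs
  have ht1 : (1 : ℝ) < t := ht
  have h1 := p3_one_lt hs1
  have h2 := p3_one_lt ht1
  have h3 : s ^ 8 / (1 + s ^ 8) = t ^ 8 / (1 + t ^ 8) := h
  rw [div_eq_div_iff (by linarith) (by linarith)] at h3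
  have h4 : s ^ 8 = t ^ 8 := by nlinarith
  exact (pow_left_inj₀ (by linarith) (by linarith) (by norm_num)).1 h4

private lemma p3_image : (fun s : ℝ => 1 / (1 + s ^ 8)) '' Set.Ioi 1 = Set.Ioo 0 (1 / 2) := by
  ext t
  constructor
  · rintro ⟨s, hs, rfl⟩
    have h1 := p3_one_lt (show (1 : ℝ) < s from hs)
    have h2 : (0 : ℝ) < 1 + s ^ 8 := by linarith
    refine ⟨by positivity, ?_⟩
    show 1 / (1 + s ^ 8) < 1 / 2
    rw [div_lt_div_iff₀ h2 (by norm_num)]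
    linarith
  · rintro ⟨h1, h2⟩
    have h3 : 1 < (1 - t) / t := by
      rw [lt_div_iff₀ h1]
      linarith
    obtain ⟨s, hs, hs2⟩ := p3_root h3
    refine ⟨s, hs, ?_⟩
    show 1 / (1 + s ^ 8) = t
    rw [hs2]
    field_simp
    ring

private lemma p3_image' : (fun s : ℝ => s ^ 8 / (1 + s ^ 8)) '' Set.Ioi 1 = Set.Ioo (1 / 2) 1 := by
  ext t
  constructor
  · rintro ⟨s, hs, rfl⟩
    have h1 := p3_one_lt (show (1 : ℝ) < s from hs)
    have h2 : (0 : ℝ) < 1 + s ^ 8 := by linarith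
    constructor
    · show 1 / 2 < s ^ 8 / (1 + s ^ 8)
      rw [div_lt_div_iff₀ (by norm_num) h2]
      linarith
    · show s ^ 8 / (1 + s ^ 8) < 1
      rw [div_lt_one h2]
      linarith
  · rintro ⟨h1, h2⟩
    have h4 : 0 < 1 - t := by linarith
    have h3 : 1 < t / (1 - t) := by
      rw [lt_div_iff₀ h4]
      linarith
    obtain ⟨s, hs, hs2⟩ := p3_root h3
    refine ⟨s, hs, ?_⟩
    show s ^ 8 / (1 + s ^ 8) = t
    rw [hs2]
    field_simp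
    ring

private lemma p3_deriv {s : ℝ} (hs : 1 < s) :
    HasDerivAt (fun s : ℝ => 1 / (1 + s ^ 8)) (-(8 * s ^ 7 / (1 + s ^ 8) ^ 2)) s := by
  have h1 := p3_one_lt hs
  have h2 : (1 : ℝ) + s ^ 8 ≠ 0 := by linarith
  have h3 : HasDerivAt (fun s : ℝ => 1 + s ^ 8) (8 * s ^ 7) s := by
    have := (hasDerivAt_pow 8 s).const_add (1 : ℝ)
    simpa using this
  have h4 := h3.inv h2
  have h5 : (fun s : ℝ => 1 / (1 + s ^ 8)) = (fun s : ℝ => 1 + s ^ 8)⁻¹ := by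
    funext s
    simp
  rw [h5]
  refine h4.congr_deriv ?_
  ring

private lemma p3_deriv' {s : ℝ} (hs : 1 < s) :
    HasDerivAt (fun s : ℝ => s ^ 8 / (1 + s ^ 8)) (8 * s ^ 7 / (1 + s ^ 8) ^ 2) s := by
  have h1 := p3_one_lt hs
  have h2 : (1 : ℝ) + s ^ 8 ≠ 0 := by linarith
  have h3 : HasDerivAt (fun s : ℝ => 1 + s ^ 8) (8 * s ^ 7) s := by
    have := (hasDerivAt_pow 8 s).const_add (1 : ℝ)
    simpa using this
  have h4 := (hasDerivAt_pow 8 s).div h3 h2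
  refine HasDerivAt.congr_deriv (f := fun s : ℝ => s ^ 8 / (1 + s ^ 8)) h4 ?_
  push_cast
  ring

/-- `(s^8)^(-m/8) = s^(-m)` -/
private lemma p3_pow {s : ℝ} (hs : 1 < s) (m : ℕ) : (s ^ 8) ^ (-((m : ℝ) / 8)) = (s ^ m)⁻¹ := by
  have h0 : 0 ≤ s := by linarith
  rw [← Real.rpow_natCast s 8, ← Real.rpow_mul h0, ← Real.rpow_natCast s m, ← Real.rpow_neg h0]
  congr 1
  push_cast
  ring

private lemma p3_sq {A : ℝ} (hA : 0 < A) : A ^ (7 / 8 : ℝ) * A ^ (5 / 8 : ℝ) = A * Real.sqrt A := by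
  rw [← Real.rpow_add hA, Real.sqrt_eq_rpow]
  nth_rewrite 2 [← Real.rpow_one A]
  rw [← Real.rpow_add hA]
  congr 1
  norm_num

private lemma p3_val {s : ℝ} (hs : 1 < s) :
    |(-(8 * s ^ 7 / (1 + s ^ 8) ^ 2))| • ((1 / (1 + s ^ 8)) ^ ((1 / 8 : ℝ) - 1) *
      (1 - 1 / (1 + s ^ 8)) ^ ((3 / 8 : ℝ) - 1)) = 8 * (s ^ 2 / Real.sqrt (1 + s ^ 8)) := by
  have h1 := p3_one_lt hs
  have h0 : 0 < s := by linarith
  set A : ℝ := 1 + s ^ 8 with hA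
  have hA0 : 0 < A := by linarith
  have h2 : 1 - 1 / A = s ^ 8 / A := by
    rw [hA] at hA0 ⊢
    field_simp
    ring
  have e1 : ((1 / 8 : ℝ) - 1) = -(7 / 8) := by norm_num
  have e2 : ((3 / 8 : ℝ) - 1) = -(5 / 8) := by norm_num
  rw [h2, e1, e2, abs_neg, abs_of_pos (by positivity), smul_eq_mul, one_div, Real.inv_rpow hA0.le,
    Real.div_rpow (by positivity) hA0.le, Real.rpow_neg hA0.le, Real.rpow_neg hA0.le, inv_inv]
  have h3 := p3_pow hs 5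
  rw [show (((5 : ℕ) : ℝ) / 8) = 5 / 8 by norm_num] at h3
  rw [h3, div_inv_eq_mul]
  have h4 := p3_sq hA0
  have h5 : 0 < Real.sqrt A := Real.sqrt_pos.2 hA0
  have h6 : Real.sqrt A * Real.sqrt A = A := Real.mul_self_sqrt hA0.le
  have h7 : 8 * s ^ 7 / A ^ 2 * (A ^ (7 / 8 : ℝ) * ((s ^ 5)⁻¹ * A ^ (5 / 8 : ℝ))) =
      8 * s ^ 7 / A ^ 2 * (s ^ 5)⁻¹ * (A ^ (7 / 8 : ℝ) * A ^ (5 / 8 : ℝ)) := by ring
  rw [h7, h4]
  have h8 : A ^ 2 = A * (Real.sqrt A * Real.sqrt A) := by rw [h6]; ring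
  rw [h8]
  field_simp

private lemma p3_val' {s : ℝ} (hs : 1 < s) :
    |8 * s ^ 7 / (1 + s ^ 8) ^ 2| • ((s ^ 8 / (1 + s ^ 8)) ^ ((1 / 8 : ℝ) - 1) *
      (1 - s ^ 8 / (1 + s ^ 8)) ^ ((3 / 8 : ℝ) - 1)) = 8 * (1 / Real.sqrt (1 + s ^ 8)) := by
  have h1 := p3_one_lt hs
  have h0 : 0 < s := by linarith
  set A : ℝ := 1 + s ^ 8 with hA
  have hA0 : 0 < A := by linarith
  have h2 : 1 - s ^ 8 / A = A⁻¹ := by
    rw [hA] at hA0 ⊢
    field_simp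
    ring
  have e1 : ((1 / 8 : ℝ) - 1) = -(7 / 8) := by norm_num
  have e2 : ((3 / 8 : ℝ) - 1) = -(5 / 8) := by norm_num
  rw [h2, e1, e2, abs_of_pos (by positivity), smul_eq_mul, Real.inv_rpow hA0.le,
    Real.div_rpow (by positivity) hA0.le, Real.rpow_neg hA0.le, Real.rpow_neg hA0.le, inv_inv]
  have h3 := p3_pow hs 7
  rw [show (((7 : ℕ) : ℝ) / 8) = 7 / 8 by norm_num] at h3
  rw [h3, div_inv_eq_mul]
  have h4 := p3_sq hA0
  have h5 : 0 < Real.sqrt A := Real.sqrt_pos.2 hA0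
  have h6 : Real.sqrt A * Real.sqrt A = A := Real.mul_self_sqrt hA0.le
  have h7 : 8 * s ^ 7 / A ^ 2 * ((s ^ 7)⁻¹ * A ^ (7 / 8 : ℝ) * A ^ (5 / 8 : ℝ)) =
      8 * s ^ 7 / A ^ 2 * (s ^ 7)⁻¹ * (A ^ (7 / 8 : ℝ) * A ^ (5 / 8 : ℝ)) := by ring
  rw [h7, h4]
  have h8 : A ^ 2 = A * (Real.sqrt A * Real.sqrt A) := by rw [h6]; ring
  rw [h8]
  field_simp

theorem stage3 : Real.Gamma (1 / 8) * Real.Gamma (3 / 8) / Real.Gamma (1 / 2) =
    8 * ∫ s in Set.Ioi (1 : ℝ), (1 + s ^ 2) / Real.sqrt (1 + s ^ 8) := by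
  set φ : ℝ → ℝ := fun t => t ^ ((1 / 8 : ℝ) - 1) * (1 - t) ^ ((3 / 8 : ℝ) - 1) with hφ
  have hB : ∫ t in Set.Ioo (0 : ℝ) 1, φ t =
      Real.Gamma (1 / 8) * Real.Gamma (3 / 8) / Real.Gamma (1 / 2) := by
    rw [hφ, beta_int (1 / 8) (3 / 8) (by norm_num) (by norm_num)]
    norm_num
  have hpos : 0 < Real.Gamma (1 / 8) * Real.Gamma (3 / 8) / Real.Gamma (1 / 2) := by
    have h1 : 0 < Real.Gamma (1 / 8) := Real.Gamma_pos_of_pos (by norm_num)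
    have h2 : 0 < Real.Gamma (3 / 8) := Real.Gamma_pos_of_pos (by norm_num)
    have h3 : 0 < Real.Gamma (1 / 2) := Real.Gamma_pos_of_pos (by norm_num)
    positivity
  have hint : IntegrableOn φ (Set.Ioo 0 1) := by
    by_contra hc
    rw [integral_undef hc] at hB
    exact hpos.ne hB
  have hint1 : IntegrableOn φ (Set.Ioo 0 (1 / 2)) :=
    hint.mono_set (Set.Ioo_subset_Ioo le_rfl (by norm_num))
  have hint2 : IntegrableOn φ (Set.Ico (1 / 2) 1) :=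
    hint.mono_set fun x hx => ⟨by linarith [hx.1], hx.2⟩
  have hint3 : IntegrableOn φ (Set.Ioo (1 / 2) 1) := hint2.mono_set Set.Ioo_subset_Ico_self
  have hsplit : ∫ t in Set.Ioo (0 : ℝ) 1, φ t =
      (∫ t in Set.Ioo (0 : ℝ) (1 / 2), φ t) + ∫ t in Set.Ioo (1 / 2 : ℝ) 1, φ t := by
    have hu : Set.Ioo (0 : ℝ) 1 = Set.Ioo 0 (1 / 2) ∪ Set.Ico (1 / 2) 1 :=
      (Set.Ioo_union_Ico_eq_Ioo (by norm_num) (by norm_num)).symm
    have hd : Disjoint (Set.Ioo (0 : ℝ) (1 / 2)) (Set.Ico (1 / 2) 1) := by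
      rw [Set.disjoint_left]
      intro x hx hx'
      exact absurd hx.2 (not_lt.2 hx'.1)
    rw [hu, setIntegral_union hd measurableSet_Ico hint1 hint2, integral_Ico_eq_integral_Ioo]
  have hd1 : ∀ s ∈ Set.Ioi (1 : ℝ), HasDerivWithinAt (fun s : ℝ => 1 / (1 + s ^ 8))
      (-(8 * s ^ 7 / (1 + s ^ 8) ^ 2)) (Set.Ioi 1) s := fun s hs => (p3_deriv hs).hasDerivWithinAt
  have hd2 : ∀ s ∈ Set.Ioi (1 : ℝ), HasDerivWithinAt (fun s : ℝ => s ^ 8 / (1 + s ^ 8))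
      (8 * s ^ 7 / (1 + s ^ 8) ^ 2) (Set.Ioi 1) s := fun s hs => (p3_deriv' hs).hasDerivWithinAt
  have hI1 : ∫ t in Set.Ioo (0 : ℝ) (1 / 2), φ t =
      ∫ s in Set.Ioi (1 : ℝ), 8 * (s ^ 2 / Real.sqrt (1 + s ^ 8)) := by
    rw [← p3_image, integral_image_eq_integral_abs_deriv_smul measurableSet_Ioi hd1 p3_inj φ]
    exact setIntegral_congr_fun measurableSet_Ioi fun s hs => p3_val hs
  have hI2 : ∫ t in Set.Ioo (1 / 2 : ℝ) 1, φ t =
      ∫ s in Set.Ioi (1 : ℝ), 8 * (1 / Real.sqrt (1 + s ^ 8)) := by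
    rw [← p3_image', integral_image_eq_integral_abs_deriv_smul measurableSet_Ioi hd2 p3_inj' φ]
    exact setIntegral_congr_fun measurableSet_Ioi fun s hs => p3_val' hs
  have hJ1 : IntegrableOn (fun s : ℝ => 8 * (s ^ 2 / Real.sqrt (1 + s ^ 8))) (Set.Ioi 1) := by
    rw [← p3_image, integrableOn_image_iff_integrableOn_abs_deriv_smul measurableSet_Ioi hd1 p3_inj φ] at hint1
    exact hint1.congr_fun (fun s hs => p3_val hs) measurableSet_Ioi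
  have hJ2 : IntegrableOn (fun s : ℝ => 8 * (1 / Real.sqrt (1 + s ^ 8))) (Set.Ioi 1) := by
    rw [← p3_image', integrableOn_image_iff_integrableOn_abs_deriv_smul measurableSet_Ioi hd2 p3_inj' φ] at hint3
    exact hint3.congr_fun (fun s hs => p3_val' hs) measurableSet_Ioi
  rw [← hB, hsplit, hI1, hI2, ← integral_add hJ1 hJ2, ← integral_const_mul]
  refine integral_congr_ae (Filter.Eventually.of_forall fun s => ?_)
  show 8 * (s ^ 2 / Real.sqrt (1 + s ^ 8)) + 8 * (1 / Real.sqrt (1 + s ^ 8)) =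
    8 * ((1 + s ^ 2) / Real.sqrt (1 + s ^ 8))
  ring

end Pool.Agent.ROH8
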