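import Pool.Agent.ROH8.Cm
import Pool.Agent.ROH8.Int8
import Pool.Agent.ROH.LFun
import Pool.Agent.ROH.LMono
import Pool.Agent.ROH.LNon
import Pool.Agent.ROH.LScale
import Pool.Agent.ROH.LConj

/-!
ROH8-Per. The lattice `v (ℤ + ℤ √-2)` with rational invariants (models: ROH/LSq.lean, ROH/LMain.lean).

PLAN. `M1` = the period pair `(-w2/2... )`: let `A` be the period pair with `ω₁ = 1`, `ω₂ = w2` and `B = scale A (1/w2)`; the lattice of `B` is
`{a + b w2/2}` (`1/w2 = -w2/2`), so `RealPer (scale B v) v` for real `v > 0` (least positive real element `v`, stable under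
conjugation). `b := ℘_B(1/2)` is real (`P_conj`) and `℘_A(w2/2) = (1/w2)^2 ℘_B(1/2)... = -b/2` (homogeneity of `℘`: reindex the sum,
`mem_scale`; only needed in the form `℘_(scale L c)(c z) = c^(-2) ℘_L(z)`, prove it like `G_scale`).
Invariants of `B`: `g₂ = 15 b²/2`, `g₃ = -7 b³/2` (from `cm_inv` for `A` and `g2_scale`, `g3_scale`: `(1/w2)^(-4) = 4`, `(1/w2)^(-6) = -8`).
`b ≠ 0`: otherwise `g₂ = g₃ = 0` and `RealP.ne` applies (`realP_of`). `b > 0`: suppose `b < 0`, `a = -b`, `y0 = a (1/2 + 3 √2/4)`: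
`4y³ - (15/2) a² y - (7/2) a³ = 4 (y + a) (y - a(1/2 - 3√2/4)) (y - y0)` is positive for `y > y0`, zero at `y0`, `12 y0² - (15/2) a² ≠ 0`, so by
`RealP.mono` `p x > y0` on `(0, ρ/2)`, by continuity `p (ρ/2) ≥ y0 > 0`, but `p (ρ/2) = b < 0`.
Choose `v > 0` with `b/v² = 4/3`: `M = scale B v` has `℘_M(v/2) = 4/3`, `g₂ = 40/3`, `g₃ = -224/27`, and
`4y³ - (40/3) y + 224/27 = 4X³ + 16X² + 8X` with `X = y - 4/3`; `RealP.mono` with `e = 4/3` and `half8` give `v`.
The lattice `L` = period pair with `ω₁ = v`, `ω₂ = v w2` (`= scale M w2` up to the choice of the basis; `= scale A v`):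
`℘_L(ω₂/2) = v^(-2) ℘_A(w2/2) = -(b/v²)/2 = -2/3`.
-/

set_option autoImplicit false

namespace Pool.Agent.ROH8

open Complex ComplexConjugate Finset Pool.Agent.ROH

private noncomputable def latA : PeriodPair where
  ω₁ := 1
  ω₂ := w2
  indep := by
    rw [LinearIndependent.pair_iff]
    intro s t h
    have h1 := congrArg Complex.re h
    have h2 := congrArg Complex.im h
    simp [w2_re, w2_im] at h1 h2
    exact ⟨h1, h2⟩

private theorem memA (z : ℂ) : z ∈ latA.lattice ↔ ∃ a b : ℤ, z = a + b * w2 := by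
  rw [PeriodPair.mem_lattice]
  constructor
  · rintro ⟨m, n, h⟩
    refine ⟨m, n, ?_⟩
    rw [← h]
    show (m : ℂ) * 1 + (n : ℂ) * w2 = m + n * w2
    rw [mul_one]
  · rintro ⟨a, b, h⟩
    refine ⟨a, b, ?_⟩
    rw [h]
    show (a : ℂ) * 1 + (b : ℂ) * w2 = a + b * w2
    rw [mul_one]

private theorem w2_inv : (w2 : ℂ)⁻¹ = -(w2 / 2) := by
  have h := w2_sq
  have hn := w2_ne
  field_simp
  linear_combination h

private theorem w2i_ne : (w2 : ℂ)⁻¹ ≠ 0 := inv_ne_zero w2_ne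

private noncomputable def latB : PeriodPair := scale latA w2⁻¹ w2i_ne

private theorem memB (z : ℂ) : z ∈ latB.lattice ↔ ∃ a b : ℤ, z = a + b * (w2 / 2) := by
  unfold latB
  rw [mem_scale]
  constructor
  · rintro ⟨w, hw, rfl⟩
    rw [memA] at hw
    obtain ⟨a, b, rfl⟩ := hw
    refine ⟨b, -a, ?_⟩
    have hn := w2_ne
    rw [mul_add, w2_inv]
    have h := w2_sq
    push_cast
    linear_combination (-(b : ℂ) / 2) * h
  · rintro ⟨a, b, rfl⟩
    refine ⟨-b + a * w2, ?_, ?_⟩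
    · rw [memA]; exact ⟨-b, a, by push_cast; ring⟩
    · rw [w2_inv]
      have h := w2_sq
      linear_combination ((a : ℂ) / 2) * h

private theorem perB (v : ℝ) (hv : 0 < v) (hc : (v : ℂ) ≠ 0) : RealPer (scale latB v hc) v := by
  have hs : (0 : ℝ) < Real.sqrt 2 := Real.sqrt_pos.mpr (by norm_num)
  refine ⟨hv, ?_, ?_, ?_⟩
  · rw [mem_scale]
    refine ⟨1, ?_, ?_⟩
    · rw [memB]; exact ⟨1, 0, by push_cast; ring⟩
    · rw [mul_one]
  · intro x hx0 hxv hmem
    rw [mem_scale] at hmem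
    obtain ⟨w, hw, hxw⟩ := hmem
    rw [memB] at hw
    obtain ⟨a, b, rfl⟩ := hw
    have h1 := congrArg Complex.re hxw
    simp [w2_re, w2_im] at h1
    have h2 : 0 < (a : ℝ) := by
      by_contra hc1
      push Not at hc1
      have : v * (a : ℝ) ≤ 0 := mul_nonpos_of_nonneg_of_nonpos hv.le hc1
      linarith
    have h3 : (a : ℝ) < 1 := by
      by_contra hc1
      push Not at hc1
      have : v * 1 ≤ v * (a : ℝ) := mul_le_mul_of_nonneg_left hc1 hv.le
      linarith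
    have h4 : (0 : ℤ) < a := by exact_mod_cast h2
    have h5 : a < (1 : ℤ) := by exact_mod_cast h3
    omega
  · intro z hz
    rw [mem_scale] at hz ⊢
    obtain ⟨w, hw, rfl⟩ := hz
    rw [memB] at hw
    obtain ⟨a, b, rfl⟩ := hw
    refine ⟨a + (-b : ℤ) * (w2 / 2), ?_, ?_⟩
    · rw [memB]; exact ⟨a, -b, rfl⟩
    · simp only [map_mul, map_add, map_div₀, conj_w2, conj_ofReal, map_intCast, map_ofNat]
      push_cast
      ring

private theorem P_scale (L : PeriodPair) (c : ℂ) (hc : c ≠ 0) (z : ℂ) :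
    (scale L c hc).weierstrassP (c * z) = (c ^ 2)⁻¹ * L.weierstrassP z := by
  unfold PeriodPair.weierstrassP
  let e : L.lattice ≃ (scale L c hc).lattice :=
    { toFun := fun z => ⟨c * z.1, (mem_scale L c hc _).2 ⟨z.1, z.2, rfl⟩⟩
      invFun := fun z => ⟨c⁻¹ * z.1, by
        obtain ⟨w, hw, hz⟩ := (mem_scale L c hc _).1 z.2
        rw [hz, inv_mul_cancel_left₀ hc]
        exact hw⟩
      left_inv := fun z => Subtype.ext (inv_mul_cancel_left₀ hc z.1)
      right_inv := fun z => Subtype.ext (mul_inv_cancel_left₀ hc z.1) }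
  rw [← e.tsum_eq, ← tsum_mul_left]
  apply tsum_congr
  intro l
  show 1 / (c * z - c * (l : ℂ)) ^ 2 - 1 / (c * (l : ℂ)) ^ 2 = _
  rw [← mul_sub, mul_pow, mul_pow]
  simp only [one_div, mul_inv]
  ring

private theorem PB_half : latB.weierstrassP (1 / 2) = -2 * latA.weierstrassP (w2 / 2) := by
  have h := P_scale latA w2⁻¹ w2i_ne (w2 / 2)
  have h1 : (w2 : ℂ)⁻¹ * (w2 / 2) = 1 / 2 := by
    have := w2_ne
    field_simp
  rw [h1] at h
  unfold latB
  rw [h, inv_pow, inv_inv, w2_sq]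

private theorem cnjB : ∀ z ∈ latB.lattice, conj z ∈ latB.lattice := by
  intro z hz
  rw [memB] at hz ⊢
  obtain ⟨a, b, rfl⟩ := hz
  refine ⟨a, -b, ?_⟩
  simp only [map_mul, map_add, map_div₀, conj_w2, map_intCast, map_ofNat]
  push_cast
  ring

private theorem PB_real : ∃ b : ℝ, latB.weierstrassP (1 / 2) = (b : ℂ) := by
  have h := P_conj latB cnjB (1 / 2)
  have h1 : (conj (1 / 2 : ℂ)) = 1 / 2 := by
    rw [map_div₀, map_one, Complex.conj_ofNat]
  rw [h1] at h
  exact ⟨(latB.weierstrassP (1 / 2)).re, ((Complex.conj_eq_iff_re).mp h.symm).symm⟩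

private theorem g2B (b : ℝ) (hb : latB.weierstrassP (1 / 2) = (b : ℂ)) :
    latB.g₂ = 15 / 2 * (b : ℂ) ^ 2 ∧ latB.g₃ = -(7 / 2) * (b : ℂ) ^ 3 := by
  obtain ⟨h2, h3⟩ := cm_inv latA (by show w2 = w2 * 1; ring)
  have hP : latA.weierstrassP (w2 / 2) = -(b : ℂ) / 2 := by
    have := PB_half
    rw [hb] at this
    linear_combination (1 / 2 : ℂ) * this
  have e2 : latA.ω₂ = w2 := rfl
  rw [e2, hP] at h2 h3
  unfold latB
  rw [g2_scale, g3_scale, h2, h3, inv_pow, inv_pow, inv_inv, inv_inv]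
  have h := w2_sq
  have h4 : (w2 : ℂ) ^ 4 = 4 := by
    calc (w2 : ℂ) ^ 4 = (w2 ^ 2) ^ 2 := by ring
      _ = 4 := by rw [h]; norm_num
  have h6 : (w2 : ℂ) ^ 6 = -8 := by
    calc (w2 : ℂ) ^ 6 = (w2 ^ 2) ^ 3 := by ring
      _ = -8 := by rw [h]; norm_num
  rw [h4, h6]
  constructor <;> ring

private theorem PM_half (b v : ℝ) (hb : latB.weierstrassP (1 / 2) = (b : ℂ)) (hc : (v : ℂ) ≠ 0) :
    pR (scale latB v hc) (v / 2) = b / v ^ 2 := by
  unfold pR
  have h := P_scale latB v hc (1 / 2)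
  have h1 : ((v / 2 : ℝ) : ℂ) = v * (1 / 2) := by push_cast; ring
  rw [h1, h, hb]
  have : (((v : ℂ) ^ 2)⁻¹ * (b : ℂ)) = ((b / v ^ 2 : ℝ) : ℂ) := by
    push_cast; ring
  rw [this, Complex.ofReal_re]

private theorem realPB (b v : ℝ) (hb : latB.weierstrassP (1 / 2) = (b : ℂ)) (hv : 0 < v)
    (hc : (v : ℂ) ≠ 0) :
    RealP (pR (scale latB v hc)) (dR (scale latB v hc)) (rR (scale latB v hc)) v
      (15 / 2 * (b / v ^ 2) ^ 2) (-(7 / 2) * (b / v ^ 2) ^ 3) := by
  have hR := realP_of _ _ (perB v hv hc)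
  obtain ⟨h2, h3⟩ := g2B b hb
  have e2 : (scale latB v hc).g₂ = ((15 / 2 * (b / v ^ 2) ^ 2 : ℝ) : ℂ) := by
    rw [g2_scale, h2]
    push_cast
    field_simp
  have e3 : (scale latB v hc).g₃ = ((-(7 / 2) * (b / v ^ 2) ^ 3 : ℝ) : ℂ) := by
    rw [g3_scale, h3]
    push_cast
    field_simp
  rw [e2, e3, Complex.ofReal_re, Complex.ofReal_re] at hR
  exact hR

private theorem b_ne (b : ℝ) (hb : latB.weierstrassP (1 / 2) = (b : ℂ)) : b ≠ 0 := by
  intro h0
  have h1 : ((1 : ℝ) : ℂ) ≠ 0 := by norm_num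
  have hR := realPB b 1 hb one_pos h1
  rw [h0] at hR
  have e2 : (15 / 2 * ((0 : ℝ) / 1 ^ 2) ^ 2) = 0 := by norm_num
  have e3 : (-(7 / 2) * ((0 : ℝ) / 1 ^ 2) ^ 3) = 0 := by norm_num
  rw [e2, e3] at hR
  exact hR.ne

private theorem b_pos (b : ℝ) (hb : latB.weierstrassP (1 / 2) = (b : ℂ)) : 0 < b := by
  rcases lt_or_gt_of_ne (b_ne b hb) with hlt | hgt
  · exfalso
    set v : ℝ := Real.sqrt (-(3 / 4) * b) with hvdef
    have hv : 0 < v := Real.sqrt_pos.mpr (by linarith)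
    have hv2 : v ^ 2 = -(3 / 4) * b := Real.sq_sqrt (by linarith)
    have hc : (v : ℂ) ≠ 0 := by exact_mod_cast hv.ne'
    have hq : b / v ^ 2 = -4 / 3 := by
      have hb' := hlt.ne
      rw [hv2]; field_simp
    have hR := realPB b v hb hv hc
    rw [hq] at hR
    set s : ℝ := Real.sqrt 2 with hsdef
    have hs2 : s ^ 2 = 2 := Real.sq_sqrt (by norm_num)
    have hs0 : 0 < s := Real.sqrt_pos.mpr (by norm_num)
    obtain ⟨-, him⟩ := hR.mono (e := 2 / 3 + s)
      (by linear_combination (4 * (2 / 3 + s) + 8 / 3 + 4 * 2 / 3) * hs2)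
      (by
        intro y hy
        have h1 : 0 < y - (2 / 3 + s) := by linarith
        have h2 : 0 < y - (2 / 3 - s) := by linarith
        have h3 : 0 < y + 4 / 3 := by linarith
        have h4 := mul_pos (mul_pos h1 h2) h3
        nlinarith [h4, hs2])
      (by nlinarith [hs2, hs0])
    have hp := PM_half b v hb hc
    rw [hq] at hp
    have hcont : ContinuousAt (pR (scale latB v hc)) (v / 2) :=
      (hR.hd (v / 2) (by linarith) (by linarith)).continuousAt
    have hge : 2 / 3 + s ≤ pR (scale latB v hc) (v / 2) := by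
      refine ge_of_tendsto (f := pR (scale latB v hc)) (x := nhdsWithin (v / 2) (Set.Iio (v / 2)))
        (hcont.tendsto.mono_left nhdsWithin_le_nhds) ?_
      have : Set.Ioo 0 (v / 2) ∈ nhdsWithin (v / 2) (Set.Iio (v / 2)) :=
        Ioo_mem_nhdsLT (by linarith)
      filter_upwards [this] with x hx
      have : pR (scale latB v hc) x ∈ Set.Ioi (2 / 3 + s) := by
        rw [← him]; exact ⟨x, hx, rfl⟩
      exact (Set.mem_Ioi.mp this).le
    rw [hp] at hge
    linarith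
  · exact hgt

theorem exists_lat8 : ∃ (v : ℝ) (L : PeriodPair), 0 < v ∧ L.ω₁ = v ∧ L.ω₂ = v * w2 ∧
    L.weierstrassP (L.ω₂ / 2) = -2 / 3 ∧
    v = 1 / 4 * (Real.Gamma (1 / 8) * Real.Gamma (3 / 8) / Real.Gamma (1 / 8 + 3 / 8)) := by
  obtain ⟨b, hb⟩ := PB_real
  have hb0 := b_pos b hb
  obtain ⟨v, hv, hv2⟩ : ∃ v : ℝ, 0 < v ∧ v ^ 2 = 3 / 4 * b :=
    ⟨Real.sqrt (3 / 4 * b), Real.sqrt_pos.mpr (by linarith), Real.sq_sqrt (by linarith)⟩
  have hc : (v : ℂ) ≠ 0 := by exact_mod_cast hv.ne'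
  have hq : b / v ^ 2 = 4 / 3 := by
    rw [hv2]; field_simp
  have hR := realPB b v hb hv hc
  rw [hq] at hR
  obtain ⟨hn, him⟩ := hR.mono (e := 4 / 3) (by norm_num)
    (by
      intro y hy
      obtain ⟨X, hX, rfl⟩ : ∃ X : ℝ, 0 < X ∧ y = X + 4 / 3 := ⟨y - 4 / 3, by linarith, by ring⟩
      have h1 : 0 < X ^ 3 := by positivity
      have h2 : 0 < X ^ 2 := by positivity
      nlinarith [h1, h2, hX])
    (by norm_num)
  have hp := half8 hR.pos (fun x hx hx2 => hR.hd x hx (by linarith)) hn him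
    (fun x hx hx2 => by
      have := hR.sq x hx (by linarith)
      rw [this]
      ring)
  refine ⟨v, scale latA v hc, hv, ?_, ?_, ?_, hp⟩
  · show (v : ℂ) * 1 = v
    ring
  · rfl
  · have h1 : (scale latA v hc).ω₂ / 2 = v * (w2 / 2) := by
      show (v : ℂ) * w2 / 2 = _
      ring
    rw [h1, P_scale]
    have hP : latA.weierstrassP (w2 / 2) = -(b : ℂ) / 2 := by
      have := PB_half
      rw [hb] at this
      linear_combination (1 / 2 : ℂ) * this
    rw [hP]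
    have hv2c : (v : ℂ) ^ 2 = 3 / 4 * b := by
      have := congrArg (fun x : ℝ => (x : ℂ)) hv2
      push_cast at this
      exact this
    have hbc : (b : ℂ) ≠ 0 := by exact_mod_cast hb0.ne'
    rw [hv2c]
    field_simp
    norm_num

end Pool.Agent.ROH8
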