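import Pool.Agent.ROH8.Def

/-!
ROH8-PerB: the quasi-periods, abstract form.

PLAN. Copy of `Pool/Agent/ROH/SPerB.lean` (`per_of`): there `‖τ‖ = 1` and the rotation `s (τ z) = τ s z` are only used for the relation
`α_τ = conj τ * α_1`, which is the hypothesis `hα` here (and to know `τ ≠ 0`, which follows from `0 < τ.im`). The rest
of the proof is unchanged.
-/

set_option autoImplicit false

namespace Pool.Agent.ROH8

open Complex ComplexConjugate Pool.Agent.ROH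

private theorem perB8_uniq (s : ℂ → ℂ) (hs : Differentiable ℂ s) (hne : ∃ z, s z ≠ 0) (c c' α α' : ℂ)
    (hc : c ≠ 0) (h : ∀ z, c * cexp (α * z) * s z = c' * cexp (α' * z) * s z) : α = α' ∧ c = c' := by
  obtain ⟨z0, hz0⟩ := hne
  have hev : (fun z => c * cexp (α * z)) =ᶠ[nhds z0] fun z => c' * cexp (α' * z) := by
    have h1 : ∀ᶠ z in nhds z0, s z ≠ 0 := hs.continuous.continuousAt.eventually_ne hz0
    filter_upwards [h1] with z hz
    exact mul_right_cancel₀ hz (h z)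
  have h0 : c * cexp (α * z0) = c' * cexp (α' * z0) := hev.self_of_nhds
  have hd : ∀ a b : ℂ, HasDerivAt (fun z => a * cexp (b * z)) (a * (cexp (b * z0) * (b * 1))) z0 := by
    intro a b
    exact (((hasDerivAt_id z0).const_mul b).cexp).const_mul a
  have h1 : c * (cexp (α * z0) * (α * 1)) = c' * (cexp (α' * z0) * (α' * 1)) := by
    rw [← (hd c α).deriv, ← (hd c' α').deriv]
    exact hev.deriv_eq
  have hE : c * cexp (α * z0) ≠ 0 := mul_ne_zero hc (Complex.exp_ne_zero _)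
  have h2 : c * cexp (α * z0) * α = c * cexp (α * z0) * α' := by
    calc c * cexp (α * z0) * α = c * (cexp (α * z0) * (α * 1)) := by ring
      _ = c' * (cexp (α' * z0) * (α' * 1)) := h1
      _ = c' * cexp (α' * z0) * α' := by ring
      _ = _ := by rw [h0]
  have h3 : α = α' := mul_left_cancel₀ hE h2
  refine ⟨h3, ?_⟩
  rw [h3] at h0
  exact mul_right_cancel₀ (Complex.exp_ne_zero _) h0

theorem per_of8 (s : ℂ → ℂ) (hs : Differentiable ℂ s) (hne : ∃ z, s z ≠ 0) (τ : ℂ)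
    (hi : 0 < τ.im) (hodd : ∀ z, s (-z) = -s z)
    (hper : ∀ a b : ℤ, ∃ α c : ℂ, c ≠ 0 ∧ ∀ z, s (z + (a + b * τ)) = c * cexp (α * z) * s z)
    (hα : ∀ α c β d : ℂ, c ≠ 0 → d ≠ 0 → (∀ z, s (z + 1) = c * cexp (α * z) * s z) →
      (∀ z, s (z + τ) = d * cexp (β * z) * s z) → β = conj τ * α) :
    ∃ n : ℤ, ∀ a b : ℤ, ∃ e : ℂ, ‖e‖ = 1 ∧ ∀ z : ℂ, s (z + (a + b * τ)) =
      e * cexp (((n * (Real.pi / τ.im) : ℝ) : ℂ) * (conj (a + b * τ) * z) +
        ((n * (Real.pi / τ.im) : ℝ) : ℂ) * ‖(a + b * τ : ℂ)‖ ^ 2 / 2) * s z := by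
  choose α c hc hq using hper
  -- additivity
  have hadd : ∀ a b a' b' : ℤ, α (a + a') (b + b') = α a b + α a' b' ∧
      c (a + a') (b + b') = c a b * c a' b' * cexp (α a' b' * (a + b * τ)) := by
    intro a b a' b'
    refine perB8_uniq s hs hne _ _ _ _ (hc _ _) fun z => ?_
    rw [← hq (a + a') (b + b') z]
    have h1 : z + (((a + a' : ℤ) : ℂ) + ((b + b' : ℤ) : ℂ) * τ) = (z + (a + b * τ)) + (a' + b' * τ) := by
      push_cast
      ring
    rw [h1, hq a' b', hq a b]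
    have h2 : cexp (α a' b' * (z + (a + b * τ))) = cexp (α a' b' * z) * cexp (α a' b' * (a + b * τ)) := by
      rw [← Complex.exp_add]
      congr 1
      ring
    have h3 : cexp ((α a b + α a' b') * z) = cexp (α a b * z) * cexp (α a' b' * z) := by
      rw [← Complex.exp_add]
      congr 1
      ring
    rw [h2, h3]
    ring
  have hlin : ∀ a b : ℤ, α a b = a * α 1 0 + b * α 0 1 := by
    intro a b
    let φ : ℤ × ℤ →+ ℂ := AddMonoidHom.mk' (fun p => α p.1 p.2) fun p p' => (hadd p.1 p.2 p'.1 p'.2).1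
    have h1 : φ (a, b) = a * φ (1, 0) + b * φ (0, 1) := by
      have h2 : ((a, b) : ℤ × ℤ) = a • ((1, 0) : ℤ × ℤ) + b • ((0, 1) : ℤ × ℤ) := by
        ext <;> simp
      rw [h2, map_add, map_zsmul, map_zsmul, zsmul_eq_mul, zsmul_eq_mul]
    exact h1
  -- the rotation
  have hα01 : α 0 1 = conj τ * α 1 0 := by
    refine hα (α 1 0) (c 1 0) (α 0 1) (c 0 1) (hc _ _) (hc _ _) (fun z => ?_) (fun z => ?_)
    · have h := hq 1 0 z
      push_cast at h
      rw [zero_mul, add_zero] at h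
      exact h
    · have h := hq 0 1 z
      push_cast at h
      rw [zero_add, one_mul] at h
      exact h
  -- the integer
  have hexp : cexp (α 1 0 * τ) = cexp (α 0 1) := by
    have h1 := (hadd 1 0 0 1).2
    have h2 := (hadd 0 1 1 0).2
    norm_num at h1 h2
    rw [h1] at h2
    have h3 : c 1 0 * c 0 1 ≠ 0 := mul_ne_zero (hc _ _) (hc _ _)
    rw [mul_comm (c 0 1) (c 1 0)] at h2
    exact (mul_left_cancel₀ h3 h2).symm
  obtain ⟨n, hn⟩ := Complex.exp_eq_exp_iff_exists_int.1 hexp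
  refine ⟨n, ?_⟩
  set κ : ℝ := n * (Real.pi / τ.im) with hκ
  have hκα : α 1 0 = κ := by
    rw [hα01] at hn
    have h1 : α 1 0 * (τ - conj τ) = n * (2 * Real.pi * I) := by
      linear_combination hn
    rw [Complex.sub_conj] at h1
    have h2 : (τ.im : ℂ) ≠ 0 := by exact_mod_cast hi.ne'
    have h3 : (2 : ℂ) * I ≠ 0 := mul_ne_zero two_ne_zero Complex.I_ne_zero
    rw [hκ]
    push_cast
    push_cast at h1
    have h4 : (α 1 0 * τ.im) * (2 * I) = (n * Real.pi) * (2 * I) := by linear_combination h1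
    have h5 := mul_right_cancel₀ h3 h4
    field_simp
    exact h5
  have hαω : ∀ a b : ℤ, α a b = κ * conj (a + b * τ) := by
    intro a b
    rw [hlin, hα01, hκα, map_add, map_mul]
    simp only [map_intCast]
    ring
  -- the absolute values
  have hneg : ∀ a b : ℤ, c (-a) (-b) = c a b := by
    intro a b
    refine (perB8_uniq s hs hne (c (-a) (-b)) (c a b) (α (-a) (-b)) (-(α a b)) (hc _ _) fun z => ?_).2
    rw [← hq (-a) (-b) z]
    have h1 : z + (((-a : ℤ) : ℂ) + ((-b : ℤ) : ℂ) * τ) = -(-z + (a + b * τ)) := by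
      push_cast
      ring
    rw [h1, hodd, hq a b, hodd]
    have h2 : α a b * -z = -α a b * z := by ring
    rw [h2]
    ring
  have hzero : c 0 0 = 1 := by
    refine (perB8_uniq s hs hne (c 0 0) 1 (α 0 0) 0 (hc _ _) fun z => ?_).2
    rw [← hq 0 0 z]
    push_cast
    simp
  have hm : ∀ a b : ℤ, ‖c a b‖ * Real.exp (-(κ * ‖(a + b * τ : ℂ)‖ ^ 2 / 2)) = 1 := by
    intro a b
    have h1 := (hadd a b (-a) (-b)).2
    rw [add_neg_cancel, add_neg_cancel, hzero, hneg, hαω] at h1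
    have h2 : (κ : ℂ) * conj (((-a : ℤ) : ℂ) + ((-b : ℤ) : ℂ) * τ) * (a + b * τ) =
        ((-(κ * ‖(a + b * τ : ℂ)‖ ^ 2) : ℝ) : ℂ) := by
      have h3 : conj (((-a : ℤ) : ℂ) + ((-b : ℤ) : ℂ) * τ) = -conj (a + b * τ) := by
        rw [← map_neg]
        congr 1
        push_cast
        ring
      rw [h3]
      have h4 : (a + b * τ) * conj (a + b * τ) = ((‖(a + b * τ : ℂ)‖ ^ 2 : ℝ) : ℂ) := by
        rw [Complex.mul_conj, Complex.normSq_eq_norm_sq]
      push_cast at h4 ⊢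
      linear_combination (-(κ : ℂ)) * h4
    rw [h2] at h1
    have h5 := congrArg norm h1
    rw [norm_one, norm_mul, norm_mul, Complex.norm_exp, Complex.ofReal_re] at h5
    have h6 : Real.exp (-(κ * ‖(a + b * τ : ℂ)‖ ^ 2)) =
        Real.exp (-(κ * ‖(a + b * τ : ℂ)‖ ^ 2 / 2)) * Real.exp (-(κ * ‖(a + b * τ : ℂ)‖ ^ 2 / 2)) := by
      rw [← Real.exp_add]
      congr 1
      ring
    rw [h6] at h5
    have h7 : (‖c a b‖ * Real.exp (-(κ * ‖(a + b * τ : ℂ)‖ ^ 2 / 2))) ^ 2 = 1 := by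
      rw [h5]
      ring
    have h8 : 0 ≤ ‖c a b‖ * Real.exp (-(κ * ‖(a + b * τ : ℂ)‖ ^ 2 / 2)) := by positivity
    exact (pow_eq_one_iff_of_nonneg h8 two_ne_zero).1 h7
  intro a b
  refine ⟨c a b * cexp (-((κ : ℂ) * ‖(a + b * τ : ℂ)‖ ^ 2 / 2)), ?_, fun z => ?_⟩
  · rw [norm_mul, Complex.norm_exp]
    have h1 : (-((κ : ℂ) * ‖(a + b * τ : ℂ)‖ ^ 2 / 2)).re = -(κ * ‖(a + b * τ : ℂ)‖ ^ 2 / 2) := by
      have h2 : (-((κ : ℂ) * ‖(a + b * τ : ℂ)‖ ^ 2 / 2)) =
          ((-(κ * ‖(a + b * τ : ℂ)‖ ^ 2 / 2) : ℝ) : ℂ) := by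
        push_cast
        ring
      rw [h2, Complex.ofReal_re]
    rw [h1]
    exact hm a b
  · rw [hq a b z, hαω]
    have h1 : cexp ((κ : ℂ) * (conj (a + b * τ) * z) + (κ : ℂ) * ‖(a + b * τ : ℂ)‖ ^ 2 / 2) =
        cexp ((κ : ℂ) * conj (a + b * τ) * z) * cexp ((κ : ℂ) * ‖(a + b * τ : ℂ)‖ ^ 2 / 2) := by
      rw [← Complex.exp_add]
      congr 1
      ring
    rw [h1]
    have h2 : cexp (-((κ : ℂ) * ‖(a + b * τ : ℂ)‖ ^ 2 / 2)) * cexp ((κ : ℂ) * ‖(a + b * τ : ℂ)‖ ^ 2 / 2) = 1 := by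
      rw [← Complex.exp_add, neg_add_cancel, Complex.exp_zero]
    calc c a b * cexp ((κ : ℂ) * conj (a + b * τ) * z) * s z
        = c a b * (cexp (-((κ : ℂ) * ‖(a + b * τ : ℂ)‖ ^ 2 / 2)) *
            cexp ((κ : ℂ) * ‖(a + b * τ : ℂ)‖ ^ 2 / 2)) * cexp ((κ : ℂ) * conj (a + b * τ) * z) * s z := by
          rw [h2, mul_one]
      _ = _ := by ring


end Pool.Agent.ROH8
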