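import Pool.Agent.ROH8.Def
import Pool.Agent.ROH.SBdd

/-!
ROH8-RTx: multiplication with `exp (a z^2)` preserves `RatTay`.
-/

set_option autoImplicit false

namespace Pool.Agent.ROH8

open Complex ComplexConjugate Pool.Agent.ROH

/-- the Taylor coefficients of `exp (a z^2)`, times `n!` -/
private def rtxV (a : ℚ) : ℕ → ℚ
  | 0 => 1
  | 1 => 0
  | (n + 2) => 2 * a * (n + 1) * rtxV a n

private theorem rtxV_int (a : ℚ) (n : ℕ) : ∃ b : ℤ, (a.den : ℚ) ^ n * rtxV a n = b := by
  induction n using Nat.strong_induction_on with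
  | _ n ih =>
    match n with
    | 0 => exact ⟨1, by simp [rtxV]⟩
    | 1 => exact ⟨0, by simp [rtxV]⟩
    | (n + 2) =>
      obtain ⟨b, hb⟩ := ih n (by omega)
      refine ⟨2 * a.num * (n + 1) * a.den * b, ?_⟩
      have h1 : (a.den : ℚ) * a = a.num := by rw [mul_comm]; exact Rat.mul_den_eq_num a
      push_cast
      rw [← hb, rtxV, ← h1]
      ring

private theorem rtx_deriv (a : ℚ) :
    deriv (fun z : ℂ => cexp (a * z ^ 2)) = fun z => (2 * a * z) * cexp (a * z ^ 2) := by
  funext z
  have h : HasDerivAt (fun z : ℂ => cexp (a * z ^ 2)) (cexp (a * z ^ 2) * (a * (2 * z))) z := by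
    have h1 : HasDerivAt (fun z : ℂ => (a : ℂ) * z ^ 2) (a * (2 * z)) z := by
      have := (hasDerivAt_pow 2 z).const_mul (a : ℂ)
      simpa using this
    exact h1.cexp
  rw [h.deriv]
  ring

private theorem rtx_diff (a : ℚ) : Differentiable ℂ (fun z : ℂ => cexp (a * z ^ 2)) := by
  fun_prop

private theorem rtx_lin (a : ℚ) (i : ℕ) : iteratedDeriv i (fun z : ℂ => 2 * (a : ℂ) * z) 0 =
    if i = 1 then 2 * (a : ℂ) else 0 := by
  match i with
  | 0 => simp
  | 1 =>
    rw [iteratedDeriv_one, if_pos rfl]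
    exact ((hasDerivAt_id (0 : ℂ)).const_mul (2 * (a : ℂ))).deriv.trans (mul_one _)
  | (i + 2) =>
    rw [iteratedDeriv_succ', iteratedDeriv_succ']
    have h1 : deriv (fun z : ℂ => 2 * (a : ℂ) * z) = fun _ => 2 * (a : ℂ) := by
      funext z
      exact ((hasDerivAt_id z).const_mul (2 * (a : ℂ))).deriv.trans (mul_one _)
    rw [h1, deriv_const', if_neg (by omega)]
    rw [iteratedDeriv_const]
    split_ifs <;> rfl

private theorem rtx_iter (a : ℚ) (n : ℕ) :
    iteratedDeriv n (fun z : ℂ => cexp (a * z ^ 2)) 0 = (rtxV a n : ℂ) := by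
  induction n using Nat.strong_induction_on with
  | _ n ih =>
    match n with
    | 0 => simp [rtxV]
    | 1 =>
      rw [iteratedDeriv_one, rtx_deriv]
      simp [rtxV]
    | (n + 2) =>
      rw [iteratedDeriv_succ', rtx_deriv]
      have c1 : ContDiffAt ℂ ((n + 1 : ℕ) : WithTop ℕ∞) (fun z : ℂ => 2 * (a : ℂ) * z) 0 := by
        fun_prop
      have c2 : ContDiffAt ℂ ((n + 1 : ℕ) : WithTop ℕ∞) (fun z : ℂ => cexp (a * z ^ 2)) 0 := by
        fun_prop
      rw [iteratedDeriv_fun_mul c1 c2, Finset.sum_eq_single 1]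
      · rw [rtx_lin, if_pos rfl, Nat.choose_one_right, ih _ (by omega), rtxV,
          show n + 1 - 1 = n from rfl]
        push_cast
        ring
      · intro i _ hi
        rw [rtx_lin, if_neg hi]
        ring
      · intro h
        exact absurd (Finset.mem_range.2 (by omega)) h

theorem ratTay_exp (s : ℂ → ℂ) (hs : Differentiable ℂ s) (h : RatTay s) (a : ℚ) :
    RatTay (fun z => cexp (a * z ^ 2) * s z) := by
  obtain ⟨t, ht, C, hC, -, hD⟩ := h
  have hgs : Differentiable ℂ (fun z : ℂ => cexp (a * z ^ 2) * s z) := (rtx_diff a).mul hs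
  obtain ⟨C₀, hC₀, hb⟩ := tay_bdd _ hgs
  have hfac : ∀ n : ℕ, (n.factorial : ℚ) ≠ 0 := fun n => by
    exact_mod_cast n.factorial_ne_zero
  have hfacC : ∀ n : ℕ, (n.factorial : ℂ) ≠ 0 := fun n => by
    exact_mod_cast n.factorial_ne_zero
  set t' : ℕ → ℚ := fun n => ∑ i ∈ Finset.range (n + 1), rtxV a i / i.factorial * t (n - i) with ht'
  have hmain : ∀ n, iteratedDeriv n (fun z : ℂ => cexp (a * z ^ 2) * s z) 0 =
      (n.factorial : ℂ) * (t' n : ℂ) := by
    intro n
    have c1 : ContDiffAt ℂ (n : WithTop ℕ∞) (fun z : ℂ => cexp (a * z ^ 2)) 0 := by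
      fun_prop
    have c2 : ContDiffAt ℂ (n : WithTop ℕ∞) s 0 := hs.contDiff.contDiffAt
    rw [iteratedDeriv_fun_mul c1 c2, ht']
    push_cast
    rw [Finset.mul_sum]
    refine Finset.sum_congr rfl fun i hi => ?_
    have hin : i ≤ n := Nat.lt_succ_iff.1 (Finset.mem_range.1 hi)
    rw [rtx_iter, ht, Nat.cast_choose ℂ hin]
    have h1 := hfacC i
    have h2 := hfacC (n - i)
    field_simp
  have hq : (1 : ℝ) ≤ a.den := by exact_mod_cast a.den_pos
  have hlq : 0 ≤ Real.log a.den := Real.log_nonneg hq
  refine ⟨t', hmain, C + 4 * Real.log a.den + 2 + C₀, by positivity, ?_, ?_⟩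
  · intro n
    have h1 := hb n
    rw [hmain, norm_mul, Complex.norm_natCast] at h1
    have h2 : ‖(t' n : ℂ)‖ = |(t' n : ℝ)| := by
      rw [← Complex.ofReal_ratCast, Complex.norm_real, Real.norm_eq_abs]
    rw [h2, mul_comm] at h1
    have h3 : (0 : ℝ) < n.factorial := by exact_mod_cast n.factorial_pos
    have h4 := le_of_mul_le_mul_right h1 h3
    linarith
  · intro N
    obtain ⟨D, hD0, hDle, hDi⟩ := hD N
    refine ⟨D * (a.den ^ N * N.factorial), by positivity, ?_, ?_⟩
    · have hN2 : (2 : ℝ) ≤ (N : ℝ) + 2 := by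
        have : (0 : ℝ) ≤ N := Nat.cast_nonneg N
        linarith
      have hl : (1 / 2 : ℝ) ≤ Real.log ((N : ℝ) + 2) := by
        have h1 := Real.log_le_log (by norm_num) hN2
        have h2 := Real.log_two_gt_d9
        linarith
      have hN0 : (0 : ℝ) ≤ N := Nat.cast_nonneg N
      have e1 : ((a.den : ℝ) ^ N) = Real.exp (N * Real.log a.den) := by
        rw [mul_comm, Real.exp_mul, Real.exp_log (by linarith), Real.rpow_natCast]
      have e2 : (N.factorial : ℝ) ≤ Real.exp (N * Real.log (N + 2)) := by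
        have h1 : (N.factorial : ℝ) ≤ (N : ℝ) ^ N := by exact_mod_cast Nat.factorial_le_pow N
        have h2 : (N : ℝ) ^ N ≤ ((N : ℝ) + 2) ^ N := by gcongr; linarith
        have h3 : ((N : ℝ) + 2) ^ N = Real.exp (N * Real.log (N + 2)) := by
          rw [mul_comm, Real.exp_mul, Real.exp_log (by linarith), Real.rpow_natCast]
        linarith
      push_cast
      calc (D : ℝ) * ((a.den : ℝ) ^ N * N.factorial)
          ≤ Real.exp (C * (N + 1) * Real.log (N + 2) ^ 2) *
            (Real.exp (N * Real.log a.den) * Real.exp (N * Real.log (N + 2))) := by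
            rw [e1]
            gcongr
        _ = Real.exp (C * (N + 1) * Real.log (N + 2) ^ 2 +
            (N * Real.log a.den + N * Real.log (N + 2))) := by
            rw [Real.exp_add, Real.exp_add]
        _ ≤ _ := by
            apply Real.exp_le_exp.2
            set l := Real.log ((N : ℝ) + 2) with hldef
            have g1 : (1 : ℝ) ≤ 4 * l ^ 2 := by nlinarith
            have g2 : l ≤ 2 * l ^ 2 := by nlinarith
            have g3 : N * Real.log a.den ≤ (N + 1) * Real.log a.den * (4 * l ^ 2) := by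
              calc N * Real.log a.den ≤ (N + 1) * Real.log a.den * 1 := by nlinarith
                _ ≤ (N + 1) * Real.log a.den * (4 * l ^ 2) := by
                  apply mul_le_mul_of_nonneg_left g1
                  positivity
            have g4 : N * l ≤ (N + 1) * (2 * l ^ 2) := by
              calc N * l ≤ (N + 1) * l := by nlinarith
                _ ≤ (N + 1) * (2 * l ^ 2) := by
                  apply mul_le_mul_of_nonneg_left g2
                  positivity
            have g5 : 0 ≤ C₀ * (N + 1) * l ^ 2 := by positivity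
            nlinarith
    · intro n hn
      have key : ∀ i ∈ Finset.range (n + 1), ∃ b : ℤ,
          ((D * (a.den ^ N * N.factorial) : ℕ) : ℚ) * (rtxV a i / i.factorial * t (n - i)) = b := by
        intro i hi
        have hin : i ≤ n := Nat.lt_succ_iff.1 (Finset.mem_range.1 hi)
        obtain ⟨b1, hb1⟩ := rtxV_int a i
        obtain ⟨b2, hb2⟩ := hDi (n - i) (by omega)
        obtain ⟨m, hm⟩ := Nat.factorial_dvd_factorial (hin.trans hn)
        refine ⟨a.den ^ (N - i) * m * b1 * b2, ?_⟩
        push_cast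
        rw [← hb1, ← hb2, hm]
        have e : (a.den : ℚ) ^ N = (a.den : ℚ) ^ (N - i) * (a.den : ℚ) ^ i := by
          rw [← pow_add]
          congr 1
          omega
        rw [e]
        have h1 := hfac i
        push_cast
        field_simp
      choose! b hb' using key
      refine ⟨∑ i ∈ Finset.range (n + 1), b i, ?_⟩
      push_cast at hb' ⊢
      rw [ht', Finset.mul_sum]
      exact Finset.sum_congr rfl fun i hi => hb' i hi

end Pool.Agent.ROH8
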