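import Pool.Agent.ROH.Ifc
import Pool.Agent.ROH.SBdd

/-!
ROH8-SigT. Rational Taylor coefficients of products (models: ROH/SRatB.lean, ROH/SRatC.lean).

PLAN. `ratTay_mul`: Leibniz rule (`iteratedDeriv_mul`/`iteratedDeriv_fun_mul` at `0`): `t n = ∑_{i ≤ n} t1 i * t2 (n - i)`; the bound of
`t n` is the Cauchy estimate `tay_bdd` for the entire function `s * t`; common denominator `D1 * D2`, constant `C1 + C2`.
`ratTay_gauss`: `exp (q z²) = ∑ q^k z^(2k)/k!`: `t (2k) = q^k/k!`, `t (2k+1) = 0` (e.g. from the differential equation `f' = 2 q z f`, which gives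
`(n+1) t(n+1) = 2 q t(n-1)`, or from the power series); denominator `(den q)^N * N!`; `N! ≤ N^N`.
-/

set_option autoImplicit false

namespace Pool.Agent.ROH8

open Complex ComplexConjugate Finset Pool.Agent.ROH

private theorem sigT_bdd {s : ℂ → ℂ} (hs : Differentiable ℂ s) {t : ℕ → ℚ}
    (h : ∀ n, iteratedDeriv n s 0 = (n.factorial : ℂ) * (t n : ℂ)) :
    ∃ C₀ : ℝ, 0 ≤ C₀ ∧ ∀ n, |(t n : ℝ)| ≤ C₀ := by
  obtain ⟨C₀, h0, hB⟩ := tay_bdd s hs
  refine ⟨C₀, h0, fun n => ?_⟩
  have h3 := hB n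
  rw [h n, norm_mul, Complex.norm_natCast] at h3
  have h4 : ‖((t n : ℚ) : ℂ)‖ = |((t n : ℚ) : ℝ)| := by
    have h5 : ((t n : ℚ) : ℂ) = (((t n : ℚ) : ℝ) : ℂ) := by push_cast; rfl
    rw [h5, Complex.norm_real, Real.norm_eq_abs]
  rw [h4, mul_comm C₀] at h3
  have h5 : (0 : ℝ) < (n.factorial : ℝ) := Nat.cast_pos.2 (Nat.factorial_pos n)
  exact le_of_mul_le_mul_left h3 h5

theorem ratTay_mul {s t : ℂ → ℂ} (hs : Differentiable ℂ s) (ht : Differentiable ℂ t) (h1 : RatTay s)
    (h2 : RatTay t) : RatTay (fun z => s z * t z) := by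
  obtain ⟨t1, ht1, C1, hC1, hb1, hD1⟩ := h1
  obtain ⟨t2, ht2, C2, hC2, hb2, hD2⟩ := h2
  have hT : ∀ n, iteratedDeriv n (fun z => s z * t z) 0 =
      (n.factorial : ℂ) * ((∑ i ∈ range (n + 1), t1 i * t2 (n - i) : ℚ) : ℂ) := by
    intro n
    rw [iteratedDeriv_fun_mul (hs.contDiff (n := n)).contDiffAt (ht.contDiff (n := n)).contDiffAt]
    push_cast
    rw [Finset.mul_sum]
    refine Finset.sum_congr rfl fun i hi => ?_
    have hin : i ≤ n := Nat.lt_succ_iff.1 (Finset.mem_range.1 hi)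
    have h3 : ((n.choose i : ℕ) : ℂ) * (i.factorial : ℂ) * ((n - i).factorial : ℂ) = (n.factorial : ℂ) := by
      exact_mod_cast Nat.choose_mul_factorial_mul_factorial hin
    rw [ht1, ht2, ← h3]
    ring
  obtain ⟨C₀, hC₀, hB⟩ := sigT_bdd (hs.mul ht) hT
  refine ⟨_, hT, C₀ + C1 + C2, by positivity, fun n => (hB n).trans (by linarith), fun N => ?_⟩
  obtain ⟨D1, hD1p, hD1e, hD1z⟩ := hD1 N
  obtain ⟨D2, hD2p, hD2e, hD2z⟩ := hD2 N
  refine ⟨D1 * D2, Nat.mul_pos hD1p hD2p, ?_, ?_⟩
  · have hE : Real.exp (C1 * (N + 1) * Real.log (N + 2) ^ 2) * Real.exp (C2 * (N + 1) * Real.log (N + 2) ^ 2) ≤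
        Real.exp ((C₀ + C1 + C2) * (N + 1) * Real.log (N + 2) ^ 2) := by
      rw [← Real.exp_add, Real.exp_le_exp]
      have h5 : 0 ≤ C₀ * ((N : ℝ) + 1) * Real.log (N + 2) ^ 2 := by positivity
      nlinarith [h5]
    refine le_trans ?_ hE
    push_cast
    exact mul_le_mul hD1e hD2e (Nat.cast_nonneg _) (Real.exp_pos _).le
  · intro n hn
    have h3 : ∀ i, ∃ a : ℤ, i ≤ n → ((D1 * D2 : ℕ) : ℚ) * (t1 i * t2 (n - i)) = a := by
      intro i
      by_cases hi : i ≤ n
      · obtain ⟨a, ha⟩ := hD1z i (hi.trans hn)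
        obtain ⟨b, hb⟩ := hD2z (n - i) ((Nat.sub_le _ _).trans hn)
        refine ⟨a * b, fun _ => ?_⟩
        push_cast
        rw [← ha, ← hb]
        ring
      · exact ⟨0, fun h => absurd h hi⟩
    choose a ha using h3
    refine ⟨∑ i ∈ range (n + 1), a i, ?_⟩
    rw [Finset.mul_sum]
    push_cast
    refine Finset.sum_congr rfl fun i hi => ?_
    rw [← ha i (Nat.lt_succ_iff.1 (Finset.mem_range.1 hi))]
    push_cast
    ring

private theorem sigT_rec (q : ℂ) (n : ℕ) :
    iteratedDeriv (n + 2) (fun z => cexp (q * z ^ 2)) 0 =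
      2 * q * ((n : ℂ) + 1) * iteratedDeriv n (fun z => cexp (q * z ^ 2)) 0 := by
  have hd : Differentiable ℂ (fun z : ℂ => cexp (q * z ^ 2)) := by fun_prop
  have h1 : ∀ (n : ℕ) (z : ℂ), iteratedDeriv (n + 2) (fun z => cexp (q * z ^ 2)) z =
      2 * q * z * iteratedDeriv (n + 1) (fun z => cexp (q * z ^ 2)) z +
        2 * q * ((n : ℂ) + 1) * iteratedDeriv n (fun z => cexp (q * z ^ 2)) z := by
    have hD : ∀ m, Differentiable ℂ (iteratedDeriv m (fun z : ℂ => cexp (q * z ^ 2))) := fun m =>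
      (hd.contDiff (n := m + 1)).differentiable_iteratedDeriv m (by exact_mod_cast Nat.lt_succ_self m)
    have hder : ∀ z : ℂ, deriv (fun z : ℂ => cexp (q * z ^ 2)) z = 2 * q * z * cexp (q * z ^ 2) := by
      intro z
      have h2 : HasDerivAt (fun z : ℂ => cexp (q * z ^ 2)) (cexp (q * z ^ 2) * (q * (2 * z))) z := by
        have h3 : HasDerivAt (fun z : ℂ => q * z ^ 2) (q * (2 * z)) z := by
          simpa using (hasDerivAt_pow 2 z).const_mul q
        exact h3.cexp
      rw [h2.deriv]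
      ring
    intro n
    induction n with
    | zero =>
      intro z
      have h2 : iteratedDeriv 1 (fun z : ℂ => cexp (q * z ^ 2)) = fun z => 2 * q * z * cexp (q * z ^ 2) := by
        rw [iteratedDeriv_one]
        funext w
        exact hder w
      have h3 : iteratedDeriv 2 (fun z : ℂ => cexp (q * z ^ 2)) z =
          deriv (fun z => 2 * q * z * cexp (q * z ^ 2)) z := by
        rw [show (2 : ℕ) = 1 + 1 from rfl, iteratedDeriv_succ, h2]
      have h4 : HasDerivAt (fun z : ℂ => 2 * q * z * cexp (q * z ^ 2))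
          (2 * q * 1 * cexp (q * z ^ 2) + 2 * q * z * (2 * q * z * cexp (q * z ^ 2))) z := by
        have h5 : HasDerivAt (fun z : ℂ => cexp (q * z ^ 2)) (2 * q * z * cexp (q * z ^ 2)) z := by
          have := (hd z).hasDerivAt
          rwa [hder z] at this
        exact ((hasDerivAt_id' z).const_mul (2 * q)).mul h5
      rw [show 0 + 2 = 2 from rfl, show 0 + 1 = 1 from rfl, h3, h4.deriv, h2, iteratedDeriv_zero]
      push_cast
      ring
    | succ n ih =>
      intro z
      have h2 : iteratedDeriv (n + 1 + 2) (fun z : ℂ => cexp (q * z ^ 2)) z =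
          deriv (iteratedDeriv (n + 2) (fun z : ℂ => cexp (q * z ^ 2))) z := by
        rw [show n + 1 + 2 = (n + 2) + 1 from rfl, iteratedDeriv_succ]
      have h3 : iteratedDeriv (n + 2) (fun z : ℂ => cexp (q * z ^ 2)) = fun z =>
          2 * q * z * iteratedDeriv (n + 1) (fun z => cexp (q * z ^ 2)) z +
            2 * q * ((n : ℂ) + 1) * iteratedDeriv n (fun z => cexp (q * z ^ 2)) z := by
        funext w
        exact ih w
      have h4 : HasDerivAt (fun z =>
          2 * q * z * iteratedDeriv (n + 1) (fun z => cexp (q * z ^ 2)) z +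
            2 * q * ((n : ℂ) + 1) * iteratedDeriv n (fun z => cexp (q * z ^ 2)) z)
          ((2 * q * 1 * iteratedDeriv (n + 1) (fun z => cexp (q * z ^ 2)) z +
            2 * q * z * iteratedDeriv (n + 2) (fun z => cexp (q * z ^ 2)) z) +
            2 * q * ((n : ℂ) + 1) * iteratedDeriv (n + 1) (fun z => cexp (q * z ^ 2)) z) z := by
        have h5 := (hD (n + 1) z).hasDerivAt
        have h6 := (hD n z).hasDerivAt
        rw [← iteratedDeriv_succ] at h5 h6
        exact (((hasDerivAt_id' z).const_mul (2 * q)).mul h5).add (h6.const_mul _)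
      have h5 : deriv (iteratedDeriv (n + 2) (fun z : ℂ => cexp (q * z ^ 2))) z =
          (2 * q * 1 * iteratedDeriv (n + 1) (fun z => cexp (q * z ^ 2)) z +
            2 * q * z * iteratedDeriv (n + 2) (fun z => cexp (q * z ^ 2)) z) +
            2 * q * ((n : ℂ) + 1) * iteratedDeriv (n + 1) (fun z => cexp (q * z ^ 2)) z := by
        rw [h3]
        rw [h3] at h4
        exact h4.deriv
      rw [h2, h5, show n + 1 + 1 = n + 2 from rfl]
      push_cast
      ring
  rw [h1 n 0]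
  ring

private noncomputable def gT (q : ℚ) (n : ℕ) : ℚ := if Even n then q ^ (n / 2) / ((n / 2).factorial : ℚ) else 0

private theorem gT_rec (q : ℚ) (n : ℕ) : ((n : ℚ) + 2) * gT q (n + 2) = 2 * q * gT q n := by
  unfold gT
  by_cases h : Even n
  · have h2 : Even (n + 2) := h.add (by decide)
    rw [if_pos h, if_pos h2]
    obtain ⟨k, rfl⟩ := h
    have h3 : (k + k) / 2 = k := by omega
    have h4 : (k + k + 2) / 2 = k + 1 := by omega
    rw [h3, h4, Nat.factorial_succ]
    have h5 : (k.factorial : ℚ) ≠ 0 := Nat.cast_ne_zero.2 (Nat.factorial_ne_zero k)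
    have h6 : ((k : ℚ) + 1) ≠ 0 := by positivity
    push_cast
    field_simp
    ring
  · have h2 : ¬ Even (n + 2) := by
      intro h2
      apply h
      rw [Nat.even_add] at h2
      exact h2.2 (by decide)
    rw [if_neg h, if_neg h2]
    ring

private theorem gT_tay (q : ℚ) (n : ℕ) :
    iteratedDeriv n (fun z => cexp ((q : ℂ) * z ^ 2)) 0 = (n.factorial : ℂ) * (gT q n : ℂ) := by
  induction n using Nat.twoStepInduction with
  | zero =>
    rw [iteratedDeriv_zero]
    simp [gT]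
  | one =>
    have h2 : HasDerivAt (fun z : ℂ => cexp ((q : ℂ) * z ^ 2)) 0 0 := by
      have h3 : HasDerivAt (fun z : ℂ => (q : ℂ) * z ^ 2) ((q : ℂ) * (2 * 0)) 0 := by
        simpa using (hasDerivAt_pow 2 (0 : ℂ)).const_mul (q : ℂ)
      simpa using h3.cexp
    rw [iteratedDeriv_one, h2.deriv]
    simp [gT]
  | more n ih _ =>
    rw [sigT_rec, ih]
    have h1 := gT_rec q n
    have h2 : ((n : ℂ) + 2) * (gT q (n + 2) : ℂ) = 2 * (q : ℂ) * (gT q n : ℂ) := by exact_mod_cast h1
    rw [Nat.factorial_succ, Nat.factorial_succ]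
    push_cast
    linear_combination (-((n : ℂ) + 1) * (n.factorial : ℂ)) * h2

theorem ratTay_gauss (q : ℚ) : RatTay (fun z => cexp ((q : ℂ) * z ^ 2)) := by
  obtain ⟨C₀, hC₀, hB⟩ := sigT_bdd (s := fun z => cexp ((q : ℂ) * z ^ 2)) (by fun_prop) (gT_tay q)
  have hden : (1 : ℝ) ≤ q.den := by exact_mod_cast q.den_pos
  have hld : 0 ≤ Real.log q.den := Real.log_nonneg hden
  refine ⟨gT q, gT_tay q, C₀ + 4 * Real.log q.den + 2, by positivity, fun n => (hB n).trans (by linarith),
    fun N => ⟨q.den ^ N * N.factorial, by positivity, ?_, ?_⟩⟩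
  · have hN0 : (0 : ℝ) ≤ N := Nat.cast_nonneg N
    have hf0 : (0 : ℝ) < N.factorial := by exact_mod_cast N.factorial_pos
    have hd0 : (0 : ℝ) < (q.den : ℝ) ^ N := by positivity
    push_cast
    rw [← Real.log_le_iff_le_exp (mul_pos hd0 hf0), Real.log_mul hd0.ne' hf0.ne', Real.log_pow]
    obtain ⟨L, hL⟩ : ∃ L, L = Real.log ((N : ℝ) + 2) := ⟨_, rfl⟩
    rw [← hL]
    have hL2 : 1 ≤ 2 * L := by
      have h1 : Real.log 2 ≤ L := by
        rw [hL]
        exact Real.log_le_log (by norm_num) (by linarith)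
      have h2 := Real.log_two_gt_d9
      linarith
    have hL0 : 0 ≤ L := by linarith
    have hlogN : Real.log N ≤ L := by
      rcases Nat.eq_zero_or_pos N with h | h
      · subst h
        simpa using hL0
      · rw [hL]
        exact Real.log_le_log (by exact_mod_cast h) (by linarith)
    have hfac : Real.log (N.factorial : ℝ) ≤ N * L := by
      have h1 : (N.factorial : ℝ) ≤ (N : ℝ) ^ N := by exact_mod_cast Nat.factorial_le_pow N
      calc Real.log (N.factorial : ℝ) ≤ Real.log ((N : ℝ) ^ N) := Real.log_le_log hf0 h1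
        _ = N * Real.log N := by rw [Real.log_pow]
        _ ≤ N * L := mul_le_mul_of_nonneg_left hlogN hN0
    have hL4 : 1 ≤ 4 * L ^ 2 := by nlinarith
    have hLL : L ≤ 2 * L ^ 2 := by nlinarith
    have e1 : N * Real.log q.den ≤ 4 * Real.log q.den * (N + 1) * L ^ 2 := by
      have h1 : 0 ≤ (N : ℝ) * Real.log q.den := mul_nonneg hN0 hld
      have h2 : (N : ℝ) * Real.log q.den * 1 ≤ N * Real.log q.den * (4 * L ^ 2) :=
        mul_le_mul_of_nonneg_left hL4 h1
      have h3 : 0 ≤ Real.log q.den * L ^ 2 := mul_nonneg hld (sq_nonneg _)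
      nlinarith
    have e2 : N * L ≤ 2 * (N + 1) * L ^ 2 := by
      have h1 : (N : ℝ) * L ≤ N * (2 * L ^ 2) := mul_le_mul_of_nonneg_left hLL hN0
      nlinarith [sq_nonneg L]
    have e3 : 0 ≤ C₀ * (N + 1) * L ^ 2 := by positivity
    nlinarith
  · intro n hn
    unfold gT
    by_cases h : Even n
    · rw [if_pos h]
      have hk : n / 2 ≤ N := (Nat.div_le_self n 2).trans hn
      obtain ⟨k, hkd⟩ : ∃ k, k = n / 2 := ⟨_, rfl⟩
      rw [← hkd] at hk ⊢
      obtain ⟨c, hc⟩ := Nat.factorial_dvd_factorial hk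
      obtain ⟨m, rfl⟩ := Nat.exists_eq_add_of_le hk
      refine ⟨(c : ℤ) * (q.den : ℤ) ^ m * q.num ^ k, ?_⟩
      have h5 : (k.factorial : ℚ) ≠ 0 := Nat.cast_ne_zero.2 (Nat.factorial_ne_zero k)
      have h6 : (q.num : ℚ) = (q.den : ℚ) * q := (Rat.den_mul_eq_num q).symm
      rw [hc]
      push_cast
      rw [h6]
      field_simp
      ring
    · rw [if_neg h]
      exact ⟨0, by simp⟩

end Pool.Agent.ROH8
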