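import Pool.Agent.ROH8.Cm
import Pool.Agent.ROH8.Eta
import Pool.Agent.ROH8.SigT
import Pool.Agent.ROH8.SigQ
import Pool.Agent.ROH.SFin

/-!
ROH8-SigS. The sigma function of the lattice `v (ℤ + ℤ √-2)`, multiplied by `exp (-z²/12)`.
-/

set_option autoImplicit false

namespace Pool.Agent.ROH8

open Complex ComplexConjugate Finset Pool.Agent.ROH

private theorem sgS_uniq (s : ℂ → ℂ) (hs : Differentiable ℂ s) (hne : ∃ z, s z ≠ 0) (c c' α α' : ℂ)
    (hc : c ≠ 0) (h : ∀ z, c * cexp (α * z) * s z = c' * cexp (α' * z) * s z) : α = α' ∧ c = c' := by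
  obtain ⟨z0, hz0⟩ := hne
  have hev : (fun z => c * cexp (α * z)) =ᶠ[nhds z0] fun z => c' * cexp (α' * z) := by
    have h1 : ∀ᶠ z in nhds z0, s z ≠ 0 := hs.continuous.continuousAt.eventually_ne hz0
    filter_upwards [h1] with z hz
    exact mul_right_cancel₀ hz (h z)
  have h0 : c * cexp (α * z0) = c' * cexp (α' * z0) := hev.self_of_nhds
  have hd : ∀ a b : ℂ, HasDerivAt (fun z => a * cexp (b * z)) (a * (cexp (b * z0) * (b * 1))) z0 := by
    intro a b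
    exact (((hasDerivAt_id z0).const_mul b).cexp).const_mul a
  have h1 : c * (cexp (α * z0) * (α * 1)) = c' * (cexp (α' * z0) * (α' * 1)) := by
    rw [← (hd c α).deriv, ← (hd c' α').deriv]
    exact hev.deriv_eq
  have hE : c * cexp (α * z0) ≠ 0 := mul_ne_zero hc (Complex.exp_ne_zero _)
  have h2 : c * cexp (α * z0) * α = c * cexp (α * z0) * α' := by
    calc c * cexp (α * z0) * α = c * (cexp (α * z0) * (α * 1)) := by ring
      _ = c' * (cexp (α' * z0) * (α' * 1)) := h1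
      _ = c' * cexp (α' * z0) * α' := by ring
      _ = _ := by rw [h0]
  have h3 : α = α' := mul_left_cancel₀ hE h2
  refine ⟨h3, ?_⟩
  rw [h3] at h0
  exact mul_right_cancel₀ (Complex.exp_ne_zero _) h0

/-- the shift of `f z = sg L (v z) exp (-(v z)²/12)` -/
private theorem sgS_shift (L : PeriodPair) (v : ℂ) {l l' α c : ℂ} (hl : v * l' = l)
    (h : ∀ z, sg L (z + l) = c * cexp (α * z) * sg L z) (z : ℂ) :
    sg L (v * (z + l')) * cexp (((-1 / 12 : ℚ) : ℂ) * (v * (z + l')) ^ 2) =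
      (c * cexp (-(l ^ 2) / 12)) * cexp ((α * v - v * l / 6) * z) *
        (sg L (v * z) * cexp (((-1 / 12 : ℚ) : ℂ) * (v * z) ^ 2)) := by
  have h1 : v * (z + l') = v * z + l := by rw [mul_add, hl]
  rw [h1, h (v * z)]
  have h2 : cexp (((-1 / 12 : ℚ) : ℂ) * (v * z + l) ^ 2) = cexp (-(l ^ 2) / 12) * cexp (-(v * l / 6) * z) *
      cexp (((-1 / 12 : ℚ) : ℂ) * (v * z) ^ 2) := by
    rw [← Complex.exp_add, ← Complex.exp_add]
    congr 1
    push_cast
    ring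
  have h3 : cexp ((α * v - v * l / 6) * z) = cexp (α * (v * z)) * cexp (-(v * l / 6) * z) := by
    rw [← Complex.exp_add]
    congr 1
    ring
  rw [h2, h3]
  ring

theorem sigma8 (v : ℝ) (L : PeriodPair) (hv : 0 < v) (h1 : L.ω₁ = v) (h2 : L.ω₂ = v * w2)
    (he : L.weierstrassP (L.ω₂ / 2) = -2 / 3) :
    ∃ (s : ℂ → ℂ) (n : ℕ), 0 < n ∧ Differentiable ℂ s ∧ RatTay s ∧
      QP (fun z => s (v * z)) (n * (Real.pi / Real.sqrt 2)) w2 := by
  have hω : L.ω₂ = w2 * L.ω₁ := by rw [h1, h2, mul_comm]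
  obtain ⟨hg2, hg3⟩ := cm_inv L hω
  rw [he] at hg2 hg3
  have hvc : (v : ℂ) ≠ 0 := by exact_mod_cast hv.ne'
  have hR : RatTay (fun z => sg L z * cexp (((-1 / 12 : ℚ) : ℂ) * z ^ 2)) := by
    refine ratTay_mul (differentiable_sg L) ?_ (ratTay_sg L (10 / 3) (28 / 27) ?_ ?_) (ratTay_gauss _)
    · fun_prop
    · rw [hg2]
      push_cast
      norm_num
    · rw [hg3]
      push_cast
      norm_num
  have hS : Differentiable ℂ (fun z => sg L z * cexp (((-1 / 12 : ℚ) : ℂ) * z ^ 2)) := by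
    have h3 := differentiable_sg L
    fun_prop
  have hF : Differentiable ℂ (fun z => sg L (v * z) * cexp (((-1 / 12 : ℚ) : ℂ) * (v * z) ^ 2)) := by
    have h3 := differentiable_sg L
    fun_prop
  have hFne : ∃ z : ℂ, sg L (v * z) * cexp (((-1 / 12 : ℚ) : ℂ) * (v * z) ^ 2) ≠ 0 := by
    refine ⟨1 / 2, mul_ne_zero ?_ (Complex.exp_ne_zero _)⟩
    apply sg_ne
    have h3 : (v : ℂ) * (1 / 2) = L.ω₁ / 2 := by rw [h1]; ring
    rw [h3]
    exact L.ω₁_div_two_notMem_lattice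
  obtain ⟨n, hn, hQ⟩ := qp_of2 (fun z => sg L (v * z) * cexp (((-1 / 12 : ℚ) : ℂ) * (v * z) ^ 2)) hF
    (by simp [sg_zero]) hFne w2 (by rw [w2_im]; exact Real.sqrt_pos.2 (by norm_num))
    (by
      intro z
      show sg L (v * -z) * _ = -(sg L (v * z) * _)
      rw [mul_neg, sg_neg, neg_sq, neg_mul])
    (by
      intro α₁ c₁ α₂ c₂ hc1 hc2 hz1 hz2
      obtain ⟨a, c, hc, ha⟩ := sg_add L L.ω₁ L.ω₁_mem_lattice
      obtain ⟨b, d, hd, hb⟩ := sg_add L L.ω₂ L.ω₂_mem_lattice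
      have hab := eta8 L hω a c b d hc hd ha hb
      rw [dbl_wP_one L hω, he, q2_eq] at hab
      have e1 : (v : ℂ) * 1 = L.ω₁ := by rw [h1, mul_one]
      have e2 : (v : ℂ) * w2 = L.ω₂ := by rw [h2]
      have u1 := (sgS_uniq _ hF hFne c₁ (c * cexp (-(L.ω₁ ^ 2) / 12)) α₁ (a * v - v * L.ω₁ / 6) hc1 (fun z => by
        rw [← hz1 z]
        exact sgS_shift L v e1 ha z)).1
      have u2 := (sgS_uniq _ hF hFne c₂ (d * cexp (-(L.ω₂ ^ 2) / 12)) α₂ (b * v - v * L.ω₂ / 6) hc2 (fun z => by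
        rw [← hz2 z]
        exact sgS_shift L v e2 hb z)).1
      rw [u1, u2, hab, conj_w2, hω, h1]
      ring)
    (by
      intro m k
      obtain ⟨a, c, hc, ha⟩ := sg_add L (m * L.ω₁ + k * L.ω₂) (PeriodPair.mem_lattice.2 ⟨m, k, rfl⟩)
      have e1 : (v : ℂ) * (m + k * w2) = m * L.ω₁ + k * L.ω₂ := by rw [h1, h2]; ring
      refine ⟨_, _, mul_ne_zero hc (Complex.exp_ne_zero _), fun z => sgS_shift L v e1 ha z⟩)
  rw [w2_im] at hQ
  exact ⟨_, n, hn, hS, hR, hQ⟩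

end Pool.Agent.ROH8
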