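import Pool.Agent.ROH8.KOB
import Mathlib.NumberTheory.LegendreSymbol.JacobiSymbol
import Mathlib.Tactic.NormNum.LegendreSymbol

/-!
Project ROH8, final part 1: the three quadratic characters as class functions of gamma products.
-/

set_option autoImplicit false

namespace Pool.Agent.ROH8

open Finset Pool.Agent.Helper99.Rohr
open scoped NumberTheorySymbols

theorem saw_div {N : ℕ} (hN : 0 < N) (m j : ℕ) :
    saw m ((j : ℚ) / N) = (((m * j) % N : ℕ) : ℚ) / N - 1 / 2 := by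
  have hN' : (0 : ℚ) < N := by exact_mod_cast hN
  unfold saw
  congr 1
  rw [Int.fract_eq_iff]
  refine ⟨by positivity, ?_, ((m * j) / N : ℕ), ?_⟩
  · rw [div_lt_one hN']
    exact_mod_cast Nat.mod_lt _ hN
  · have h6 : ((m * j : ℕ) : ℚ) = N * ((m * j) / N : ℕ) + ((m * j) % N : ℕ) := by
      exact_mod_cast (Nat.div_add_mod _ N).symm
    have h7 : (m : ℚ) * ((j : ℚ) / N) = ((m * j : ℕ) : ℚ) / N := by push_cast; ring
    rw [h7, h6, Int.cast_natCast]
    field_simp
    ring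

/-- a class function of level 24 realised by a product of gamma values, equal to a power of `x` up to
an algebraic factor -/
structure Gen (χ : ℕ → ℚ) (x : ℝ) : Prop where
  pos : 0 < x
  ex : ∃ (s : Finset ℚ) (c : ℚ → ℚ) (k : ℚ), k ≠ 0 ∧ (∀ y ∈ s, IsPt 24 y) ∧
    (∀ m : ℕ, m.Coprime 24 → ∑ y ∈ s, c y * saw m y = χ m) ∧
    ∑ y ∈ s, (c y : ℝ) * lg y - k * Real.log x ∈ LogAlg

theorem J1 {m : ℕ} (h : m.Coprime 24) : (J(-1 | m) : ℤ) = if m % 4 = 1 then 1 else -1 := by
  have hodd : Odd m := Nat.coprime_two_right.1 (h.coprime_dvd_right (by norm_num))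
  rw [jacobiSym.at_neg_one hodd]
  have h4 : m % 4 = 1 ∨ m % 4 = 3 := by
    have := Nat.odd_iff.1 hodd
    omega
  rcases h4 with h4 | h4
  · rw [ZMod.χ₄_nat_one_mod_four h4, if_pos h4]
  · rw [ZMod.χ₄_nat_three_mod_four h4, if_neg (by omega)]

theorem J2 {m : ℕ} (h : m.Coprime 24) :
    (J(-2 | m) : ℤ) = if m % 8 = 1 ∨ m % 8 = 3 then 1 else -1 := by
  have hodd : Odd m := Nat.coprime_two_right.1 (h.coprime_dvd_right (by norm_num))
  rw [jacobiSym.at_neg_two hodd, ZMod.χ₈'_nat_eq_if_mod_eight]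
  have := Nat.odd_iff.1 hodd
  rw [if_neg (by omega)]

theorem J3 {m : ℕ} (h : m.Coprime 24) : (J(-3 | m) : ℤ) = if m % 3 = 1 then 1 else -1 := by
  have hodd : Odd m := Nat.coprime_two_right.1 (h.coprime_dvd_right (by norm_num))
  have h3 : Nat.Coprime 3 m := (h.coprime_dvd_right (by norm_num)).symm
  have h3' : ¬ 3 ∣ m := (Nat.Prime.coprime_iff_not_dvd Nat.prime_three).1 h3
  have h2 := Nat.odd_iff.1 hodd
  rw [jacobiSym.mod_right _ hodd]
  have e : 4 * (-3 : ℤ).natAbs = 12 := by norm_num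
  rw [e]
  have h12 : m % 12 = 1 ∨ m % 12 = 5 ∨ m % 12 = 7 ∨ m % 12 = 11 := by omega
  rcases h12 with h | h | h | h
  · rw [h, if_pos (by omega)]
    norm_num
  · rw [h, if_neg (by omega)]
    norm_num
  · rw [h, if_pos (by omega)]
    norm_num
  · rw [h, if_neg (by omega)]
    norm_num

theorem pt24 {x : ℚ} (h0 : 0 < x) (h1 : x < 1) (z : ℤ) (hz : 24 * x = z) : IsPt 24 x :=
  ⟨h0, h1, z, by exact_mod_cast hz⟩

theorem gen1 : Gen (fun m => (J(-1 | m) : ℤ)) (Real.Gamma (1 / 4) / Real.sqrt Real.pi) := by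
  refine ⟨div_pos (Real.Gamma_pos_of_pos (by norm_num)) (Real.sqrt_pos.2 Real.pi_pos),
    {1 / 4}, fun _ => -4, -4, by norm_num, ?_, ?_, ?_⟩
  · intro y hy
    rw [mem_singleton] at hy
    subst hy
    exact pt24 (by norm_num) (by norm_num) 6 (by norm_num)
  · intro m hm
    rw [sum_singleton]
    have e : (1 / 4 : ℚ) = ((1 : ℕ) : ℚ) / ((4 : ℕ) : ℚ) := by norm_num
    rw [e, saw_div (by norm_num), mul_one]
    simp only
    rw [J1 hm]
    have hodd := Nat.odd_iff.1 (Nat.coprime_two_right.1 (hm.coprime_dvd_right (by norm_num)))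
    have h4 : m % 4 = 1 ∨ m % 4 = 3 := by omega
    rcases h4 with h4 | h4
    · rw [h4, if_pos rfl]
      norm_num
    · rw [h4, if_neg (by norm_num)]
      norm_num
  · rw [sum_singleton]
    have e : lg (1 / 4) = Real.log (Real.Gamma (1 / 4) / Real.sqrt Real.pi) := by
      unfold lg
      rw [Real.log_div (Real.Gamma_pos_of_pos (by norm_num)).ne' (Real.sqrt_pos.2 Real.pi_pos).ne',
        Real.log_sqrt Real.pi_pos.le]
      norm_num
    rw [e, sub_self]
    exact LogAlg.zero_mem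

theorem gen3 : Gen (fun m => (J(-3 | m) : ℤ)) (Real.Gamma (1 / 3) / Real.sqrt Real.pi) := by
  refine ⟨div_pos (Real.Gamma_pos_of_pos (by norm_num)) (Real.sqrt_pos.2 Real.pi_pos),
    {1 / 3}, fun _ => -6, -6, by norm_num, ?_, ?_, ?_⟩
  · intro y hy
    rw [mem_singleton] at hy
    subst hy
    exact pt24 (by norm_num) (by norm_num) 8 (by norm_num)
  · intro m hm
    rw [sum_singleton]
    have e : (1 / 3 : ℚ) = ((1 : ℕ) : ℚ) / ((3 : ℕ) : ℚ) := by norm_num
    rw [e, saw_div (by norm_num), mul_one]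
    simp only
    rw [J3 hm]
    have h3 : Nat.Coprime 3 m := (hm.coprime_dvd_right (by norm_num)).symm
    have h3' : ¬ 3 ∣ m := (Nat.Prime.coprime_iff_not_dvd Nat.prime_three).1 h3
    have h4 : m % 3 = 1 ∨ m % 3 = 2 := by omega
    rcases h4 with h4 | h4
    · rw [h4, if_pos rfl]
      norm_num
    · rw [h4, if_neg (by norm_num)]
      norm_num
  · rw [sum_singleton]
    have e : lg (1 / 3) = Real.log (Real.Gamma (1 / 3) / Real.sqrt Real.pi) := by
      unfold lg
      rw [Real.log_div (Real.Gamma_pos_of_pos (by norm_num)).ne' (Real.sqrt_pos.2 Real.pi_pos).ne',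
        Real.log_sqrt Real.pi_pos.le]
      norm_num
    rw [e, sub_self]
    exact LogAlg.zero_mem

theorem gen2 : Gen (fun m => (J(-2 | m) : ℤ))
    (Real.Gamma (1 / 8) * Real.Gamma (3 / 8) / Real.pi) := by
  have g1 : 0 < Real.Gamma (1 / 8) := Real.Gamma_pos_of_pos (by norm_num)
  have g3 : 0 < Real.Gamma (3 / 8) := Real.Gamma_pos_of_pos (by norm_num)
  have hne : (1 / 8 : ℚ) ∉ ({3 / 8} : Finset ℚ) := by norm_num
  refine ⟨div_pos (mul_pos g1 g3) Real.pi_pos,
    {1 / 8, 3 / 8}, fun _ => -2, -2, by norm_num, ?_, ?_, ?_⟩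
  · intro y hy
    rw [mem_insert, mem_singleton] at hy
    rcases hy with rfl | rfl
    · exact pt24 (by norm_num) (by norm_num) 3 (by norm_num)
    · exact pt24 (by norm_num) (by norm_num) 9 (by norm_num)
  · intro m hm
    rw [sum_insert hne, sum_singleton]
    have e1 : (1 / 8 : ℚ) = ((1 : ℕ) : ℚ) / ((8 : ℕ) : ℚ) := by norm_num
    have e3 : (3 / 8 : ℚ) = ((3 : ℕ) : ℚ) / ((8 : ℕ) : ℚ) := by norm_num
    rw [e1, e3, saw_div (by norm_num), saw_div (by norm_num), mul_one]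
    simp only
    rw [J2 hm]
    have hodd := Nat.odd_iff.1 (Nat.coprime_two_right.1 (hm.coprime_dvd_right (by norm_num)))
    have h8 : m % 8 = 1 ∨ m % 8 = 3 ∨ m % 8 = 5 ∨ m % 8 = 7 := by omega
    rcases h8 with h8 | h8 | h8 | h8
    · have h9 : m * 3 % 8 = 3 := by omega
      rw [h8, h9, if_pos (Or.inl rfl)]
      norm_num
    · have h9 : m * 3 % 8 = 1 := by omega
      rw [h8, h9, if_pos (Or.inr rfl)]
      norm_num
    · have h9 : m * 3 % 8 = 7 := by omega
      rw [h8, h9, if_neg (by norm_num)]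
      norm_num
    · have h9 : m * 3 % 8 = 5 := by omega
      rw [h8, h9, if_neg (by norm_num)]
      norm_num
  · rw [sum_insert hne, sum_singleton]
    have e : lg (1 / 8) + lg (3 / 8) =
        Real.log (Real.Gamma (1 / 8) * Real.Gamma (3 / 8) / Real.pi) := by
      unfold lg
      rw [Real.log_div (mul_pos g1 g3).ne' Real.pi_pos.ne', Real.log_mul g1.ne' g3.ne']
      push_cast
      ring
    rw [← e]
    have e2 : ((-2 : ℚ) : ℝ) * lg (1 / 8) + ((-2 : ℚ) : ℝ) * lg (3 / 8) -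
        ((-2 : ℚ) : ℝ) * (lg (1 / 8) + lg (3 / 8)) = 0 := by ring
    rw [e2]
    exact LogAlg.zero_mem

end Pool.Agent.ROH8
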