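import Pool.Agent.ROH8.ZGen
import Pool.Agent.ROH.ZFin

/-!
Project ROH8, final part 2: Rohrlich's question for tuples with class function in the span of two
characters, from the algebraic independence of the two periods.
-/

set_option autoImplicit false

namespace Pool.Agent.ROH8

open Finset Pool.Agent.Helper99.Rohr Pool.Agent.GP.DedM Pool.Agent.ROH IntermediateField

theorem isPt_fract {N : ℕ} {x : ℚ} (hx : ∃ z : ℤ, (N : ℚ) * x = z) (h : Int.fract x ≠ 0) :
    IsPt N (Int.fract x) := by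
  obtain ⟨z, hz⟩ := hx
  refine ⟨lt_of_le_of_ne (Int.fract_nonneg _) (Ne.symm h), Int.fract_lt_one _,
    z - N * ⌊x⌋, ?_⟩
  have h1 : Int.fract x = x - ⌊x⌋ := rfl
  rw [h1]
  push_cast
  rw [← hz]
  ring

/-- sums of fractional parts and the sawtooth sum of the non-integral entries -/
theorem sum_frac' {r : ℕ} (a : Fin r → ℚ) (m : ℕ) :
    ∑ i, Int.fract ((m : ℚ) * a i) = ∑ i ∈ nonInt a, saw m (Int.fract (a i)) +
      ((r : ℚ) - intCount a) / 2 := by
  classical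
  have hcard : ((nonInt a).card : ℚ) = r - intCount a := by
    have h1 : (nonInt a).card + intCount a = r := by
      unfold nonInt intCount
      rw [add_comm]
      have := Finset.card_filter_add_card_filter_not (s := (univ : Finset (Fin r)))
        (fun i => Int.fract (a i) = 0)
      simpa using this
    have h2 : (((nonInt a).card + intCount a : ℕ) : ℚ) = r := by rw [h1]
    push_cast at h2
    linarith
  have h1 : ∑ i, Int.fract ((m : ℚ) * a i) = ∑ i ∈ nonInt a, Int.fract ((m : ℚ) * a i) := by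
    symm
    apply sum_subset (subset_univ _)
    intro i _ hi
    have h2 : Int.fract (a i) = 0 := by
      by_contra h
      exact hi (mem_filter.2 ⟨mem_univ _, h⟩)
    rw [Int.fract_eq_iff] at h2
    obtain ⟨-, -, z, hz⟩ := h2
    rw [sub_zero] at hz
    have h3 : (m : ℚ) * a i = ((m * z : ℤ) : ℚ) := by rw [hz]; push_cast; ring
    rw [h3, Int.fract_intCast]
  have h2 : ∀ i, Int.fract ((m : ℚ) * a i) = saw m (Int.fract (a i)) + 1 / 2 := by
    intro i
    unfold saw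
    have h3 : (m : ℚ) * a i = (m : ℚ) * Int.fract (a i) + ((m * ⌊a i⌋ : ℤ) : ℚ) := by
      push_cast
      rw [← mul_add, Int.fract_add_floor]
    rw [h3, Int.fract_add_intCast]
    ring
  rw [h1, sum_congr rfl (fun i _ => h2 i), sum_add_distrib, sum_const, nsmul_eq_mul, hcard]
  ring

/-- **Koblitz-Ogus for tuples.** -/
theorem tuple_ko {r : ℕ} (a : Fin r → ℚ) {N : ℕ} (hN : 0 < N)
    (hNa : ∀ i, ∃ z : ℤ, (N : ℚ) * a i = z) {s : Finset ℚ} {c : ℚ → ℚ}
    (hs : ∀ y ∈ s, IsPt N y)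
    (h : ∀ m : ℕ, m.Coprime N → ∑ i ∈ nonInt a, saw m (Int.fract (a i)) = ∑ y ∈ s, c y * saw m y) :
    ∑ i ∈ nonInt a, lg (Int.fract (a i)) - ∑ y ∈ s, (c y : ℝ) * lg y ∈ LogAlg := by
  have h1 := ko hN ((nonInt a).disjSum s) (Sum.elim (fun _ => 1) (fun y => -c y))
    (Sum.elim (fun i => Int.fract (a i)) id) (by
      intro i hi
      rcases i with i | y
      · rw [inl_mem_disjSum] at hi
        exact isPt_fract (hNa i) (mem_filter.1 hi).2
      · rw [inr_mem_disjSum] at hi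
        exact hs y hi) (by
      intro m hm
      rw [sum_disjSum]
      simp only [Sum.elim_inl, Sum.elim_inr, one_mul, id, neg_mul, sum_neg_distrib]
      rw [h m hm, add_neg_cancel])
  rw [sum_disjSum] at h1
  simp only [Sum.elim_inl, Sum.elim_inr, id, Rat.cast_one, one_mul, Rat.cast_neg, neg_mul,
    sum_neg_distrib] at h1
  rwa [sub_eq_add_neg]

theorem gen_congr {χ : ℕ → ℚ} {x : ℝ} (hx : Gen χ x) {m m' : ℕ} (hm : m.Coprime 24)
    (h : m ≡ m' [MOD 24]) : χ m = χ m' := by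
  obtain ⟨-, s, c, k, -, hs, hc, -⟩ := hx
  have hm' : m'.Coprime 24 := by
    have := h.gcd_eq
    rw [Nat.coprime_iff_gcd_eq_one] at hm ⊢
    rw [← this, hm]
  rw [← hc m hm, ← hc m' hm']
  refine sum_congr rfl fun y hy => ?_
  congr 1
  unfold saw
  congr 1
  exact ROH.fract_congr h (hs y hy).2.2

/-- rational multiples in `LogAlg` -/
theorem LogAlg_rsmul {x : ℝ} (q : ℚ) (h : x ∈ LogAlg) : (q : ℝ) * x ∈ LogAlg := by
  have h1 : x ∈ LogAlgQ := h
  have h2 := LogAlgQ.smul_mem q h1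
  rwa [Rat.smul_def] at h2

theorem LogAlg_rdiv {x : ℝ} {q : ℚ} (hq : q ≠ 0) (h : (q : ℝ) * x ∈ LogAlg) : x ∈ LogAlg := by
  have h1 := LogAlg_rsmul q⁻¹ h
  have hq' : (q : ℝ) ≠ 0 := by exact_mod_cast hq
  rwa [Rat.cast_inv, ← mul_assoc, inv_mul_cancel₀ hq', one_mul] at h1

theorem mult_ind_rat {x y : ℝ} (hx : 0 < x) (hy : 0 < y) (h : AlgebraicIndependent ℚ ![x, y])
    {A B : ℚ} (hAB : (A : ℝ) * Real.log x + B * Real.log y ∈ LogAlg) : A = 0 ∧ B = 0 := by
  have h1 := LogAlg_rsmul ((A.den * B.den : ℕ) : ℚ) hAB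
  have hA : (A.den : ℚ) * A = A.num := by rw [mul_comm]; exact Rat.mul_den_eq_num A
  have hB : (B.den : ℚ) * B = B.num := by rw [mul_comm]; exact Rat.mul_den_eq_num B
  have hA' : (A.den : ℝ) * A = A.num := by exact_mod_cast hA
  have hB' : (B.den : ℝ) * B = B.num := by exact_mod_cast hB
  have h2 : (((A.den * B.den : ℕ) : ℚ) : ℝ) * ((A : ℝ) * Real.log x + B * Real.log y) =
      ((B.den * A.num : ℤ) : ℝ) * Real.log x + ((A.den * B.num : ℤ) : ℝ) * Real.log y := by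
    push_cast
    rw [← hA', ← hB']
    ring
  rw [h2] at h1
  obtain ⟨h3, h4⟩ := mult_ind hx hy h h1
  have hAd : (A.den : ℤ) ≠ 0 := by exact_mod_cast A.den_ne_zero
  have hBd : (B.den : ℤ) ≠ 0 := by exact_mod_cast B.den_ne_zero
  exact ⟨Rat.num_eq_zero.1 ((mul_eq_zero.1 h3).resolve_left hBd),
    Rat.num_eq_zero.1 ((mul_eq_zero.1 h4).resolve_left hAd)⟩

theorem no_pi_rat {t : ℝ} (ht : 0 < t) (hT : Transcendental ℚ⟮(Real.pi : ℂ)⟯ (t : ℂ)) (A : ℚ)
    (n : ℕ) (hn : 0 < n) (h : (A : ℝ) * Real.log t - (n : ℝ) / 2 * Real.log Real.pi ∈ LogAlg) :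
    False := by
  have h1 := LogAlg_rsmul (A.den : ℚ) h
  have hA : (A.den : ℚ) * A = A.num := by rw [mul_comm]; exact Rat.mul_den_eq_num A
  have hA' : (A.den : ℝ) * A = A.num := by exact_mod_cast hA
  refine no_pi ht hT A.num (A.den * n) (Nat.mul_pos A.pos hn) ?_
  have e : ((A.num : ℤ) : ℝ) * Real.log t - ((A.den * n : ℕ) : ℝ) / 2 * Real.log Real.pi =
      ((A.den : ℚ) : ℝ) * ((A : ℝ) * Real.log t - (n : ℝ) / 2 * Real.log Real.pi) := by
    push_cast
    rw [← hA']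
    ring
  rw [e]
  exact h1

/-- the class function of `a` is `A χ + B χ'` (apart from the integral entries) -/
def ClassFn (χ χ' : ℕ → ℚ) {r : ℕ} (a : Fin r → ℚ) (D : ℕ) (A B : ℚ) : Prop :=
  ∀ m : ℕ, m.Coprime (6 * D) → ∑ i, Int.fract ((m : ℚ) * a i) =
    ((r : ℚ) - intCount a) / 2 + A * χ m + B * χ' m

theorem pair_gamma {χ χ' : ℕ → ℚ} {x y : ℝ} (hx : Gen χ x) (hy : Gen χ' y) :
    ∃ k l : ℚ, k ≠ 0 ∧ l ≠ 0 ∧ ∀ (r : ℕ) (a : Fin r → ℚ) (D : ℕ) (A B : ℚ),
      0 < D → (∀ i, ∃ z : ℤ, (D : ℚ) * a i = z) → (∀ (i : Fin r) (n : ℕ), a i ≠ -(n : ℚ)) →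
      ClassFn χ χ' a D A B → (GammaMult a ↔ ((A * k : ℚ) : ℝ) * Real.log x +
        ((B * l : ℚ) : ℝ) * Real.log y - (intCount a : ℝ) / 2 * Real.log Real.pi ∈ LogAlg) := by
  classical
  obtain ⟨-, s, c, k, hk, hs, hc, hlg⟩ := hx
  obtain ⟨-, s', c', l, hl, hs', hc', hlg'⟩ := hy
  refine ⟨k, l, hk, hl, fun r a D A B hD hDa hnp hcl => ?_⟩
  have hN : 0 < 24 * D := by omega
  have hNa : ∀ i, ∃ z : ℤ, ((24 * D : ℕ) : ℚ) * a i = z := by
    intro i
    obtain ⟨z, hz⟩ := hDa i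
    refine ⟨24 * z, ?_⟩
    push_cast
    rw [mul_assoc, hz]
  have hadm : Adm (24 * D) a := ⟨by omega, hnp, hNa⟩
  -- the common finset
  set S : Finset ℚ := s ∪ s' with hS
  set C : ℚ → ℚ := fun y => A * (if y ∈ s then c y else 0) + B * (if y ∈ s' then c' y else 0)
    with hC
  have hsum : ∀ {K : Type} [Field K] [CharZero K] (f : ℚ → K),
      ∑ y ∈ S, ((C y : ℚ) : K) * f y = (A : K) * ∑ y ∈ s, ((c y : ℚ) : K) * f y +
        (B : K) * ∑ y ∈ s', ((c' y : ℚ) : K) * f y := by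
    intro K _ _ f
    have h1 : ∑ y ∈ s, ((c y : ℚ) : K) * f y =
        ∑ y ∈ S, (((if y ∈ s then c y else 0 : ℚ)) : K) * f y := by
      rw [← sum_subset (subset_union_left : s ⊆ S)]
      · refine sum_congr rfl fun y hy => by rw [if_pos hy]
      · intro y _ hy
        rw [if_neg hy, Rat.cast_zero, zero_mul]
    have h2 : ∑ y ∈ s', ((c' y : ℚ) : K) * f y =
        ∑ y ∈ S, (((if y ∈ s' then c' y else 0 : ℚ)) : K) * f y := by
      rw [← sum_subset (subset_union_right : s' ⊆ S)]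
      · refine sum_congr rfl fun y hy => by rw [if_pos hy]
      · intro y _ hy
        rw [if_neg hy, Rat.cast_zero, zero_mul]
    rw [h1, h2, mul_sum, mul_sum, ← sum_add_distrib]
    refine sum_congr rfl fun y _ => ?_
    rw [hC]
    push_cast
    ring
  have hpt : ∀ y ∈ S, IsPt (24 * D) y := by
    intro y hy
    rw [hS, mem_union] at hy
    rcases hy with hy | hy
    · exact (hs y hy).mono (Dvd.intro _ rfl)
    · exact (hs' y hy).mono (Dvd.intro _ rfl)
  have hko := tuple_ko a hN hNa (s := S) (c := C) hpt (by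
    intro m hm
    have hm24 : m.Coprime 24 := hm.coprime_dvd_right (Dvd.intro _ rfl)
    have hmD : m.Coprime (6 * D) := hm.coprime_dvd_right ⟨4, by ring⟩
    have h1 := hcl m hmD
    rw [sum_frac'] at h1
    have h2 := hsum (K := ℚ) (saw m)
    simp only [Rat.cast_id] at h2
    rw [h2, hc m hm24, hc' m hm24]
    linarith)
  have h3 := hsum (K := ℝ) lg
  rw [h3] at hko
  have h4 := LogAlg_rsmul A hlg
  have h5 := LogAlg_rsmul B hlg'
  have h6 : ∑ i ∈ nonInt a, lg (Int.fract (a i)) - (((A * k : ℚ) : ℝ) * Real.log x +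
      ((B * l : ℚ) : ℝ) * Real.log y) ∈ LogAlg := by
    have h7 := LogAlg.add_mem hko (LogAlg.add_mem h4 h5)
    have e : ∑ i ∈ nonInt a, lg (Int.fract (a i)) - (((A * k : ℚ) : ℝ) * Real.log x +
      ((B * l : ℚ) : ℝ) * Real.log y) = ∑ i ∈ nonInt a, lg (Int.fract (a i)) -
        ((A : ℝ) * ∑ y ∈ s, ((c y : ℚ) : ℝ) * lg y + (B : ℝ) * ∑ y ∈ s', ((c' y : ℚ) : ℝ) * lg y) +
      ((A : ℝ) * (∑ y ∈ s, ((c y : ℚ) : ℝ) * lg y - k * Real.log x) +
        (B : ℝ) * (∑ y ∈ s', ((c' y : ℚ) : ℝ) * lg y - l * Real.log y)) := by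
      push_cast
      ring
    rw [e]
    exact h7
  rw [gammaMult_iff hadm]
  have e : ∑ i ∈ univ.filter (fun i => Int.fract (a i) ≠ 0), lg (Int.fract (a i)) -
      (intCount a : ℝ) / 2 * Real.log Real.pi =
      (∑ i ∈ nonInt a, lg (Int.fract (a i)) - (((A * k : ℚ) : ℝ) * Real.log x +
      ((B * l : ℚ) : ℝ) * Real.log y)) + (((A * k : ℚ) : ℝ) * Real.log x +
        ((B * l : ℚ) : ℝ) * Real.log y - (intCount a : ℝ) / 2 * Real.log Real.pi) := by
    unfold nonInt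
    ring
  rw [e]
  constructor
  · intro h
    have h1 := LogAlg.sub_mem h h6
    rwa [add_sub_cancel_left] at h1
  · intro h
    exact LogAlg.add_mem h6 h

/-- the fractional part condition -/
theorem pair_frac {χ χ' : ℕ → ℚ} (hp : ∀ m m' : ℕ, m.Coprime 24 → m ≡ m' [MOD 24] → χ m = χ m')
    (hp' : ∀ m m' : ℕ, m.Coprime 24 → m ≡ m' [MOD 24] → χ' m = χ' m') {m1 m2 : ℕ}
    (hm1 : m1.Coprime 24) (hm2 : m2.Coprime 24) (hdet : χ m1 * χ' m2 - χ m2 * χ' m1 ≠ 0)
    (hneg : ∃ m3 : ℕ, m3.Coprime 24 ∧ χ m3 = -χ m1 ∧ χ' m3 = -χ' m1)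
    {r : ℕ} {a : Fin r → ℚ} {D : ℕ} {A B : ℚ} (hD : 0 < D) (hDa : ∀ i, ∃ z : ℤ, (D : ℚ) * a i = z)
    (hcl : ClassFn χ χ' a D A B) :
    (∀ m : ℕ, 1 ≤ m → m ≤ D → Nat.Coprime m D → ∑ i, Int.fract ((m : ℚ) * a i) = (r : ℚ) / 2) ↔
      A = 0 ∧ B = 0 ∧ intCount a = 0 := by
  have h6D : 0 < 6 * D := by omega
  constructor
  · intro h
    -- the identity for all `M` prime to `6 D`
    have hM : ∀ M : ℕ, M.Coprime (6 * D) → ∑ i, Int.fract ((M : ℚ) * a i) = (r : ℚ) / 2 := by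
      intro M hM
      have hMD : Nat.Coprime M D := hM.coprime_dvd_right (Dvd.intro_left _ rfl)
      have hM1 : 1 ≤ M := by
        rcases Nat.eq_zero_or_pos M with h0 | h0
        · rw [h0, Nat.coprime_zero_left] at hM
          omega
        · exact h0
      have hk : (M - 1) % D + 1 ≡ M [MOD D] := by
        have h1 : (M - 1) % D ≡ M - 1 [MOD D] := Nat.mod_modEq _ _
        have h2 := h1.add_right 1
        rwa [Nat.sub_add_cancel hM1] at h2
      have h1 := h ((M - 1) % D + 1) (by omega) (by have := Nat.mod_lt (M - 1) hD; omega) (by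
        exact hk.gcd_eq.trans hMD)
      rw [← h1]
      apply sum_congr rfl
      intro i _
      exact (ROH.fract_congr hk (hDa i)).symm
    have hall : ∀ m : ℕ, m.Coprime 24 → (0 : ℚ) = -(intCount a : ℚ) / 2 + A * χ m + B * χ' m := by
      intro m hm
      obtain ⟨M, hM24, hMm⟩ := lift_coprime (N := 24) (L := 24 * D) (by omega) (Dvd.intro _ rfl) hm
      have hM6 : M.Coprime (6 * D) := hM24.coprime_dvd_right ⟨4, by ring⟩
      have hM24' : M.Coprime 24 := hM24.coprime_dvd_right (Dvd.intro _ rfl)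
      have h1 := hM M hM6
      rw [hcl M hM6, hp M m hM24' hMm, hp' M m hM24' hMm] at h1
      linarith
    obtain ⟨m3, hm3, e3, e3'⟩ := hneg
    have e1 := hall m1 hm1
    have e2 := hall m2 hm2
    have e4 := hall m3 hm3
    rw [e3, e3'] at e4
    have hn : (intCount a : ℚ) = 0 := by linarith
    rw [hn] at e1 e2
    have f1 : A * χ m1 + B * χ' m1 = 0 := by linarith
    have f2 : A * χ m2 + B * χ' m2 = 0 := by linarith
    have hA : A * (χ m1 * χ' m2 - χ m2 * χ' m1) = 0 := by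
      linear_combination χ' m2 * f1 - χ' m1 * f2
    have hB : B * (χ m1 * χ' m2 - χ m2 * χ' m1) = 0 := by
      linear_combination χ m1 * f2 - χ m2 * f1
    exact ⟨(mul_eq_zero.1 hA).resolve_right hdet, (mul_eq_zero.1 hB).resolve_right hdet,
      by exact_mod_cast hn⟩
  · rintro ⟨rfl, rfl, hn⟩ m _ _ hm
    obtain ⟨M, hM, hMm⟩ := lift_coprime (L := 6 * D) h6D (Dvd.intro_left _ rfl) hm
    have h1 := hcl M hM
    rw [hn] at h1
    rw [← sum_congr rfl fun i _ => ROH.fract_congr hMm (hDa i), h1]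
    push_cast
    ring

/-- **the pair theorem** -/
theorem pair_final {χ χ' : ℕ → ℚ} {x y : ℝ} (hx : Gen χ x) (hy : Gen χ' y)
    (hind : AlgebraicIndependent ℚ ![x, y])
    (hTx : Transcendental ℚ⟮(Real.pi : ℂ)⟯ (x : ℂ)) (hTy : Transcendental ℚ⟮(Real.pi : ℂ)⟯ (y : ℂ))
    {m1 m2 : ℕ} (hm1 : m1.Coprime 24) (hm2 : m2.Coprime 24)
    (hdet : χ m1 * χ' m2 - χ m2 * χ' m1 ≠ 0)
    (hneg : ∃ m3 : ℕ, m3.Coprime 24 ∧ χ m3 = -χ m1 ∧ χ' m3 = -χ' m1) :
    ∃ u v : ℚ, u ≠ 0 ∧ v ≠ 0 ∧ ∀ (r : ℕ) (a : Fin r → ℚ) (D : ℕ) (A B : ℚ),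
      0 < D → (∀ i, ∃ z : ℤ, (D : ℚ) * a i = z) → (∀ (i : Fin r) (n : ℕ), a i ≠ -(n : ℚ)) →
      ClassFn χ χ' a D A B →
      ¬ (GammaMult a ↔ ∀ m : ℕ, 1 ≤ m → m ≤ D → Nat.Coprime m D →
        ∑ i, Int.fract ((m : ℚ) * a i) = (r : ℚ) / 2) →
      0 < intCount a ∧ A = u * intCount a ∧ B = v * intCount a := by
  obtain ⟨k, l, hk, hl, hg⟩ := pair_gamma hx hy
  have hx0 := hx.pos
  have hy0 := hy.pos
  -- a violating tuple
  have viol : ∀ (r : ℕ) (a : Fin r → ℚ) (D : ℕ) (A B : ℚ),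
      0 < D → (∀ i, ∃ z : ℤ, (D : ℚ) * a i = z) → (∀ (i : Fin r) (n : ℕ), a i ≠ -(n : ℚ)) →
      ClassFn χ χ' a D A B →
      ¬ (GammaMult a ↔ ∀ m : ℕ, 1 ≤ m → m ≤ D → Nat.Coprime m D →
        ∑ i, Int.fract ((m : ℚ) * a i) = (r : ℚ) / 2) →
      0 < intCount a ∧ ((A * k : ℚ) : ℝ) * Real.log x + ((B * l : ℚ) : ℝ) * Real.log y -
        (intCount a : ℝ) / 2 * Real.log Real.pi ∈ LogAlg := by
    intro r a D A B hD hDa hnp hcl hne
    have hg' := hg r a D A B hD hDa hnp hcl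
    rw [pair_frac (fun m m' h h' => gen_congr hx h h') (fun m m' h h' => gen_congr hy h h') hm1 hm2
      hdet hneg hD hDa hcl] at hne
    have h0 : 0 < intCount a := by
      by_contra h0
      have h0' : intCount a = 0 := Nat.eq_zero_of_not_pos h0
      apply hne
      rw [hg', h0']
      constructor
      · intro h
        have e : ((A * k : ℚ) : ℝ) * Real.log x + ((B * l : ℚ) : ℝ) * Real.log y -
            ((0 : ℕ) : ℝ) / 2 * Real.log Real.pi =
            ((A * k : ℚ) : ℝ) * Real.log x + ((B * l : ℚ) : ℝ) * Real.log y := by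
          push_cast; ring
        rw [e] at h
        obtain ⟨h1, h2⟩ := mult_ind_rat hx0 hy0 hind h
        exact ⟨(mul_eq_zero.1 h1).resolve_right hk, (mul_eq_zero.1 h2).resolve_right hl, rfl⟩
      · rintro ⟨rfl, rfl, -⟩
        have e : ((0 * k : ℚ) : ℝ) * Real.log x + ((0 * l : ℚ) : ℝ) * Real.log y -
            ((0 : ℕ) : ℝ) / 2 * Real.log Real.pi = 0 := by push_cast; ring
        rw [e]
        exact LogAlg.zero_mem
    refine ⟨h0, ?_⟩
    by_contra hG
    apply hne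
    rw [hg']
    constructor
    · intro h
      exact absurd h hG
    · rintro ⟨-, -, h2⟩
      omega
  by_cases hex : ∃ (n : ℕ) (A B : ℚ), 0 < n ∧
      ((A * k : ℚ) : ℝ) * Real.log x + ((B * l : ℚ) : ℝ) * Real.log y -
        (n : ℝ) / 2 * Real.log Real.pi ∈ LogAlg
  · obtain ⟨n, A, B, hn, hAB⟩ := hex
    have hnq : (0 : ℚ) < n := by exact_mod_cast hn
    have hB : B ≠ 0 := by
      rintro rfl
      apply no_pi_rat hx0 hTx (A * k) n hn
      have e : ((A * k : ℚ) : ℝ) * Real.log x - (n : ℝ) / 2 * Real.log Real.pi =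
          ((A * k : ℚ) : ℝ) * Real.log x + ((0 * l : ℚ) : ℝ) * Real.log y -
            (n : ℝ) / 2 * Real.log Real.pi := by push_cast; ring
      rw [e]
      exact hAB
    have hA : A ≠ 0 := by
      rintro rfl
      apply no_pi_rat hy0 hTy (B * l) n hn
      have e : ((B * l : ℚ) : ℝ) * Real.log y - (n : ℝ) / 2 * Real.log Real.pi =
          ((0 * k : ℚ) : ℝ) * Real.log x + ((B * l : ℚ) : ℝ) * Real.log y -
            (n : ℝ) / 2 * Real.log Real.pi := by push_cast; ring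
      rw [e]
      exact hAB
    refine ⟨A / n, B / n, div_ne_zero hA hnq.ne', div_ne_zero hB hnq.ne', ?_⟩
    intro r a D A' B' hD hDa hnp hcl hne
    obtain ⟨h0, hl'⟩ := viol r a D A' B' hD hDa hnp hcl hne
    set n' := intCount a with hn'
    have h7 := LogAlg_rsmul (n : ℚ) hl'
    have h8 := LogAlg_rsmul (n' : ℚ) hAB
    have h9 := LogAlg.sub_mem h7 h8
    have e : ((n : ℚ) : ℝ) * (((A' * k : ℚ) : ℝ) * Real.log x + ((B' * l : ℚ) : ℝ) * Real.log y -
        (n' : ℝ) / 2 * Real.log Real.pi) - ((n' : ℚ) : ℝ) * (((A * k : ℚ) : ℝ) * Real.log x +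
        ((B * l : ℚ) : ℝ) * Real.log y - (n : ℝ) / 2 * Real.log Real.pi) =
        (((n * A' - n' * A) * k : ℚ) : ℝ) * Real.log x +
          (((n * B' - n' * B) * l : ℚ) : ℝ) * Real.log y := by
      push_cast
      ring
    rw [e] at h9
    obtain ⟨h10, h11⟩ := mult_ind_rat hx0 hy0 hind h9
    have hA2 : (n : ℚ) * A' - n' * A = 0 := (mul_eq_zero.1 h10).resolve_right hk
    have hB2 : (n : ℚ) * B' - n' * B = 0 := (mul_eq_zero.1 h11).resolve_right hl
    refine ⟨h0, ?_, ?_⟩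
    · rw [div_mul_eq_mul_div, eq_div_iff hnq.ne']
      linarith
    · rw [div_mul_eq_mul_div, eq_div_iff hnq.ne']
      linarith
  · refine ⟨1, 1, one_ne_zero, one_ne_zero, ?_⟩
    intro r a D A' B' hD hDa hnp hcl hne
    obtain ⟨h0, hl'⟩ := viol r a D A' B' hD hDa hnp hcl hne
    exact absurd ⟨_, A', B', h0, hl'⟩ hex

end Pool.Agent.ROH8
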