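import Pool.Agent.GP.Sym
import Pool.Agent.ROH.ZAlg

/-!
Project ROH8, final part 3: `Γ(1/8) Γ(3/8) / π` is transcendental over `ℚ(π)`.
-/

set_option autoImplicit false

namespace Pool.Agent.ROH8

open Finset Pool.Agent.GP.DedM Pool.Agent.ROH IntermediateField

theorem gamma8 : Transcendental ℚ⟮(Real.pi : ℂ)⟯
    ((Real.Gamma (1 / 8) * Real.Gamma (3 / 8) / Real.pi : ℝ) : ℂ) := by
  classical
  intro hx
  have hpi := Real.pi_pos
  have hsp : 0 < Real.sqrt Real.pi := Real.sqrt_pos.2 hpi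
  have hs2 : Real.sqrt Real.pi ^ 2 = Real.pi := Real.sq_sqrt hpi.le
  have hself := self_alg (Real.pi : ℂ)
  have hsq : IsAlgebraic ℚ⟮(Real.pi : ℂ)⟯ ((Real.sqrt Real.pi : ℝ) : ℂ) := by
    apply alg_int
    rw [hs2]
    exact hself
  have h1 : 0 < Real.Gamma (1 / 8) := Real.Gamma_pos_of_pos (by norm_num)
  have h3 : 0 < Real.Gamma (3 / 8) := Real.Gamma_pos_of_pos (by norm_num)
  have h5 : 0 < Real.Gamma (5 / 8) := Real.Gamma_pos_of_pos (by norm_num)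
  have h7 : 0 < Real.Gamma (7 / 8) := Real.Gamma_pos_of_pos (by norm_num)
  have hhalf : Real.Gamma (1 / 2) = Real.sqrt Real.pi := Real.Gamma_one_half_eq
  -- first value
  have hB1 : IsAlgebraic ℚ⟮(Real.pi : ℂ)⟯
      ((Real.Gamma (1 / 8) * Real.Gamma (3 / 8) / Real.Gamma (1 / 2) : ℝ) : ℂ) := by
    have e : Real.Gamma (1 / 8) * Real.Gamma (3 / 8) / Real.Gamma (1 / 2) =
        (Real.Gamma (1 / 8) * Real.Gamma (3 / 8) / Real.pi) * Real.sqrt Real.pi := by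
      rw [hhalf]
      have : Real.pi = Real.sqrt Real.pi * Real.sqrt Real.pi := by rw [← sq, hs2]
      rw [div_mul_eq_mul_div, div_eq_div_iff hsp.ne' hpi.ne']
      calc Real.Gamma (1 / 8) * Real.Gamma (3 / 8) * Real.pi =
          Real.Gamma (1 / 8) * Real.Gamma (3 / 8) * (Real.sqrt Real.pi * Real.sqrt Real.pi) := by
            rw [← this]
        _ = _ := by ring
    rw [e, Complex.ofReal_mul]
    exact hx.mul hsq
  -- second value
  have hB5 : IsAlgebraic ℚ⟮(Real.pi : ℂ)⟯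
      ((Real.Gamma (5 / 8) * Real.Gamma (7 / 8) / Real.Gamma (3 / 2) : ℝ) : ℂ) := by
    obtain ⟨s, hs0, hs, e1⟩ := pi_eq (D := 8) (j := 1) (by norm_num) (by norm_num)
    obtain ⟨t, ht0, ht, e3⟩ := pi_eq (D := 8) (j := 3) (by norm_num) (by norm_num)
    have f1 : (((1 : ℕ) : ℝ)) / ((8 : ℕ) : ℝ) = 1 / 8 := by norm_num
    have f3 : (((3 : ℕ) : ℝ)) / ((8 : ℕ) : ℝ) = 3 / 8 := by norm_num
    have f7 : (((8 - 1 : ℕ) : ℝ)) / ((8 : ℕ) : ℝ) = 7 / 8 := by norm_num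
    have f5 : (((8 - 3 : ℕ) : ℝ)) / ((8 : ℕ) : ℝ) = 5 / 8 := by norm_num
    rw [f1, f7] at e1
    rw [f3, f5] at e3
    have hth : Real.Gamma (3 / 2) = Real.sqrt Real.pi / 2 := by
      have := Real.Gamma_add_one (s := 1 / 2) (by norm_num)
      rw [hhalf] at this
      have e : (1 / 2 + 1 : ℝ) = 3 / 2 := by norm_num
      rw [e] at this
      rw [this]
      ring
    have e : Real.Gamma (5 / 8) * Real.Gamma (7 / 8) / Real.Gamma (3 / 2) =
        (s * t)⁻¹ * ((Real.Gamma (1 / 8) * Real.Gamma (3 / 8) / Real.pi)⁻¹ *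
          (Real.pi * (2 * (Real.sqrt Real.pi)⁻¹))) := by
      have g7 : Real.Gamma (7 / 8) = Real.pi / (Real.Gamma (1 / 8) * s) := by
        rw [eq_div_iff (mul_ne_zero h1.ne' hs0)]
        rw [e1]
        ring
      have g5 : Real.Gamma (5 / 8) = Real.pi / (Real.Gamma (3 / 8) * t) := by
        rw [eq_div_iff (mul_ne_zero h3.ne' ht0)]
        rw [e3]
        ring
      rw [g7, g5, hth]
      field_simp
    rw [e]
    rw [Complex.ofReal_mul, Complex.ofReal_mul, Complex.ofReal_mul, Complex.ofReal_mul,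
      Complex.ofReal_inv, Complex.ofReal_inv, Complex.ofReal_inv]
    refine (alg_up (hs.mul ht)).inv.mul (hx.inv.mul (hself.mul (IsAlgebraic.mul ?_ hsq.inv)))
    exact_mod_cast isAlgebraic_natCast (R := ℚ⟮(Real.pi : ℂ)⟯) (A := ℂ) 2
  have key := Pool.Agent.GP.thmA_sym 8 1 3 (by norm_num) (by decide) (by decide) (by decide)
    (Or.inl (by decide)) (Real.pi : ℂ)
  have htot : Nat.totient 8 = 4 := by decide
  rw [htot] at key
  have hsub : ({1, 3, 5} : Finset ℕ) ⊆ ((range 8).filter fun t : ℕ => t.Coprime 8 ∧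
      IsAlgebraic ℚ⟮(Real.pi : ℂ)⟯
      ((Real.Gamma ((t * 1 % 8 : ℕ) / (8 : ℕ)) * Real.Gamma ((t * 3 % 8 : ℕ) / (8 : ℕ)) /
        Real.Gamma ((t * 1 % 8 : ℕ) / (8 : ℕ) + (t * 3 % 8 : ℕ) / (8 : ℕ)) : ℝ) : ℂ)) := by
    intro t ht
    rw [mem_insert, mem_insert, mem_singleton] at ht
    rw [mem_filter, mem_range]
    rcases ht with rfl | rfl | rfl
    · refine ⟨by norm_num, by decide, ?_⟩
      have e : Real.Gamma ((1 * 1 % 8 : ℕ) / (8 : ℕ)) * Real.Gamma ((1 * 3 % 8 : ℕ) / (8 : ℕ)) /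
        Real.Gamma ((1 * 1 % 8 : ℕ) / (8 : ℕ) + (1 * 3 % 8 : ℕ) / (8 : ℕ)) =
          Real.Gamma (1 / 8) * Real.Gamma (3 / 8) / Real.Gamma (1 / 2) := by norm_num
      rw [e]
      exact hB1
    · refine ⟨by norm_num, by decide, ?_⟩
      have e : Real.Gamma ((3 * 1 % 8 : ℕ) / (8 : ℕ)) * Real.Gamma ((3 * 3 % 8 : ℕ) / (8 : ℕ)) /
        Real.Gamma ((3 * 1 % 8 : ℕ) / (8 : ℕ) + (3 * 3 % 8 : ℕ) / (8 : ℕ)) =
          Real.Gamma (3 / 8) * Real.Gamma (1 / 8) / Real.Gamma (1 / 2) := by norm_num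
      rw [e, mul_comm (Real.Gamma (3 / 8))]
      exact hB1
    · refine ⟨by norm_num, by decide, ?_⟩
      have e : Real.Gamma ((5 * 1 % 8 : ℕ) / (8 : ℕ)) * Real.Gamma ((5 * 3 % 8 : ℕ) / (8 : ℕ)) /
        Real.Gamma ((5 * 1 % 8 : ℕ) / (8 : ℕ) + (5 * 3 % 8 : ℕ) / (8 : ℕ)) =
          Real.Gamma (5 / 8) * Real.Gamma (7 / 8) / Real.Gamma (3 / 2) := by norm_num
      rw [e]
      exact hB5
  have hcard := card_le_card hsub
  have h3c : ({1, 3, 5} : Finset ℕ).card = 3 := by decide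
  rw [h3c] at hcard
  have hcast : ∀ t : ℕ, (8 : ℕ) = 8 := fun _ => rfl
  omega

end Pool.Agent.ROH8
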