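import Pool.Agent.ROH8.GMain
import Pool.Agent.ROH8.SigS
import Pool.Agent.ROH8.Per
import Pool.Agent.ROH.LMain
import Pool.Agent.ROH.SFin
import Pool.Agent.ROH.GelfF
import Pool.Agent.ROH8.ZPair
import Pool.Agent.ROH8.ZTwo

/-!
Project ROH8, final part 4: the algebraic independence of the pairs of periods.
-/

set_option autoImplicit false

namespace Pool.Agent.ROH8

open Complex IntermediateField Pool.Agent.GP.DedM Pool.Agent.ROH

theorem ind_of {x y v1 v2 α β : ℝ} (hx0 : 0 < x) (hα : IsAlgebraic ℚ α)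
    (hα0 : α ≠ 0) (hβ : IsAlgebraic ℚ β) {k j : ℕ} (hk : 0 < k)
    (hv1 : v1 = α * x ^ k * Real.sqrt Real.pi) (hv2 : v2 = β * y ^ j * Real.sqrt Real.pi)
    (hxT : Transcendental ℚ x)
    (hmain : Transcendental ℚ ((Real.pi / v1 ^ 2 : ℝ) : ℂ) →
      ¬ IsAlgebraic (IntermediateField.adjoin ℚ {((Real.pi / v1 ^ 2 : ℝ) : ℂ)}) ((v2 / v1 : ℝ) : ℂ)) :
    AlgebraicIndependent ℚ ![x, y] := by
  have hpi := Real.pi_pos
  have hsp : 0 < Real.sqrt Real.pi := Real.sqrt_pos.2 hpi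
  have hs2 : Real.sqrt Real.pi ^ 2 = Real.pi := Real.sq_sqrt hpi.le
  have hxk : x ^ k ≠ 0 := pow_ne_zero _ hx0.ne'
  have hth : Real.pi / v1 ^ 2 = (α ^ 2 * (x ^ k) ^ 2)⁻¹ := by
    have h1 : v1 ^ 2 = α ^ 2 * (x ^ k) ^ 2 * Real.pi := by
      rw [hv1]
      calc (α * x ^ k * Real.sqrt Real.pi) ^ 2 = α ^ 2 * (x ^ k) ^ 2 * Real.sqrt Real.pi ^ 2 := by ring
        _ = _ := by rw [hs2]
    rw [h1]
    have h2 : α ^ 2 * (x ^ k) ^ 2 ≠ 0 := mul_ne_zero (pow_ne_zero _ hα0) (pow_ne_zero _ hxk)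
    field_simp
  have hc : v2 / v1 = (β * α⁻¹) * (y ^ j * (x ^ k)⁻¹) := by
    rw [hv1, hv2]
    field_simp
  have hthT : Transcendental ℚ (Real.pi / v1 ^ 2) := by
    intro hcon
    apply hxT
    apply IsAlgebraic.of_pow (n := k * 2) (by positivity)
    have h1 : x ^ (k * 2) = (Real.pi / v1 ^ 2)⁻¹ * (α ^ 2)⁻¹ := by
      rw [hth, inv_inv, pow_mul]
      field_simp
    rw [h1]
    exact hcon.inv.mul (hα.pow 2).inv
  have hthC : Transcendental ℚ ((Real.pi / v1 ^ 2 : ℝ) : ℂ) := fun h => hthT (alg_down h)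
  have hind : AlgebraicIndependent ℚ ![Real.pi / v1 ^ 2, v2 / v1] := algInd2 hthT (hmain hthC)
  have hxself := self_alg (x : ℂ)
  have h1 : IsAlgebraic ℚ⟮(x : ℂ)⟯ ((Real.pi / v1 ^ 2 : ℝ) : ℂ) := by
    rw [hth, ofReal_inv, ofReal_mul, ofReal_pow (x ^ k), ofReal_pow x]
    exact ((alg_up (hα.pow 2)).mul ((hxself.pow k).pow 2)).inv
  have h2 := not_both hind h1
  apply algInd2 hxT
  intro hya
  apply h2
  rw [hc]
  have h3 : ((β * α⁻¹ * (y ^ j * (x ^ k)⁻¹) : ℝ) : ℂ) =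
      ((β * α⁻¹ : ℝ) : ℂ) * ((y : ℂ) ^ j * ((x : ℂ) ^ k)⁻¹) := by
    push_cast
    ring
  rw [h3]
  exact (alg_up (hβ.mul hα.inv)).mul ((hya.pow j).mul (hxself.pow k).inv)

theorem rt_two : rt 2 * I = w2 := by
  unfold rt w2 r2
  norm_num

theorem alg_sqrt (n : ℕ) : IsAlgebraic ℚ (Real.sqrt n) := by
  apply IsAlgebraic.of_pow (n := 2) two_pos
  rw [Real.sq_sqrt (Nat.cast_nonneg n)]
  exact isAlgebraic_natCast n

/-- `x` is transcendental if it is so over `ℚ(π)` -/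
theorem trans_down {x : ℝ} (h : Transcendental ℚ⟮(Real.pi : ℂ)⟯ (x : ℂ)) : Transcendental ℚ x :=
  fun hx => h (alg_up hx)

theorem aux1 (a g t : ℝ) (ht : t ≠ 0) : a * (g ^ 2 / t) = a * (g / t) ^ 2 * t := by
  field_simp

theorem aux2 (g h t p : ℝ) (hp : t * t = p) (ht : t ≠ 0) :
    1 / 4 * (g * h / t) = 1 / 4 * (g * h / p) * t := by
  subst hp
  field_simp

theorem aux3 (a g t p : ℝ) (hp : t * t = p) (ht : t ≠ 0) :
    a * (g ^ 3 / p) = a * (g / t) ^ 3 * t := by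
  subst hp
  field_simp

theorem nsq2 : ¬ IsSquare (1 * 2) := by
  rintro ⟨r, hr⟩
  have : r < 2 := by nlinarith
  interval_cases r <;> omega

theorem nsq6 : ¬ IsSquare (3 * 2) := by
  rintro ⟨r, hr⟩
  have : r < 3 := by nlinarith
  interval_cases r <;> omega

theorem ind12 : AlgebraicIndependent ℚ ![Real.Gamma (1 / 4) / Real.sqrt Real.pi,
    Real.Gamma (1 / 8) * Real.Gamma (3 / 8) / Real.pi] := by
  obtain ⟨v1, L1, g1, a1, hv1, ho1, ho1', hg1, hg1', ha1, ha10, e1⟩ := latticeI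
  obtain ⟨v2, L2, hv2, ho2, ho2', hp2, e2⟩ := exists_lat8
  obtain ⟨s1, n1, hn1, hd1, hr1, hq1⟩ := sigmaI v1 L1 g1 hv1 ho1 ho1' hg1 hg1'
  obtain ⟨s2, n2, hn2, hd2, hr2, hq2⟩ := sigma8 v2 L2 hv2 ho2 ho2' hp2
  have hpi := Real.pi_pos
  have hsp : 0 < Real.sqrt Real.pi := Real.sqrt_pos.2 hpi
  have hs2 : Real.sqrt Real.pi * Real.sqrt Real.pi = Real.pi := Real.mul_self_sqrt hpi.le
  have hG4 : 0 < Real.Gamma (1 / 4) := Real.Gamma_pos_of_pos (by norm_num)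
  refine ind_of (v1 := v1) (v2 := v2) (α := a1) (β := 1 / 4) (k := 2) (j := 1) (div_pos hG4 hsp)
    ha1 ha10 ?_ two_pos ?_ ?_ (trans_down (trans_div gamma4)) ?_
  · have : (1 / 4 : ℝ) = algebraMap ℚ ℝ (1 / 4) := by simp
    rw [this]
    exact isAlgebraic_algebraMap _
  · rw [e1]
    exact aux1 _ _ _ hsp.ne'
  · rw [e2]
    have e : (1 / 8 + 3 / 8 : ℝ) = 1 / 2 := by norm_num
    rw [e, Real.Gamma_one_half_eq, pow_one]
    exact aux2 _ _ _ _ hs2 hsp.ne'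
  · intro hT
    refine mainG gelfondForm (a := 1) (b := 2) one_pos two_pos nsq2 v1 v2 s1 s2
      (n1 * Real.pi) (n2 * (Real.pi / Real.sqrt 2)) hv1 hv2 ?_ ?_ hd1 hd2 hr1 hr2 ?_ ?_ hT
    · rw [mul_div_assoc, div_self hpi.ne', mul_one]
      exact_mod_cast isAlgebraic_natCast (R := ℚ) (A := ℂ) n1
    · have e : (n2 * (Real.pi / Real.sqrt 2) / Real.pi : ℝ) = n2 * (Real.sqrt (2 : ℕ))⁻¹ := by
        push_cast
        field_simp
      rw [e]
      exact alg_complex ((isAlgebraic_natCast n2).mul (alg_sqrt 2).inv)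
    · have e : rt 1 * I = I := by
        unfold rt
        norm_num
      rw [e]
      exact hq1
    · rw [rt_two]
      exact hq2

theorem ind32 : AlgebraicIndependent ℚ ![Real.Gamma (1 / 3) / Real.sqrt Real.pi,
    Real.Gamma (1 / 8) * Real.Gamma (3 / 8) / Real.pi] := by
  obtain ⟨v1, L1, g1, a1, hv1, ho1, ho1', hg1, hg1', ha1, ha10, e1⟩ := latticeR
  obtain ⟨v2, L2, hv2, ho2, ho2', hp2, e2⟩ := exists_lat8
  obtain ⟨s1, n1, hn1, hd1, hr1, hq1⟩ := sigmaR v1 L1 g1 hv1 ho1 ho1' hg1 hg1'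
  obtain ⟨s2, n2, hn2, hd2, hr2, hq2⟩ := sigma8 v2 L2 hv2 ho2 ho2' hp2
  have hpi := Real.pi_pos
  have hsp : 0 < Real.sqrt Real.pi := Real.sqrt_pos.2 hpi
  have hs2 : Real.sqrt Real.pi * Real.sqrt Real.pi = Real.pi := Real.mul_self_sqrt hpi.le
  have hG3 : 0 < Real.Gamma (1 / 3) := Real.Gamma_pos_of_pos (by norm_num)
  refine ind_of (v1 := v1) (v2 := v2) (α := a1) (β := 1 / 4) (k := 3) (j := 1) (div_pos hG3 hsp)
    ha1 ha10 ?_ three_pos ?_ ?_ (trans_down (trans_div gamma3)) ?_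
  · have : (1 / 4 : ℝ) = algebraMap ℚ ℝ (1 / 4) := by simp
    rw [this]
    exact isAlgebraic_algebraMap _
  · rw [e1]
    exact aux3 _ _ _ _ hs2 hsp.ne'
  · rw [e2]
    have e : (1 / 8 + 3 / 8 : ℝ) = 1 / 2 := by norm_num
    rw [e, Real.Gamma_one_half_eq, pow_one]
    exact aux2 _ _ _ _ hs2 hsp.ne'
  · intro hT
    refine mainG gelfondForm (a := 3) (b := 2) three_pos two_pos nsq6 v1 v2 s1 s2
      (n1 * (2 * Real.pi / Real.sqrt 3)) (n2 * (Real.pi / Real.sqrt 2)) hv1 hv2 ?_ ?_ hd1 hd2 hr1 hr2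
      ?_ ?_ hT
    · have e : (n1 * (2 * Real.pi / Real.sqrt 3) / Real.pi : ℝ) =
          ((2 * n1 : ℕ) : ℝ) * (Real.sqrt (3 : ℕ))⁻¹ := by
        push_cast
        field_simp
      rw [e]
      exact alg_complex ((isAlgebraic_natCast _).mul (alg_sqrt 3).inv)
    · have e : (n2 * (Real.pi / Real.sqrt 2) / Real.pi : ℝ) = n2 * (Real.sqrt (2 : ℕ))⁻¹ := by
        push_cast
        field_simp
      rw [e]
      exact alg_complex ((isAlgebraic_natCast n2).mul (alg_sqrt 2).inv)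
    · have e : rt 3 * I = ((Real.sqrt 3 : ℝ) : ℂ) * I := by
        unfold rt
        norm_num
      rw [e]
      exact hq1
    · rw [rt_two]
      exact hq2

theorem ind13 : AlgebraicIndependent ℚ
    ![Real.Gamma (1 / 4) / Real.sqrt Real.pi, Real.Gamma (1 / 3) / Real.sqrt Real.pi] :=
  algInd_main (mainV gelfondForm) sigmaI sigmaR latticeI latticeR

end Pool.Agent.ROH8
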